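import Pool.Agent.Lib.MP_f80667_ag.Ct.EF

/-!
# Finitely many generators modulo `p ^ n`

* `Fg X K₁ k`: the displacements over the unramified extensions `M` of `K₁` are generated, modulo null elements and the next
  level, by those of `k` charts over `K₁`; norms of these displacements to `K₁` are, up to the next level, displacements.
* `Gm`: the finite set of the symbols `{α j (π ^ I r), β l (π ^ J)}` over `K₁`, `I, J < N`, `r ∈ R`.
* `fg_step`: the filtration is generated by `Gm` and the next level.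
* `fg_T`: `T` is generated by `Gm` and `p ^ n T`; `fin_T`: `T / p ^ n T` is finite.
-/

set_option autoImplicit false

open PE Finset Polynomial

namespace CV

variable {K Ω : Type} [Field K] [CharZero K] [Field Ω] [Algebra K Ω] [IsAlgClosure K Ω]
  {A B G : Type} [AddCommGroup A] [AddCommGroup B] [AddCommGroup G]
  [DistribMulAction (Ω ≃ₐ[K] Ω) A] [DistribMulAction (Ω ≃ₐ[K] Ω) B]
  {W : Tw K Ω} {p e c : ℕ}

/-- Finitely many charts over `K₁` generate the displacements over the unramified extensions of `K₁`. -/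
structure Fg (X : Lp W p e A) (K₁ : IntermediateField K Ω) (k : ℕ) where
  /-- the displacements in the charts -/
  α : ∀ M, Fin k → W.O M → A
  ch : ∀ {M}, W.Ex K₁ M → ∀ j, α M j ∈ X.Ch M
  pw : ∀ {M}, W.Ex K₁ M → ∀ j (r : ℕ), r ≠ 0 → α M j (W.π M ^ r) = α K₁ j (W.π K₁ ^ r)
  gen : ∀ {M r α' x}, W.Ex K₁ M → r ≠ 0 → α' ∈ X.Ch M → W.π M ^ r ∣ x →
    ∃ y : Fin k → W.O M, (∀ j, W.π M ^ r ∣ y j) ∧
      α' x - ∑ j, α M j (y j) ∈ X.D M (r + 1) ⊔ X.Nl M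
  nm : ∀ {M r x}, W.Ex K₁ M → ∀ j, r ≠ 0 → W.π M ^ r ∣ x → ∃ y, W.π K₁ ^ r ∣ y ∧
    Nm K₁ M (α M j x) - α K₁ j y ∈ X.D K₁ (r + 1) ⊔ X.Nl K₁

variable {S : Sc K Ω A B G} {X : Lp W p e A} {Y : Lp W p e B} {K₁ : IntermediateField K Ω}
  {k₁ k₂ : ℕ}

open Classical in
/-- The generators. -/
noncomputable def Gm (S : Sc K Ω A B G) (f : Fg X K₁ k₁) (g : Fg Y K₁ k₂) (R : Finset (W.O K₁))
    (N : ℕ) : Finset G :=
  ((range N ×ˢ range N) ×ˢ ((univ : Finset (Fin k₁)) ×ˢ (univ : Finset (Fin k₂))) ×ˢ R).image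
    fun t => if t.1.1 ≠ 0 ∧ t.1.2 ≠ 0 then
      S.sy K₁ (f.α K₁ t.2.1.1 (W.π K₁ ^ t.1.1 * t.2.2)) (g.α K₁ t.2.1.2 (W.π K₁ ^ t.1.2)) else 0

omit [CharZero K] [IsAlgClosure K Ω] in
theorem mem_Gm {f : Fg X K₁ k₁} {g : Fg Y K₁ k₂} {R : Finset (W.O K₁)} {N I J : ℕ} (hI : I ≠ 0)
    (hJ : J ≠ 0) (hIN : I < N) (hJN : J < N) (j : Fin k₁) (l : Fin k₂) {r : W.O K₁}
    (hr : r ∈ R) : S.sy K₁ (f.α K₁ j (W.π K₁ ^ I * r)) (g.α K₁ l (W.π K₁ ^ J)) ∈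
      Gm S f g R N := by
  classical
  unfold Gm
  rw [Finset.mem_image]
  refine ⟨((I, J), (j, l), r), ?_, ?_⟩
  · simp only [Finset.mem_product, Finset.mem_range, Finset.mem_univ, true_and]
    exact ⟨⟨hIN, hJN⟩, hr⟩
  · exact if_pos ⟨hI, hJ⟩

omit [CharZero K] [IsAlgClosure K Ω] in
/-- The generators are in `T`. -/
theorem gm_T (hU : W.U K₁) (hE : W.Ex K₁ K₁) (f : Fg X K₁ k₁) (g : Fg Y K₁ k₂)
    (R : Finset (W.O K₁)) (N : ℕ) {x : G} (hx : x ∈ Gm S f g R N) : x ∈ S.T := by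
  classical
  have := W.fd hU
  unfold Gm at hx
  rw [Finset.mem_image] at hx
  obtain ⟨t, -, rfl⟩ := hx
  split_ifs with h
  · exact sy_memT S (X.fx hU (X.chD hU (f.ch hE _) h.1 (dvd_mul_right _ _)))
      (Y.fx hU (Y.chD hU (g.ch hE _) h.2 (dvd_refl _)))
  · exact S.T.zero_mem

/-- The symbols with an entry in the next level or null. -/
theorem sy_next₁ {hp : p ≠ 0} {n : ℕ} (hX : Nul X S) (hY : Nul Y S.swap)
    {M : IntermediateField K Ω} (hM : W.U M) {I J : ℕ} (hJ : J ≠ 0) {a : A}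
    (ha : a ∈ X.D M (I + 1) ⊔ X.Nl M) {b : B} (hb : b ∈ Y.D M J) :
    Fx M a ∧ S.sy M a b ∈ Fn X Y S hp n (I + J + 1) := by
  have := W.fd hM
  obtain ⟨a₁, h₁, a₂, h₂, rfl⟩ := AddSubgroup.mem_sup.1 ha
  have h3 := X.fx hM h₁
  have h4 := X.nx hM h₂
  refine ⟨h3.add h4, ?_⟩
  rw [S.add₁ M a₁ a₂ b h3 h4 (Y.fx hM hb), hX M a₂ b hM h₂ (Y.fx hM hb), add_zero]
  exact fn_anti (by omega) (fn_dd hX hY hM (Nat.succ_ne_zero I) hJ h₁ hb)

theorem sy_next₂ {hp : p ≠ 0} {n : ℕ} (hX : Nul X S) (hY : Nul Y S.swap)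
    {M : IntermediateField K Ω} (hM : W.U M) {I J : ℕ} (hI : I ≠ 0) {a : A} (ha : a ∈ X.D M I)
    {b : B} (hb : b ∈ Y.D M (J + 1) ⊔ Y.Nl M) :
    Fx M b ∧ S.sy M a b ∈ Fn X Y S hp n (I + J + 1) := by
  have := W.fd hM
  obtain ⟨b₁, h₁, b₂, h₂, rfl⟩ := AddSubgroup.mem_sup.1 hb
  have h3 := Y.fx hM h₁
  have h4 := Y.nx hM h₂
  refine ⟨h3.add h4, ?_⟩
  have h5 : S.sy M a b₂ = 0 := hY M b₂ a hM h₂ (X.fx hM ha)
  rw [S.add₂ M a b₁ b₂ (X.fx hM ha) h3 h4, h5, add_zero]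
  exact fn_anti (by omega) (fn_dd hX hY hM hI (Nat.succ_ne_zero J) ha h₁)

/-- Symbols of displacements in the distinguished charts. Proof: `bal`, `pw`, the projection formula `S.nm₁` and `nm`; then a
representative of the leading coefficient. -/
theorem fg_core (H : Rl W p e c X Y S) {hp : p ≠ 0} {n : ℕ} (hU : W.U K₁) (hE : W.Ex K₁ K₁)
    (f : Fg X K₁ k₁) (g : Fg Y K₁ k₂) {R : Finset (W.O K₁)}
    (hR : ∀ x : W.O K₁, ∃ r ∈ R, W.π K₁ ∣ x - r) {N I J : ℕ} (hI : I ≠ 0) (hJ : J ≠ 0)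
    (hIN : I < N) (hJN : J < N) {M : IntermediateField K Ω} (hM : W.Ex K₁ M) (j : Fin k₁)
    (l : Fin k₂) {x y : W.O M} (hx : W.π M ^ I ∣ x) (hy : W.π M ^ J ∣ y) :
    S.sy M (f.α M j x) (g.α M l y) ∈
      AddSubgroup.closure (Gm S f g R N : Set G) ⊔ Fn X Y S hp n (I + J + 1) := by
  have hUM := W.up hU hM
  have := W.fd hU
  have := W.fd hUM
  obtain ⟨u, rfl⟩ := hx
  obtain ⟨v, rfl⟩ := hy
  have h1 := bal (hp := hp) (n := n) H hUM (f.ch hM j) (g.ch hM l) hI hJ 1 1 u v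
  rw [one_mul, one_mul, mul_one, g.pw hM l J hJ] at h1
  obtain ⟨Z, hZ⟩ : ∃ Z, Z = AddSubgroup.closure (Gm S f g R N : Set G) ⊔
    Fn X Y S hp n (I + J + 1) := ⟨_, rfl⟩
  rw [← hZ]
  have hF : Fn X Y S hp n (I + J + 1) ≤ Z := hZ ▸ le_sup_right
  -- the second entry is over `K₁`
  have hb := Y.chD hU (g.ch hE l) hJ (dvd_refl (W.π K₁ ^ J))
  have hbf := Y.fx hU hb
  have ha := X.chD hUM (f.ch hM j) hI (dvd_mul_right (W.π M ^ I) (u * v))
  have haf := X.fx hUM ha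
  have h2 := S.nm₁ K₁ M _ (g.α K₁ l (W.π K₁ ^ J)) (W.le hM) haf hbf
  obtain ⟨z, ⟨w, rfl⟩, hz⟩ := f.nm hM j hI (dvd_mul_right (W.π M ^ I) (u * v))
  have h3 := sy_next₁ (hp := hp) (n := n) H.nul₁ H.nul₂ hU hJ hz hb
  have hNf : Fx K₁ (Nm K₁ M (f.α M j (W.π M ^ I * (u * v)))) := nm_fx (W.le hM) haf
  have hzf := X.fx hU (X.chD hU (f.ch hE j) hI (dvd_mul_right (W.π K₁ ^ I) w))
  obtain ⟨r, hr, t, ht⟩ := hR w
  -- the representative
  have h4 := X.add hU (f.ch hE j) hI (Nat.succ_ne_zero I) (dvd_mul_right (W.π K₁ ^ I) r)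
    (dvd_mul_right (W.π K₁ ^ (I + 1)) t)
  have e1 : W.π K₁ ^ I * r + W.π K₁ ^ (I + 1) * t = W.π K₁ ^ I * w := by
    rw [show w = r + W.π K₁ * t by rw [← ht]; ring]
    ring
  rw [e1] at h4
  have h5 := X.chD hU (f.ch hE j) (Nat.succ_ne_zero I) (dvd_mul_right (W.π K₁ ^ (I + 1)) t)
  have h6 : f.α K₁ j (W.π K₁ ^ I * w) - f.α K₁ j (W.π K₁ ^ I * r) ∈ X.D K₁ (I + 1) := by
    have h7 := (X.D K₁ (I + 1)).add_mem (X.anti' hU (by omega) h4) h5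
    rwa [sub_add_cancel] at h7
  have hrf := X.fx hU (X.chD hU (f.ch hE j) hI (dvd_mul_right (W.π K₁ ^ I) r))
  have h8 := sy_next₁ (hp := hp) (n := n) H.nul₁ H.nul₂ hU hJ
    (AddSubgroup.mem_sup_left (T := X.Nl K₁) h6) hb
  have e2 : S.sy M (f.α M j (W.π M ^ I * u)) (g.α M l (W.π M ^ J * v)) =
      (S.sy M (f.α M j (W.π M ^ I * u)) (g.α M l (W.π M ^ J * v)) -
        S.sy M (f.α M j (W.π M ^ I * (u * v))) (g.α K₁ l (W.π K₁ ^ J))) +
      S.sy K₁ (Nm K₁ M (f.α M j (W.π M ^ I * (u * v))) - f.α K₁ j (W.π K₁ ^ I * w))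
        (g.α K₁ l (W.π K₁ ^ J)) +
      S.sy K₁ (f.α K₁ j (W.π K₁ ^ I * w) - f.α K₁ j (W.π K₁ ^ I * r))
        (g.α K₁ l (W.π K₁ ^ J)) +
      S.sy K₁ (f.α K₁ j (W.π K₁ ^ I * r)) (g.α K₁ l (W.π K₁ ^ J)) := by
    rw [sy_sub₁ hNf hzf hbf, sy_sub₁ hzf hrf hbf, h2]
    abel
  rw [e2]
  refine Z.add_mem (Z.add_mem (Z.add_mem (hF h1) (hF h3.2)) (hF h8.2)) ?_
  rw [hZ]
  exact AddSubgroup.mem_sup_left
    (AddSubgroup.subset_closure (Finset.mem_coe.2 (mem_Gm hI hJ hIN hJN j l hr)))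

/-- The sum of the symbols of finitely many fixed elements in the first entry. -/
theorem sy_fsum₁ {M : IntermediateField K Ω} [FiniteDimensional K M] {ι : Type} (s : Finset ι)
    (a : ι → A) {b : B} (ha : ∀ j, Fx M (a j)) (hb : Fx M b) :
    Fx M (∑ j ∈ s, a j) ∧ S.sy M (∑ j ∈ s, a j) b = ∑ j ∈ s, S.sy M (a j) b := by
  classical
  induction s using Finset.induction_on with
  | empty => exact ⟨Fx.zero, by rw [Finset.sum_empty, Finset.sum_empty, sy_zero₁ hb]⟩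
  | insert i s hi ih =>
    rw [Finset.sum_insert hi, Finset.sum_insert hi]
    exact ⟨(ha i).add ih.1, by rw [S.add₁ M _ _ b (ha i) ih.1 hb, ih.2]⟩

/-- The symbols of chart displacements over the unramified extensions of `K₁`. Proof: `Fg.gen` for both entries, `sy_next₁`,
`sy_next₂`, `fg_core`. -/
theorem fg_ch (H : Rl W p e c X Y S) {hp : p ≠ 0} {n : ℕ} (hU : W.U K₁) (hE : W.Ex K₁ K₁)
    (f : Fg X K₁ k₁) (g : Fg Y K₁ k₂) {R : Finset (W.O K₁)}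
    (hR : ∀ x : W.O K₁, ∃ r ∈ R, W.π K₁ ∣ x - r) {N I J : ℕ} (hI : I ≠ 0) (hJ : J ≠ 0)
    (hIN : I < N) (hJN : J < N) {M : IntermediateField K Ω} (hM : W.Ex K₁ M)
    {α : W.O M → A} {β : W.O M → B} (hα : α ∈ X.Ch M) (hβ : β ∈ Y.Ch M) {x y : W.O M}
    (hx : W.π M ^ I ∣ x) (hy : W.π M ^ J ∣ y) :
    S.sy M (α x) (β y) ∈
      AddSubgroup.closure (Gm S f g R N : Set G) ⊔ Fn X Y S hp n (I + J + 1) := by
  have hUM := W.up hU hM
  have := W.fd hUM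
  obtain ⟨u, hu, hu'⟩ := f.gen hM hI hα hx
  obtain ⟨v, hv, hv'⟩ := g.gen hM hJ hβ hy
  obtain ⟨Z, hZ⟩ : ∃ Z, Z = AddSubgroup.closure (Gm S f g R N : Set G) ⊔
    Fn X Y S hp n (I + J + 1) := ⟨_, rfl⟩
  rw [← hZ]
  have hF : Fn X Y S hp n (I + J + 1) ≤ Z := hZ ▸ le_sup_right
  have ha := X.fx hUM (X.chD hUM hα hI hx)
  have hbD := Y.chD hUM hβ hJ hy
  have hb := Y.fx hUM hbD
  have haj := fun j => X.fx hUM (X.chD hUM (f.ch hM j) hI (hu j))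
  have hajD := fun j => X.chD hUM (f.ch hM j) hI (hu j)
  have hbl := fun l => Y.fx hUM (Y.chD hUM (g.ch hM l) hJ (hv l))
  obtain ⟨s1, s2⟩ := sy_fsum₁ (S := S) Finset.univ (fun j => f.α M j (u j)) haj hb
  have h1 := sy_next₁ (hp := hp) (n := n) H.nul₁ H.nul₂ hUM hJ hu' hbD
  rw [sy_sub₁ ha s1 hb, s2] at h1
  have e1 : S.sy M (α x) (β y) = (S.sy M (α x) (β y) - ∑ j, S.sy M (f.α M j (u j)) (β y)) +
      ∑ j, S.sy M (f.α M j (u j)) (β y) := by abel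
  rw [e1]
  refine Z.add_mem (hF h1.2) (Z.sum_mem fun j _ => ?_)
  obtain ⟨t1, t2⟩ := sy_fsum₁ (S := S.swap) Finset.univ (fun l => g.α M l (v l)) hbl (haj j)
  have t3 : S.sy M (f.α M j (u j)) (∑ l, g.α M l (v l)) =
    ∑ l, S.sy M (f.α M j (u j)) (g.α M l (v l)) := t2
  have h2 := sy_next₂ (hp := hp) (n := n) H.nul₁ H.nul₂ hUM hI (hajD j) hv'
  rw [sy_sub₂ (haj j) hb t1, t3] at h2
  have e2 : S.sy M (f.α M j (u j)) (β y) =
      (S.sy M (f.α M j (u j)) (β y) - ∑ l, S.sy M (f.α M j (u j)) (g.α M l (v l))) +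
      ∑ l, S.sy M (f.α M j (u j)) (g.α M l (v l)) := by abel
  rw [e2]
  refine Z.add_mem (hF h2.2) (Z.sum_mem fun l _ => ?_)
  rw [hZ]
  exact fg_core H hU hE f g hR hI hJ hIN hJN hM j l (hu j) (hv l)

/-- The filtration is generated by the symbols `Gm` and the next level. Proof: enlarge the field (`X.nm`, `S.nm₁`, as in `to_big`),
`dd_gen`, `fg_ch`. -/
theorem fg_step (H : Rl W p e c X Y S) {hp : p ≠ 0} {n : ℕ} (hU : W.U K₁) (hE : W.Ex K₁ K₁)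
    (dir : ∀ M, W.U M → ∃ M', W.Ex M M' ∧ W.Ex K₁ M')
    (f : Fg X K₁ k₁) (g : Fg Y K₁ k₂) {R : Finset (W.O K₁)}
    (hR : ∀ x : W.O K₁, ∃ r ∈ R, W.π K₁ ∣ x - r) {N s : ℕ} (hs : s ≤ N) :
    Fn X Y S hp n s ≤ AddSubgroup.closure (Gm S f g R N : Set G) ⊔ Fn X Y S hp n (s + 1) := by
  refine fn_le (le_sup_of_le_right (pT_le _)) fun M α β x y I J hM hα hβ hI hJ hIJ hx hy => ?_
  obtain ⟨Z, hZ⟩ : ∃ Z, Z = AddSubgroup.closure (Gm S f g R N : Set G) ⊔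
    Fn X Y S hp n (s + 1) := ⟨_, rfl⟩
  rw [← hZ]
  have hF : Fn X Y S hp n (s + 1) ≤ Z := hZ ▸ le_sup_right
  rcases hIJ.lt_or_eq with h | h
  · exact hF (fn_anti (show s + 1 ≤ I + J by omega) (ch_mem H hM hα hβ hI hJ hx hy))
  · subst h
    have := W.fd hM
    obtain ⟨M', hM', hK'⟩ := dir M hM
    have hU' := W.up hM hM'
    have := W.fd hU'
    have hle := W.le hM'
    obtain ⟨a', ha', hd⟩ := X.nm hM hM' hI hα hx
    have h1 := X.fx hM (X.chD hM hα hI hx)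
    have hβy := Y.chD hM hβ hJ hy
    have h2 := Y.fx hM hβy
    have h3 := X.fx hU' ha'
    have h4 : Fx M (Nm M M' a') := nm_fx hle h3
    have e1 : S.sy M (α x) (β y) = S.sy M' a' (β y) + S.sy M (α x - Nm M M' a') (β y) := by
      rw [sy_sub₁ h1 h4 h2, S.nm₁ M M' a' (β y) hle h3 h2]
      abel
    rw [e1]
    refine Z.add_mem ?_ (hF (fn_anti (by omega)
      (fn_dd H.nul₁ H.nul₂ hM (Nat.succ_ne_zero I) hJ hd hβy)))
    refine dd_gen H.nul₁ H.nul₂ hU' hI hJ ha' (Y.res hM hM' hJ hβy) ?_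
    rintro M₁ α' β' x' y' hU₁ ⟨M₂, h5, h6⟩ hα' hβ' hx' hy'
    rw [hZ]
    exact fg_ch H hU hE f g hR hI hJ (by omega) (by omega) (H.tr (H.tr hK' h5) h6) hα' hβ' hx' hy'

/-- `T` is generated by finitely many symbols and `p ^ n T`. Proof: `top_fn`, `fg_step` iterated, `fn_end`. -/
theorem fg_T (H : Rl W p e c X Y S) (n : ℕ) (hU : W.U K₁) (hE : W.Ex K₁ K₁)
    (dir : ∀ M, W.U M → ∃ M', W.Ex M M' ∧ W.Ex K₁ M')
    (f : Fg X K₁ k₁) (g : Fg Y K₁ k₂) {R : Finset (W.O K₁)}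
    (hR : ∀ x : W.O K₁, ∃ r ∈ R, W.π K₁ ∣ x - r) :
    ∃ F : Finset G, (∀ x ∈ F, x ∈ S.T) ∧
      S.T ≤ AddSubgroup.closure (F : Set G) ⊔ mulT (p ^ n) S.T := by
  have hp : p ≠ 0 := H.prime.ne_zero
  obtain ⟨N, hN⟩ : ∃ N, N = 2 * (n * e + e + 1) := ⟨_, rfl⟩
  refine ⟨Gm S f g R N, fun x hx => gm_T hU hE f g R N hx, ?_⟩
  have h : ∀ d, 2 + d ≤ N →
      S.T ≤ AddSubgroup.closure (Gm S f g R N : Set G) ⊔ Fn X Y S hp n (2 + d) := by
    intro d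
    induction d with
    | zero =>
      intro _
      exact le_sup_of_le_right (top_fn H.nul₁ H.nul₂ H.top)
    | succ d ih =>
      intro hd
      refine (ih (by omega)).trans (sup_le le_sup_left ?_)
      exact fg_step H hU hE dir f g hR (by omega)
  have h1 := h (N - 2) (by omega)
  rw [show 2 + (N - 2) = N by omega] at h1
  exact h1.trans (sup_le_sup_left (fn_end H.nul₁ H.nul₂ (by omega)) _)

/-- A group which is generated by a finite set and `m T` is finite modulo `m T`. -/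
theorem fin_of_gen {T : AddSubgroup G} {m : ℕ} (hm : m ≠ 0) {F : Finset G} (hF : ∀ x ∈ F, x ∈ T)
    (h : T ≤ AddSubgroup.closure (F : Set G) ⊔ mulT m T) :
    ∃ E : Set G, E.Finite ∧ ∀ g ∈ T, ∃ x ∈ E, g - x ∈ mulT m T := by
  classical
  have h1 : ∀ c ∈ AddSubgroup.closure (F : Set G), ∃ k : G → ℤ, c = ∑ g ∈ F, k g • g := by
    intro c hc
    induction hc using AddSubgroup.closure_induction with
    | mem x hx =>
      refine ⟨fun g => if g = x then 1 else 0, ?_⟩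
      have h2 : ∀ g : G, (if g = x then (1 : ℤ) else 0) • g = if g = x then x else 0 := by
        intro g
        split_ifs with h3
        · rw [one_smul, h3]
        · rw [zero_smul]
      rw [Finset.sum_congr rfl fun g _ => h2 g, Finset.sum_ite_eq' F x fun _ => x,
        if_pos (Finset.mem_coe.1 hx)]
    | zero => exact ⟨0, by simp⟩
    | add x y _ _ hx hy =>
      obtain ⟨k, rfl⟩ := hx
      obtain ⟨k', rfl⟩ := hy
      exact ⟨k + k', by simp [add_smul, Finset.sum_add_distrib]⟩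
    | neg x _ hx =>
      obtain ⟨k, rfl⟩ := hx
      exact ⟨-k, by simp [Finset.sum_neg_distrib]⟩
  refine ⟨Set.range fun k : F → Fin m => ∑ g : F, (k g : ℕ) • (g : G), Set.finite_range _, ?_⟩
  intro g hg
  obtain ⟨c, hc, t, ht, rfl⟩ := AddSubgroup.mem_sup.1 (h hg)
  obtain ⟨k, rfl⟩ := h1 c hc
  have hm' : (m : ℤ) ≠ 0 := by exact_mod_cast hm
  have h2 : ∀ x : G, (k x % m).toNat < m := by
    intro x
    have h3 := Int.emod_nonneg (k x) hm'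
    have h4 := Int.emod_lt_of_pos (k x) (show (0 : ℤ) < m by positivity)
    omega
  refine ⟨_, ⟨fun x => ⟨(k x % m).toNat, h2 x⟩, rfl⟩, ?_⟩
  rw [add_sub_right_comm]
  refine (mulT m T).add_mem ?_ ht
  rw [← Finset.sum_coe_sort F fun g => k g • g, ← Finset.sum_sub_distrib]
  refine (mulT m T).sum_mem fun x _ => ?_
  have h5 : k x • (x : G) - (k x % m).toNat • (x : G) = m • (k x / m) • (x : G) := by
    have h6 : (((k x % m).toNat : ℕ) : ℤ) = k x % m := Int.toNat_of_nonneg (Int.emod_nonneg _ hm')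
    rw [← natCast_zsmul, h6, ← natCast_zsmul, ← mul_smul, ← sub_smul]
    congr 1
    have h7 := Int.emod_add_mul_ediv (k x) m
    linarith
  change k x • (x : G) - (k x % m).toNat • (x : G) ∈ _
  rw [h5]
  exact smul_mem_mulT (T.zsmul_mem (hF x x.2) _)

/-- **Divisible plus finite, abstract form.** `p ^ Sep T` is divisible by `p` and `T` is finite modulo `p ^ Sep T`. -/
theorem ctf_main (H : Rl W p e c X Y S) (hU : W.U K₁) (hE : W.Ex K₁ K₁)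
    (dir : ∀ M, W.U M → ∃ M', W.Ex M M' ∧ W.Ex K₁ M')
    (f : Fg X K₁ k₁) (g : Fg Y K₁ k₂)
    (hR : ∃ R : Finset (W.O K₁), ∀ x : W.O K₁, ∃ r ∈ R, W.π K₁ ∣ x - r) :
    ∃ D ≤ S.T, (∀ d ∈ D, ∃ d' ∈ D, p • d' = d) ∧ (∃ N : ℕ, N ≠ 0 ∧ D = mulT N S.T) ∧
      ∃ E : Set G, E.Finite ∧ ∀ g ∈ S.T, ∃ x ∈ E, g - x ∈ D := by
  obtain ⟨R, hR⟩ := hR
  have hp : p ≠ 0 := H.prime.ne_zero
  refine ⟨mulT (p ^ Sep p e c) S.T, ?_, ?_, ⟨_, pow_ne_zero _ hp, rfl⟩, ?_⟩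
  · rintro _ ⟨t, ht, rfl⟩
    exact S.T.nsmul_mem ht _
  · rintro _ ⟨t, ht, rfl⟩
    obtain ⟨t', ht', h⟩ := ct_mainp H (Sep p e c + 1) ht
    refine ⟨p ^ Sep p e c • t', smul_mem_mulT ht', ?_⟩
    have h1 : p ^ (Sep p e c + 1) • t' = p ^ Sep p e c • t := h
    change p • p ^ Sep p e c • t' = p ^ Sep p e c • t
    rw [← h1, pow_succ', mul_smul]
  · obtain ⟨F, hF, h⟩ := fg_T H (Sep p e c) hU hE dir f g hR
    exact fin_of_gen (pow_ne_zero _ hp) hF h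

end CV
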