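import Pool.Agent.Lib.MP_f80667_ag.Cv.Rp0
import Pool.Agent.Lib.MP_f80667_ag.Cv.CtD
import Pool.Agent.Lib.MP_f80667_ag.Cv.MdL
import Pool.Agent.Lib.MP_f80667_ag.Pe.Ur

/-!
# Residues and local parameters after an unramified extension

* `fin_frob`: the elements of a finite ring are fixed by a power of the Frobenius in all fields.
* `te_pol`: the roots of `X ^ (p ^ n) - X` in the integers of `M`.
* `rgl_up`: a local parameter at `N' ∩ S` is a local parameter at `N'`.
-/

set_option autoImplicit false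

open ZC BE PE Polynomial IsLocalRing

namespace CV

/-- The elements of a finite ring are fixed by a power of the Frobenius in all fields of characteristic `p`. Proof: two of the
elements `a ^ (p ^ i)`, `i ≤ card A`, are equal. -/
theorem fin_frob (A : Type) [CommRing A] [Finite A] {p : ℕ} (hp : p.Prime) :
    ∃ n : ℕ, n ≠ 0 ∧ ∀ (E : Type) [Field E] (g : A →+* E), (p : E) = 0 →
      ∀ a, g a ^ p ^ n = g a := by
  classical
  have hF : Fintype A := Fintype.ofFinite A
  refine ⟨(Fintype.card A).factorial, Nat.factorial_ne_zero _, fun E _ g hpE a => ?_⟩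
  have hpF : Fact p.Prime := ⟨hp⟩
  have hchar : CharP E p := by
    obtain ⟨q, hq⟩ := CharP.exists E
    have h1 : q ∣ p := (CharP.cast_eq_zero_iff E q p).1 hpE
    rcases (Nat.dvd_prime hp).1 h1 with rfl | rfl
    · exact absurd rfl (CharP.char_ne_one E 1)
    · exact hq
  obtain ⟨i, j, hij, hd⟩ := Fintype.exists_ne_map_eq_of_card_lt
    (fun i : Fin (Fintype.card A + 1) => a ^ p ^ (i : ℕ)) (by
      rw [Fintype.card_fin]
      exact Nat.lt_succ_self _)
  have key : ∀ i j : ℕ, i < j → j ≤ Fintype.card A → a ^ p ^ i = a ^ p ^ j →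
      g a ^ p ^ (Fintype.card A).factorial = g a := by
    intro i j hij hj h
    obtain ⟨d, rfl⟩ := Nat.exists_eq_add_of_lt hij
    have h1 : (g a ^ p ^ (d + 1)) ^ p ^ i = g a ^ p ^ i := by
      rw [← pow_mul, ← pow_add, ← map_pow, ← map_pow, h]
      congr 3
      omega
    have h2 : g a ^ p ^ (d + 1) = g a := iterateFrobenius_inj E p i h1
    have h3 : ∀ k : ℕ, g a ^ p ^ ((d + 1) * k) = g a := by
      intro k
      induction k with
      | zero => rw [Nat.mul_zero, pow_zero, pow_one]
      | succ k ih => rw [Nat.mul_succ, pow_add, pow_mul, ih, h2]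
    obtain ⟨k, hk⟩ : d + 1 ∣ (Fintype.card A).factorial :=
      Nat.dvd_factorial (Nat.succ_pos d) (by omega)
    rw [hk]
    exact h3 k
  have hi := i.2
  have hj := j.2
  rcases lt_trichotomy (i : ℕ) (j : ℕ) with h | h | h
  · exact key i j h (by omega) hd
  · exact absurd (Fin.ext h) hij
  · exact key j i h (by omega) hd.symm

section te

variable {K Ω : Type} [Field K] [CharZero K] [Field Ω] [Algebra K Ω] [IsAlgClosure K Ω]
  {L : Ld K Ω} {M : IntermediateField K Ω}

/-- The roots of `X ^ (p ^ n) - X` in the integers of `M`: they are pairwise incongruent. -/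
theorem te_pol {n : ℕ} (hn : n ≠ 0) (hM : L.Ur ⊥ n ≤ M) : ∃ T : Finset (OM L M),
    (∀ c ∈ T, ∀ c' ∈ T, c ≠ c' → IsUnit (c - c')) ∧
      ∏ c ∈ T, (X - C c) = (X ^ L.p ^ n - X : Polynomial (OM L M)) := by
  classical
  have hcl : IsAlgClosed Ω := IsAlgClosure.isAlgClosed K
  have hch : CharZero Ω := charZero_of_injective_algebraMap (algebraMap K Ω).injective
  have hq : 1 < L.p ^ n := Nat.one_lt_pow hn L.pp.one_lt
  obtain ⟨q, hqd⟩ : ∃ q, q = L.p ^ n := ⟨_, rfl⟩
  rw [← hqd] at hq ⊢
  have hmon : (X ^ q - X : Polynomial Ω).Monic := by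
    have h := monic_X_pow_add (R := Ω) (p := -X) (n := q) (by
      rw [degree_neg, degree_X]
      exact_mod_cast hq)
    rwa [← sub_eq_add_neg] at h
  have h0 : (X ^ q - X : Polynomial Ω) ≠ 0 := hmon.ne_zero
  have hroot : ∀ x : Ω, x ∈ (X ^ q - X : Polynomial Ω).roots ↔ x ∈ L.Te n := by
    intro x
    rw [mem_roots h0, IsRoot.def, eval_sub, eval_pow, eval_X, sub_eq_zero, hqd]
    rfl
  have hnd : (X ^ q - X : Polynomial Ω).roots.Nodup := by
    rw [Multiset.nodup_iff_count_le_one]
    intro x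
    rw [count_roots]
    by_contra hc
    rw [not_le] at hc
    obtain ⟨h1, h2⟩ := (one_lt_rootMultiplicity_iff_isRoot h0).1 hc
    have hx : x ∈ L.Te n := (hroot x).1 ((mem_roots h0).2 h1)
    rw [IsRoot.def, derivative_sub, derivative_X_pow, derivative_X, eval_sub, eval_mul, eval_one,
      eval_pow, eval_X, eval_C, sub_eq_zero] at h2
    have h3 := congrArg L.nm h2
    rw [L.mul, L.one, L.pow, hqd, Nat.cast_pow, L.pow] at h3
    have h4 : L.nm ((L.p : Ω)) ^ n * L.nm x ^ (L.p ^ n - 1) < 1 :=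
      mul_lt_one_of_nonneg_of_lt_one_left (pow_nonneg (L.nonneg _) _)
        (pow_lt_one₀ (L.nonneg _) L.lt hn) (pow_le_one₀ (L.nonneg _) (Ld.te_int hn hx))
    exact h4.ne h3
  have hT : ∀ x ∈ (X ^ q - X : Polynomial Ω).roots.toFinset, x ∈ M ∧ L.nm x ≤ 1 := by
    intro x hx
    rw [Multiset.mem_toFinset, hroot] at hx
    exact ⟨hM (Ld.te_ur hx), Ld.te_int hn hx⟩
  have hf : ∀ x : {x // x ∈ (X ^ q - X : Polynomial Ω).roots.toFinset},
      ∃ c : OM L M, ((c : M) : Ω) = x := fun x => ⟨⟨⟨x, (hT x x.2).1⟩, (hT x x.2).2⟩, rfl⟩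
  choose f hf using hf
  have hinj : Function.Injective (fun c : OM L M => ((c : M) : Ω)) := fun a b hab =>
    Subtype.ext (Subtype.ext hab)
  have hfi : Function.Injective f := fun x y h => by
    refine Subtype.ext ?_
    rw [← hf x, ← hf y, h]
  refine ⟨(X ^ q - X : Polynomial Ω).roots.toFinset.attach.image f, ?_, ?_⟩
  · intro c hc c' hc' hne
    obtain ⟨x, -, rfl⟩ := Finset.mem_image.1 hc
    obtain ⟨y, -, rfl⟩ := Finset.mem_image.1 hc'
    rw [unitOM]
    have hx := x.2
    have hy := y.2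
    rw [Multiset.mem_toFinset, hroot] at hx hy
    have e1 : (((f x - f y : OM L M) : M) : Ω) = (x : Ω) - y := by
      rw [← hf x, ← hf y]
      rfl
    rw [e1]
    refine le_antisymm ((L.sub _ _).trans (max_le (Ld.te_int hn hx) (Ld.te_int hn hy))) ?_
    by_contra hlt
    rw [not_le] at hlt
    exact hne (congrArg f (Subtype.ext (Ld.te_inj hn hx hy hlt)))
  · rw [Finset.prod_image fun x _ y _ h => hfi h]
    refine map_injective ((algebraMap M Ω).comp (algebraMap (OM L M) M)) hinj ?_
    rw [Polynomial.map_prod, Polynomial.map_sub, Polynomial.map_pow, map_X]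
    have e1 : ∀ x : {x // x ∈ (X ^ q - X : Polynomial Ω).roots.toFinset},
        (X - C (f x) : Polynomial (OM L M)).map ((algebraMap M Ω).comp (algebraMap (OM L M) M)) =
          X - C (x : Ω) := by
      intro x
      rw [Polynomial.map_sub, map_X, map_C]
      congr 2
      exact hf x
    rw [Finset.prod_congr rfl fun x _ => e1 x,
      Finset.prod_attach (X ^ q - X : Polynomial Ω).roots.toFinset fun x => (X - C x : Polynomial Ω)]
    have h5 := (IsAlgClosed.splits (X ^ q - X : Polynomial Ω)).eq_prod_roots_of_monic hmon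
    conv_rhs => rw [h5]
    rw [Finset.prod_multiset_map_count]
    refine Finset.prod_congr rfl fun x hx => ?_
    rw [Multiset.mem_toFinset] at hx
    rw [Multiset.count_eq_one_of_mem hnd hx, pow_one]

end te

section up

variable {V S V' S' : Type} [CommRing V] [CommRing S] [Algebra V S] [CommRing V'] [CommRing S']
  [Algebra V' S']

/-- One denominator for all elements of a finitely generated ideal. -/
theorem rgl_uni {π : V} {N : Ideal S} (hN : N.IsPrime) (hfg : N.FG) {z : S} (hz : z ∈ N)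
    (h : ∀ x ∈ N, ∃ s, s ∉ N ∧ ∃ y y', s * x = z * y + algebraMap V S π * y') : Rgl π N z := by
  classical
  obtain ⟨G, hG⟩ := hfg
  have hGN : ∀ g ∈ G, g ∈ N := fun g hg => hG ▸ Ideal.subset_span (Finset.mem_coe.2 hg)
  choose s hs y y' hy using h
  refine ⟨hz, ∏ g ∈ G.attach, s g (hGN g g.2), fun hm => ?_, fun x hx => ?_⟩
  · obtain ⟨g, -, hg⟩ := (hN.prod_mem_iff).1 hm
    exact hs _ _ hg
  · have hx' : x ∈ Ideal.span (G : Set S) := by
      rw [← hG] at hx
      exact hx
    clear hx
    induction hx' using Submodule.span_induction with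
    | mem g hg =>
      have hg' : (⟨g, Finset.mem_coe.1 hg⟩ : {x // x ∈ G}) ∈ G.attach := Finset.mem_attach _ _
      rw [← Finset.mul_prod_erase _ _ hg']
      have h1 := hy g (hGN g (Finset.mem_coe.1 hg))
      refine ⟨y g (hGN g (Finset.mem_coe.1 hg)) * ∏ x ∈ G.attach.erase ⟨g, Finset.mem_coe.1 hg⟩,
        s x (hGN x x.2), y' g (hGN g (Finset.mem_coe.1 hg)) *
        ∏ x ∈ G.attach.erase ⟨g, Finset.mem_coe.1 hg⟩, s x (hGN x x.2), ?_⟩
      linear_combination (∏ x ∈ G.attach.erase ⟨g, Finset.mem_coe.1 hg⟩, s x (hGN x x.2)) * h1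
    | zero => exact ⟨0, 0, by ring⟩
    | add a b _ _ ha hb =>
      obtain ⟨u, u', hu⟩ := ha
      obtain ⟨v, v', hv⟩ := hb
      exact ⟨u + v, u' + v', by rw [mul_add, hu, hv]; ring⟩
    | smul c a _ ha =>
      obtain ⟨u, u', hu⟩ := ha
      exact ⟨c * u, c * u', by rw [smul_eq_mul]; linear_combination c * hu⟩

variable [IsLocalRing V'] (μ : S →+* S') {N' : Ideal S'} (hN' : Cs V' N')
  (hgen : ∀ x : S', x ∈ AddSubmonoid.closure
    {x : S' | ∃ (c : V') (r : S), x = algebraMap V' S' c * μ r})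
  {T : Finset V'} (hT : ∀ c ∈ T, ∀ c' ∈ T, c ≠ c' → IsUnit (c - c')) {q : ℕ}
  (hq : ∏ c ∈ T, (X - C c) = (X ^ q - X : Polynomial V'))
  (hfr : ∀ r : S, r ^ q - r ∈ N'.comap μ)

include hq in
/-- The factorization of `x ^ q - x`. -/
theorem te_fac (x : S') : ∏ c ∈ T, (x - algebraMap V' S' c) = x ^ q - x := by
  have h := congrArg (aeval x) hq
  rw [map_prod, map_sub, map_pow, aeval_X] at h
  rw [← h]
  refine Finset.prod_congr rfl fun c _ => ?_
  rw [map_sub, aeval_X, aeval_C]

include hN' hq hfr in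
/-- The residues of the elements of `S`. -/
theorem te_res (r : S) : ∃ c ∈ T, μ r - algebraMap V' S' c ∈ N' := by
  have hp := hN'.1.isPrime
  have h := hfr r
  rw [Ideal.mem_comap, map_sub, map_pow, ← te_fac hq (μ r)] at h
  exact (hp.prod_mem_iff).1 h

include hN' hgen hq hfr in
/-- All residues are in `V'`. -/
theorem te_rat (x : S') : ∃ c : V', x - algebraMap V' S' c ∈ N' := by
  have h := hgen x
  induction h using AddSubmonoid.closure_induction with
  | mem x hx =>
    obtain ⟨c, r, rfl⟩ := hx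
    obtain ⟨c', -, h⟩ := te_res μ hN' hq hfr r
    refine ⟨c * c', ?_⟩
    rw [map_mul, ← mul_sub]
    exact N'.mul_mem_left _ h
  | zero => exact ⟨0, by rw [map_zero, sub_zero]; exact N'.zero_mem⟩
  | add a b _ _ ha hb =>
    obtain ⟨c, hc⟩ := ha
    obtain ⟨c', hc'⟩ := hb
    refine ⟨c + c', ?_⟩
    rw [map_add, add_sub_add_comm]
    exact N'.add_mem hc hc'

include hN' hgen hT hq hfr in
/-- **Local parameters after an unramified extension.** -/
theorem rgl_up (hfg : N'.FG) {π : V} {π' : V'}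
    (hμ : μ (algebraMap V S π) = algebraMap V' S' π') (hπm : π' ∈ maximalIdeal V')
    (hπ' : ∀ c ∈ maximalIdeal V', π' ∣ c)
    {b : S} (hb : Rgl π (N'.comap μ) b) : Rgl π' N' (μ b) := by
  classical
  have hp := hN'.1.isPrime
  have key : ∀ x : S', ∃ s, s ∉ N' ∧ ∃ (c : V') (y y' : S'),
      s * (x - algebraMap V' S' c) = μ b * y + algebraMap V' S' π' * y' := by
    intro x
    have h := hgen x
    induction h using AddSubmonoid.closure_induction with
    | mem x hx =>
      obtain ⟨d, r, rfl⟩ := hx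
      obtain ⟨c, hc, hm⟩ := te_res μ hN' hq hfr r
      obtain ⟨-, s, hs, hsx⟩ := hb
      obtain ⟨y, y', e⟩ := hsx _ (hfr r)
      have e1 := congrArg μ e
      rw [map_mul, map_add, map_mul, map_mul, hμ, map_sub, map_pow, ← te_fac hq (μ r),
        ← Finset.mul_prod_erase _ _ hc] at e1
      refine ⟨μ s * ∏ x ∈ T.erase c, (μ r - algebraMap V' S' x), fun hm' => ?_, d * c,
        algebraMap V' S' d * μ y, algebraMap V' S' d * μ y', ?_⟩
      · rcases hp.mem_or_mem hm' with h1 | h1
        · exact hs h1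
        · obtain ⟨c', hc', h2⟩ := (hp.prod_mem_iff).1 h1
          rw [Finset.mem_erase] at hc'
          have h3 := N'.sub_mem hm h2
          have h4 : μ r - algebraMap V' S' c - (μ r - algebraMap V' S' c') =
              algebraMap V' S' (c' - c) := by
            rw [map_sub]
            ring
          rw [h4] at h3
          exact hp.ne_top (Ideal.eq_top_of_isUnit_mem _ h3
            ((hT c' hc'.2 c hc hc'.1).map (algebraMap V' S')))
      · rw [map_mul]
        linear_combination algebraMap V' S' d * e1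
    | zero =>
      refine ⟨1, fun h => hp.ne_top ((Ideal.eq_top_iff_one _).2 h), 0, 0, 0, ?_⟩
      rw [map_zero]
      ring
    | add a b' _ _ ha hb' =>
      obtain ⟨s, hs, c, y, y', e⟩ := ha
      obtain ⟨t, ht, d, z, z', e'⟩ := hb'
      refine ⟨s * t, fun h => (hp.mem_or_mem h).elim hs ht, c + d, t * y + s * z,
        t * y' + s * z', ?_⟩
      rw [map_add]
      linear_combination t * e + s * e'
  refine rgl_uni hp hfg hb.1 fun x hx => ?_
  obtain ⟨s, hs, c, y, y', e⟩ := key x
  have hπN : algebraMap V' S' π' ∈ N' := hN'.2 _ hπm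
  have h1 : s * (x - algebraMap V' S' c) ∈ N' := by
    rw [e]
    exact N'.add_mem (N'.mul_mem_right _ hb.1) (N'.mul_mem_right _ hπN)
  have h2 : algebraMap V' S' c ∈ N' := by
    have h3 := (hp.mem_or_mem h1).resolve_left hs
    have h4 := N'.sub_mem hx h3
    rwa [sub_sub_cancel] at h4
  have h5 : c ∈ maximalIdeal V' := by
    rw [mem_maximalIdeal, mem_nonunits_iff]
    intro hu
    exact hp.ne_top (Ideal.eq_top_of_isUnit_mem _ h2 (hu.map (algebraMap V' S')))
  obtain ⟨d, rfl⟩ := hπ' c h5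
  refine ⟨s, hs, y, y' + s * algebraMap V' S' d, ?_⟩
  rw [map_mul] at e
  linear_combination e

end up

end CV
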