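import Pool.Agent.Lib.MP_f80667_ag.Ctf.B
import Pool.Agent.Lib.MP_f80667_ag.Cv.Sml

/-!
# A fixed element with simple zeros on the special fibre, over all large unramified extensions

`Bb m n b`: `b` over `⊥` is of unit type, its zeros on the special fibre are simple, the residues at its zeros are fixed by the
`n`-th power of the Frobenius. `exists_bb`: existence. `Bb.rat`, `Bb.rgl`: over `M ≥ Ur ⊥ n` the zeros are rational and simple.
-/

set_option autoImplicit false

open ZC BE PE Polynomial TensorProduct IntermediateField IsLocalRing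

namespace CV

section md

variable {V L k S SL Sk : Type} [CommRing V] [IsDomain V] [IsDiscreteValuationRing V] [Field L]
  [Field k] [Algebra V L] [IsFractionRing V L] [Algebra V k] [CommRing S] [CommRing SL]
  [CommRing Sk] [Algebra V S] [Algebra L SL] [Algebra k Sk] (M : Md V L k S SL Sk)

include M in
/-- The residues at the zeros of `b` are fixed by a power of the Frobenius. Proof: `Sk / (q b)` is a finite ring; `fin_frob`. -/
theorem md_frob [Finite k] {π : V} (hπ : Irreducible π) {b : S} (hb : M.q b ≠ 0) {p : ℕ}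
    (hp : p.Prime) : ∃ n : ℕ, n ≠ 0 ∧ ∀ (E : Type) [Field E] (g : S →+* E), (p : E) = 0 →
      g (algebraMap V S π) = 0 → g b = 0 → ∀ s, g s ^ p ^ n = g s := by
  have h1 : Module.Finite k (Sk ⧸ Ideal.span {M.q b}) := M.Dk.finite_quot hb
  have h2 : Finite (Sk ⧸ Ideal.span {M.q b}) := Module.finite_of_finite k
  let f : S →+* Sk ⧸ Ideal.span {M.q b} := (Ideal.Quotient.mk _).comp M.q
  have h3 : Finite (S ⧸ RingHom.ker f) :=
    Finite.of_injective (RingHom.kerLift f) (RingHom.kerLift_injective f)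
  obtain ⟨n, hn, h⟩ := fin_frob (S ⧸ RingHom.ker f) hp
  refine ⟨n, hn, fun E _ g hpE hgπ hgb s => ?_⟩
  have hker : ∀ a : S, a ∈ RingHom.ker f → g a = 0 := by
    intro a ha
    have h4 : M.q a ∈ Ideal.span {M.q b} := Ideal.Quotient.eq_zero_iff_mem.1 ha
    obtain ⟨t', ht'⟩ := Ideal.mem_span_singleton.1 h4
    obtain ⟨t, rfl⟩ := M.surj t'
    rw [← map_mul] at ht'
    obtain ⟨u, hu⟩ := (M.q_eq_iff hπ).1 ht'
    rw [hu, map_add, map_mul, map_mul, hgb, hgπ, zero_mul, zero_mul, add_zero]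
  exact h E (Ideal.Quotient.lift (RingHom.ker f) g hker) hpE (Ideal.Quotient.mk _ s)

end md

section mod

variable {F : Type} [Field F] {K Ω : Type} [Field K] [CharZero K] [Field Ω] [Algebra K Ω]
  [Algebra F K] [Algebra F Ω] [IsScalarTower F K Ω] [IsAlgClosure K Ω] {L : Ld K Ω}
  {C : Crv F} (m : Mod C (Ok L) K)

/-- The functions over `⊥`. -/
abbrev S₀ : Type := OM L (⊥ : IntermediateField K Ω) ⊗[Ok L] m.R

/-- The functions over `⊥` as functions over `M`. -/
noncomputable def mb (M : IntermediateField K Ω) : S₀ m →+* OM L M ⊗[Ok L] m.R :=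
  (m.mpM (bot_le : (⊥ : IntermediateField K Ω) ≤ M)).toRingHom

/-- A fixed element with simple zeros. -/
structure Bb (n : ℕ) (b : S₀ m) : Prop where
  n0 : n ≠ 0
  ut : ∃ d : ℕ, m.N ≤ d ∧ (m.mdM ⊥).Ut b d
  rgl : ∀ (π : OM L (⊥ : IntermediateField K Ω)), Irreducible π → ∀ N : Ideal (S₀ m),
    Cs (OM L (⊥ : IntermediateField K Ω)) N → b ∈ N → Rgl π N b
  frob : ∀ (π : OM L (⊥ : IntermediateField K Ω)), Irreducible π → ∀ (E : Type) [Field E]
    (g : S₀ m →+* E), (L.p : E) = 0 → g (algebraMap _ _ π) = 0 → g b = 0 →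
    ∀ s, g s ^ L.p ^ n = g s

omit [CharZero K] [Algebra F Ω] [IsScalarTower F K Ω] [IsAlgClosure K Ω] in
theorem mb_def (M : IntermediateField K Ω) (s : S₀ m) : mb m M s = m.mpM bot_le s := rfl

omit [Algebra F Ω] [IsScalarTower F K Ω] in
theorem exists_bb : ∃ (n : ℕ) (b : S₀ m), Bb m n b := by
  obtain ⟨π, hπ⟩ := IsDiscreteValuationRing.exists_irreducible
    (OM L (⊥ : IntermediateField K Ω))
  obtain ⟨b, d, hd, hb, -, hr⟩ := (m.mdM (⊥ : IntermediateField K Ω)).exists_f hπ m.N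
    (T' := ∅) Set.finite_empty (fun N hN => absurd hN (Set.notMem_empty N))
  obtain ⟨n, hn, hf⟩ := md_frob (m.mdM (⊥ : IntermediateField K Ω)) hπ
    ((m.mdM (⊥ : IntermediateField K Ω)).Dk.ne_zero hb.2) L.pp
  have hass : ∀ π' : OM L (⊥ : IntermediateField K Ω), Irreducible π' →
      ∃ u v : OM L (⊥ : IntermediateField K Ω), π = π' * u ∧ π' = π * v := by
    intro π' hπ'
    obtain ⟨u, hu⟩ := IsDiscreteValuationRing.associated_of_irreducible _ hπ' hπ
    obtain ⟨v, hv⟩ := IsDiscreteValuationRing.associated_of_irreducible _ hπ hπ'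
    exact ⟨u, v, hu.symm, hv.symm⟩
  refine ⟨n, b, hn, ⟨d, hd, hb⟩, fun π' hπ' N hN hbN => ?_, fun π' hπ' E _ g hpE hg hgb s => ?_⟩
  · obtain ⟨u, v, hu, hv⟩ := hass π' hπ'
    obtain ⟨h0, s, hs, h⟩ := hr N hN hbN
    refine ⟨h0, s, hs, fun x hx => ?_⟩
    obtain ⟨y, y', e⟩ := h x hx
    exact ⟨y, algebraMap _ _ u * y', by rw [e, hu, map_mul]; ring⟩
  · obtain ⟨u, v, hu, hv⟩ := hass π' hπ'
    refine hf E g hpE ?_ hgb s
    rw [hu, map_mul, map_mul, hg, zero_mul]

variable {m} {n : ℕ} {b : S₀ m} (H : Bb m n b)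

omit [CharZero K] [Algebra F Ω] [IsScalarTower F K Ω] [IsAlgClosure K Ω] in
/-- The integers of `M` and the functions over `⊥` generate the functions over `M`. -/
theorem sm_gen (M : IntermediateField K Ω) (x : OM L M ⊗[Ok L] m.R) :
    x ∈ AddSubmonoid.closure {x : OM L M ⊗[Ok L] m.R | ∃ (c : OM L M) (r : S₀ m),
      x = algebraMap (OM L M) _ c * mb m M r} := by
  induction x using TensorProduct.induction_on with
  | zero => exact zero_mem _
  | tmul c r =>
    refine AddSubmonoid.subset_closure ⟨c, 1 ⊗ₜ r, ?_⟩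
    have e : mb m M (1 ⊗ₜ r) = 1 ⊗ₜ r := by
      rw [mb_def]
      unfold Mod.mpM
      rw [mpS_tmul, map_one]
    rw [e, Algebra.TensorProduct.algebraMap_apply, Algebra.TensorProduct.tmul_mul_tmul, mul_one,
      one_mul]
    rfl
  | add x y hx hy => exact add_mem hx hy

omit [CharZero K] [Algebra F Ω] [IsScalarTower F K Ω] [IsAlgClosure K Ω] in
theorem mb_alg (M : IntermediateField K Ω) (c : OM L (⊥ : IntermediateField K Ω)) :
    mb m M (algebraMap _ _ c) = algebraMap (OM L M) _ (omM L bot_le c) := by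
  rw [mb_def, Algebra.TensorProduct.algebraMap_apply, Algebra.TensorProduct.algebraMap_apply]
  unfold Mod.mpM
  rw [mpS_tmul]
  rfl

include H in
/-- The Frobenius at a closed point of the special fibre over `M`. -/
theorem Bb.fr {M : IntermediateField K Ω} [FiniteDimensional K M]
    {N : Ideal (OM L M ⊗[Ok L] m.R)} (hN : Cs (OM L M) N) (hb : mb m M b ∈ N) (r : S₀ m) :
    r ^ L.p ^ n - r ∈ N.comap (mb m M) := by
  obtain ⟨π, hπ⟩ := IsDiscreteValuationRing.exists_irreducible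
    (OM L (⊥ : IntermediateField K Ω))
  have hmax := hN.1
  let _ : Field ((OM L M ⊗[Ok L] m.R) ⧸ N) := Ideal.Quotient.field N
  have h1 := H.frob π hπ ((OM L M ⊗[Ok L] m.R) ⧸ N)
    ((Ideal.Quotient.mk N).comp (mb m M)) ?_ ?_ ?_ r
  · rw [Ideal.mem_comap, ← Ideal.Quotient.eq_zero_iff_mem]
    rw [map_sub, map_sub, map_pow, map_pow]
    exact sub_eq_zero.2 h1
  · have h2 : algebraMap (OM L M) (OM L M ⊗[Ok L] m.R) (L.p : OM L M) ∈ N := by
      refine hN.2 _ ((maxOM L M _).2 ?_)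
      have e1 : ((((L.p : OM L M) : M)) : Ω) = (L.p : Ω) := by simp
      rw [e1]
      exact L.lt
    have h3 := Ideal.Quotient.eq_zero_iff_mem.2 h2
    rw [map_natCast, map_natCast] at h3
    exact h3
  · change Ideal.Quotient.mk N (mb m M _) = 0
    rw [mb_alg, Ideal.Quotient.eq_zero_iff_mem]
    refine hN.2 _ ((maxOM L M _).2 ?_)
    rw [omM_coe]
    exact (maxOM L _ π).1 ((mem_maximalIdeal _).2 hπ.not_isUnit)
  · change Ideal.Quotient.mk N (mb m M b) = 0
    exact Ideal.Quotient.eq_zero_iff_mem.2 hb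

include H in
/-- The zeros of `b` are rational over `M ≥ Ur ⊥ n`. -/
theorem Bb.rat {M : IntermediateField K Ω} [FiniteDimensional K M] (hM : L.Ur ⊥ n ≤ M)
    {N : Ideal (OM L M ⊗[Ok L] m.R)} (hN : Cs (OM L M) N) (hb : mb m M b ∈ N)
    (s : OM L M ⊗[Ok L] m.R) : ∃ c : OM L M, s - algebraMap (OM L M) _ c ∈ N := by
  obtain ⟨T, hT, hq⟩ := te_pol H.n0 hM
  exact te_rat (mb m M) hN (sm_gen M) hq (fun r => H.fr hN hb r) s

/-- The inverse image of a zero is a closed point. -/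
theorem Bb.cs (H : Bb m n b) {M : IntermediateField K Ω} [FiniteDimensional K M]
    {N : Ideal (OM L M ⊗[Ok L] m.R)} (hN : Cs (OM L M) N) (hb : mb m M b ∈ N) :
    Cs (OM L (⊥ : IntermediateField K Ω)) (N.comap (mb m M)) := by
  have hp := hN.1.isPrime
  have hq : 2 ≤ L.p ^ n := Nat.one_lt_pow H.n0 L.pp.one_lt
  have hne : N.comap (mb m M) ≠ ⊤ := by
    rw [Ne, Ideal.eq_top_iff_one, Ideal.mem_comap, map_one]
    exact fun h => hp.ne_top ((Ideal.eq_top_iff_one _).2 h)
  have hcp : (N.comap (mb m M)).IsPrime := Ideal.comap_isPrime _ _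
  refine ⟨?_, fun c hc => ?_⟩
  · rw [Ideal.isMaximal_iff]
    refine ⟨fun h => hne ((Ideal.eq_top_iff_one _).2 h), fun J x hJ hx hxJ => ?_⟩
    have h1 := H.fr hN hb x
    have h2 : x * (x ^ (L.p ^ n - 1) - 1) ∈ N.comap (mb m M) := by
      have e : x * (x ^ (L.p ^ n - 1) - 1) = x ^ L.p ^ n - x := by
        rw [mul_sub, mul_one, ← pow_succ', Nat.sub_add_cancel (by omega)]
      rw [e]
      exact h1
    have h3 := hJ ((hcp.mem_or_mem h2).resolve_left hx)
    have h4 : x ^ (L.p ^ n - 1) ∈ J := J.pow_mem_of_mem hxJ _ (by omega)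
    have h5 := J.sub_mem h4 h3
    rwa [sub_sub_cancel] at h5
  · rw [Ideal.mem_comap, mb_alg]
    refine hN.2 _ ((maxOM L M _).2 ?_)
    rw [omM_coe]
    exact (maxOM L _ c).1 hc

/-- The zeros of `b` are simple over `M ≥ Ur ⊥ n`. -/
theorem Bb.rg (H : Bb m n b) {M : IntermediateField K Ω} [FiniteDimensional K M]
    (hM : L.Ur ⊥ n ≤ M) {π : OM L (⊥ : IntermediateField K Ω)} (hπ : Irreducible π)
    (hπ' : Irreducible (omM L (bot_le : (⊥ : IntermediateField K Ω) ≤ M) π))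
    {N : Ideal (OM L M ⊗[Ok L] m.R)} (hN : Cs (OM L M) N) (hb : mb m M b ∈ N) :
    Rgl (omM L (bot_le : (⊥ : IntermediateField K Ω) ≤ M) π) N (mb m M b) := by
  obtain ⟨T, hT, hq⟩ := te_pol H.n0 hM
  have hno : IsNoetherianRing (OM L M ⊗[Ok L] m.R) := (m.mdM M).noeth
  refine rgl_up (mb m M) hN (sm_gen M) hT hq (fun r => H.fr hN hb r)
    (IsNoetherian.noetherian N) (mb_alg _ _) ?_ ?_ (H.rgl π hπ _ (H.cs hN hb) hb)
  · exact (mem_maximalIdeal _).2 hπ'.not_isUnit
  · intro c hc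
    rwa [hπ'.maximalIdeal_eq, Ideal.mem_span_singleton] at hc

end mod

end CV
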