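import Pool.Agent.Lib.MP_f80667_ag.Ctf.C
import Pool.Agent.Lib.MP_f80667_ag.Cv.ChB
import Pool.Agent.Lib.MP_f80667_ag.Cv.EtF

/-!
# The divisors of `b` and of the elements congruent to `b`

* `uf_irr`: a uniformizer of `K` is a uniformizer of the unramified extensions.
* `Zs`: the charts at the zeros of `b` over `K₁ = Ur ⊥ n`; `exists_zs`.
* `Zs.zt`: for `g = b - π ^ r w` over `M ≥ K₁` the divisor of `g` near the zeros of `b` is the sum of the points with parameters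
  `x j`, `π ^ r ∣ x j`, of these charts.
-/

set_option autoImplicit false

open ZC BE PE Polynomial TensorProduct IntermediateField IsLocalRing

namespace CV

section irr

variable {K Ω : Type} [Field K] [CharZero K] [Field Ω] [Algebra K Ω] [IsAlgClosure K Ω]
  {L : Ld K Ω} {M : IntermediateField K Ω}

/-- The uniformizer in the integers of `M`. -/
def ufM (L : Ld K Ω) (π : K) (hπ : L.nm (algebraMap K Ω π) < 1) (M : IntermediateField K Ω) :
    OM L M := ⟨algebraMap K M π, hπ.le⟩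

/-- A uniformizer of `K` is a uniformizer of the unramified extensions. -/
theorem uf_irr {π : K} (hπ : Uf L π) (hM : Um L M) : Irreducible (ufM L π hπ.lt M) := by
  classical
  have hfd := hM.fd
  have h0 : 0 < L.nm (algebraMap K Ω π) := L.pos ((_root_.map_ne_zero _).2 hπ.ne)
  refine irr_of_nm L M h0 hπ.lt fun x hx => ?_
  have hx0 : ((x : M) : Ω) ≠ 0 := fun h => hx (Subtype.ext (Subtype.ext h))
  have hp : 0 < L.nm ((x : M) : Ω) := L.pos hx0
  have hex : ∃ n : ℕ, L.nm (algebraMap K Ω π) ^ n ≤ L.nm ((x : M) : Ω) := by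
    obtain ⟨n, hn⟩ := exists_pow_lt_of_lt_one hp hπ.lt
    exact ⟨n, hn.le⟩
  refine ⟨Nat.find hex, le_antisymm ?_ (Nat.find_spec hex)⟩
  rcases Nat.eq_zero_or_pos (Nat.find hex) with h | h
  · rw [h, pow_zero]
    exact x.2
  · have h2 := Nat.find_min hex (m := Nat.find hex - 1) (by omega)
    rw [not_le] at h2
    have h3 := Um.lt hπ hM (x : M).2 h2
    rwa [Nat.sub_add_cancel h] at h3

end irr

section rgl

variable {V S : Type} [CommRing V] [CommRing S] [Algebra V S]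

/-- A local parameter plus a multiple of the uniformizer. -/
theorem rgl_sub {π : V} {N : Ideal S} {z : S} (hz : Rgl π N z) (hπN : algebraMap V S π ∈ N)
    {r : ℕ} (hr : r ≠ 0) (w : S) : Rgl π N (z - algebraMap V S (π ^ r) * w) := by
  obtain ⟨h0, s, hs, h⟩ := hz
  obtain ⟨i, rfl⟩ := Nat.exists_eq_succ_of_ne_zero hr
  refine ⟨N.sub_mem h0 ?_, s, hs, fun x hx => ?_⟩
  · rw [map_pow, pow_succ, mul_assoc]
    exact N.mul_mem_left _ (N.mul_mem_right _ hπN)
  · obtain ⟨y, y', e⟩ := h x hx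
    refine ⟨y, algebraMap V S (π ^ i) * w * y + y', ?_⟩
    rw [e, map_pow, map_pow, pow_succ]
    ring

end rgl

variable {F : Type} [Field F] {K Ω : Type} [Field K] [CharZero K] [Field Ω] [Algebra K Ω]
  [Algebra F K] [Algebra F Ω] [IsScalarTower F K Ω] [IsAlgClosure K Ω] {L : Ld K Ω}
  {C : Crv F} {m : Mod C (Ok L) K} {M M' : IntermediateField K Ω}

omit [CharZero K] [IsAlgClosure K Ω] in
/-- The values of functions over `M` at a point, over `M'`. -/
theorem ptE_mpM (h : M ≤ M') (φ : C.A →ₐ[F] Ω) (s : OM L M ⊗[Ok L] m.R) :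
    ptE m M' φ ((m.mdM M').i (m.mpM h s)) = ptE m M φ ((m.mdM M).i s) := by
  induction s using TensorProduct.induction_on with
  | zero =>
    have e1 : m.mpM h (0 : OM L M ⊗[Ok L] m.R) = 0 := map_zero (m.mpM h)
    have e2 : (m.mdM M').i (0 : OM L M' ⊗[Ok L] m.R) = 0 := map_zero (m.mdM M').i
    have e3 : (m.mdM M).i (0 : OM L M ⊗[Ok L] m.R) = 0 := map_zero (m.mdM M).i
    rw [e1, e2, e3, map_zero, map_zero]
  | tmul c r =>
    have e : m.mpM h (c ⊗ₜ r) = omM L h c ⊗ₜ r := by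
      unfold Mod.mpM
      rw [mpS_tmul]
    rw [e, ptE_i, ptE_i, omM_coe]
  | add x y hx hy =>
    have e1 : m.mpM h (x + y) = m.mpM h x + m.mpM h y := map_add (m.mpM h) x y
    have e2 : (m.mdM M').i (m.mpM h x + m.mpM h y) = (m.mdM M').i (m.mpM h x) +
      (m.mdM M').i (m.mpM h y) := map_add (m.mdM M').i _ _
    have e3 : (m.mdM M).i (x + y) = (m.mdM M).i x + (m.mdM M).i y := map_add (m.mdM M).i x y
    rw [e1, e2, e3, map_add, map_add, hx, hy]

omit [CharZero K] [Algebra F Ω] [IsScalarTower F K Ω] [IsAlgClosure K Ω] in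
theorem mpM_mb (h : M ≤ M') (s : S₀ m) : m.mpM h (mb m M s) = mb m M' s := by
  rw [mb_def, mb_def]
  induction s using TensorProduct.induction_on with
  | zero => simp only [map_zero]
  | tmul c r =>
    unfold Mod.mpM
    rw [mpS_tmul, mpS_tmul, mpS_tmul]
    rfl
  | add x y hx hy => simp only [map_add, hx, hy]

omit [CharZero K] [IsAlgClosure K Ω] in
/-- The closed point under a point, over `M` and `M'`. -/
theorem ov_down [FiniteDimensional K M] [FiniteDimensional K M'] (h : M ≤ M')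
    {φ : C.A →ₐ[F] Ω} {N' : Ideal (OM L M' ⊗[Ok L] m.R)}
    (hov : (m.mdM M').Ov L.V (ptE m M' φ) N') {N : Ideal (OM L M ⊗[Ok L] m.R)}
    {ψ : C.A →ₐ[F] Ω} (hov' : (m.mdM M').Ov L.V (ptE m M' ψ) N')
    (hψ : (m.mdM M).Ov L.V (ptE m M ψ) N) : (m.mdM M).Ov L.V (ptE m M φ) N := by
  have h1 := (ov_iff m M').1 hov
  have h2 := (ov_iff m M').1 hov'
  have h3 := (ov_iff m M).1 hψ
  refine (ov_iff m M).2 ⟨h1.1, fun s => ?_⟩
  rw [h3.2 s, ← ptE_mpM h, ← ptE_mpM h, ← h2.2, h1.2]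

section zs

variable {n : ℕ} {b : S₀ m} {K₁ : IntermediateField K Ω} [FiniteDimensional K K₁]

variable (m b K₁) in
/-- The charts at the zeros of `b`. -/
structure Zs where
  /-- the number of zeros -/
  k : ℕ
  /-- the zeros -/
  N : Fin k → Ideal (OM L K₁ ⊗[Ok L] m.R)
  /-- the charts -/
  T : Fin k → Cht m K₁
  inj : Function.Injective N
  cs : ∀ j, Cs (OM L K₁) (N j)
  mem : ∀ j, mb m K₁ b ∈ N j
  rat : ∀ j s, ∃ c : OM L K₁, s - algebraMap (OM L K₁) _ c ∈ N j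
  rgl : ∀ j (π : OM L K₁), Irreducible π → Rgl π (N j) (mb m K₁ b)
  all : ∀ N', Cs (OM L K₁) N' → mb m K₁ b ∈ N' → ∃ j, N j = N'
  pt : ∀ j w, L.nm w < 1 → ∃ φ, (T j).P w = some φ ∧ (m.mdM K₁).Ov L.V (ptE m K₁ φ) (N j) ∧
    ptE m K₁ φ ((m.mdM K₁).i (mb m K₁ b)) = w

theorem exists_zs (H : Bb m n b) (hK : L.Ur ⊥ n ≤ K₁) (hU : Um L K₁) {π : K} (hπ : Uf L π) :
    Nonempty (Zs m b K₁) := by
  classical
  have hirr := uf_irr hπ hU
  have hU0 : Um L (⊥ : IntermediateField K Ω) := ⟨1, one_ne_zero, Ld.ur_le⟩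
  have hirr0 := uf_irr hπ hU0
  have hirr' : Irreducible (omM L (bot_le : (⊥ : IntermediateField K Ω) ≤ K₁)
    (ufM L π hπ.lt ⊥)) := hirr
  obtain ⟨d, hd, hud⟩ := H.ut
  have hb1 : (m.mdM K₁).Ut (mb m K₁ b) d := (m.mpM_ut bot_le b d).2 hud
  have hfin := (m.mdM K₁).cs_fin ((m.mdM K₁).Dk.ne_zero hb1.2)
  have hF : Fintype {N : Ideal (OM L K₁ ⊗[Ok L] m.R) // Cs (OM L K₁) N ∧ mb m K₁ b ∈ N} :=
    hfin.fintype
  obtain ⟨e⟩ : Nonempty (Fin (Fintype.card {N : Ideal (OM L K₁ ⊗[Ok L] m.R) //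
    Cs (OM L K₁) N ∧ mb m K₁ b ∈ N}) ≃ {N : Ideal (OM L K₁ ⊗[Ok L] m.R) //
    Cs (OM L K₁) N ∧ mb m K₁ b ∈ N}) := ⟨(Fintype.equivFin _).symm⟩
  have hrg : ∀ (N : Ideal (OM L K₁ ⊗[Ok L] m.R)), Cs (OM L K₁) N → mb m K₁ b ∈ N →
      ∀ π' : OM L K₁, Irreducible π' → Rgl π' N (mb m K₁ b) := by
    intro N hN hbN π' hπ'
    obtain ⟨h0, s, hs, h⟩ := H.rg hK hirr0 hirr' hN hbN
    obtain ⟨u, hu⟩ := IsDiscreteValuationRing.associated_of_irreducible _ hπ' hirr'
    refine ⟨h0, s, hs, fun x hx => ?_⟩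
    obtain ⟨y, y', e⟩ := h x hx
    exact ⟨y, algebraMap _ _ (u : OM L K₁) * y', by rw [e, ← hu, map_mul]; ring⟩
  have hT : ∀ j, ∃ T : Cht m K₁, ∀ w, L.nm w < 1 → ∃ φ, T.P w = some φ ∧
      (m.mdM K₁).Ov L.V (ptE m K₁ φ) (e j).1 ∧
        ptE m K₁ φ ((m.mdM K₁).i (mb m K₁ b)) = w := fun j =>
    chart_of m K₁ (e j).2.1 (H.rat hK (e j).2.1 (e j).2.2) hirr
      (hrg _ (e j).2.1 (e j).2.2 _ hirr)
  choose T hT using hT
  exact ⟨{
    k := _
    N := fun j => (e j).1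
    T := T
    inj := fun i j h => e.injective (Subtype.ext h)
    cs := fun j => (e j).2.1
    mem := fun j => (e j).2.2
    rat := fun j => H.rat hK (e j).2.1 (e j).2.2
    rgl := fun j => hrg _ (e j).2.1 (e j).2.2
    all := fun N' h1 h2 => ⟨e.symm ⟨N', h1, h2⟩, by rw [e.apply_symm_apply]⟩
    pt := hT }⟩

end zs

end CV
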