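import Pool.Agent.Lib.MP_f80667_ag.Ctf.D

/-!
# The divisor of an element congruent to `b`
-/

set_option autoImplicit false

open ZC BE PE Polynomial TensorProduct IntermediateField IsLocalRing

namespace CV

variable {F : Type} [Field F] {K Ω : Type} [Field K] [CharZero K] [Field Ω] [Algebra K Ω]
  [Algebra F K] [Algebra F Ω] [IsScalarTower F K Ω] [IsAlgClosure K Ω] {L : Ld K Ω}
  {C : Crv F} {m : Mod C (Ok L) K} {M : IntermediateField K Ω} {n : ℕ} {b : S₀ m}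
  {K₁ : IntermediateField K Ω} [FiniteDimensional K K₁] [FiniteDimensional K M]

omit [CharZero K] in
/-- The closed point over `M` above a zero of `b`. -/
theorem Zs.above (Z : Zs m b K₁) (hM : K₁ ≤ M) (j : Fin Z.k) :
    ∃ N' : Ideal (OM L M ⊗[Ok L] m.R), Cs (OM L M) N' ∧ mb m M b ∈ N' ∧
      ∀ φ : C.A →ₐ[F] Ω, (m.mdM M).Ov L.V (ptE m M φ) N' →
        (m.mdM K₁).Ov L.V (ptE m K₁ φ) (Z.N j) := by
  have := algClM (K := K) (Ω := Ω) M
  have : Algebra.IsAlgebraic M Ω := IsAlgClosure.isAlgebraic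
  obtain ⟨φ, -, hov, hv⟩ := Z.pt j 0 (by rw [L.zero]; exact zero_lt_one)
  obtain ⟨N', hN', hov'⟩ := (m.mdM M).ig_ov (wvM L M) ((ig_iff m M φ).2 ((ov_iff m K₁).1 hov).1)
  refine ⟨N', hN', ?_, fun ψ hψ => ov_down hM hψ hov' hov⟩
  rw [((ov_iff m M).1 hov').2, ← mpM_mb hM, ptE_mpM hM, hv, L.zero]
  exact zero_lt_one

/-- The points above a zero of `b`. -/
theorem Zs.pt' (Z : Zs m b K₁) (hirr : ∃ π : OM L K₁, Irreducible π) {j : Fin Z.k}
    {φ : C.A →ₐ[F] Ω} (h : (m.mdM K₁).Ov L.V (ptE m K₁ φ) (Z.N j)) :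
    L.nm (ptE m K₁ φ ((m.mdM K₁).i (mb m K₁ b))) < 1 ∧
      (Z.T j).P (ptE m K₁ φ ((m.mdM K₁).i (mb m K₁ b))) = some φ := by
  obtain ⟨π, hπ⟩ := hirr
  have h1 := (((ov_iff m K₁).1 h).2 _).1 (Z.mem j)
  obtain ⟨ψ, e, hov, hv⟩ := Z.pt j _ h1
  refine ⟨h1, ?_⟩
  rw [e]
  exact congrArg some (disc_inj m K₁ (Z.cs j) (Z.rat j) hπ (Z.rgl j π hπ) hov h hv)

/-- **The divisor of an element congruent to `b`.** -/
theorem Zs.zt (H : Bb m n b) (Z : Zs m b K₁) (hK : L.Ur ⊥ n ≤ K₁) (hU₁ : Um L K₁) {π : K}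
    (hπ : Uf L π) (hM : K₁ ≤ M) (hU : Um L M) {r : ℕ} (hr : r ≠ 0)
    (w : OM L M ⊗[Ok L] m.R) :
    ∃ x : Fin Z.k → Ω, (∀ j, x j ∈ M ∧ L.nm (x j) ≤ L.nm (algebraMap K Ω π) ^ r ∧
      (w = 0 → x j = 0)) ∧
      (m.mdM M).Zt L.V (cptS (isoE m M)) (Md.Vb (OM L M) (mb m M b))
        (mb m M b - algebraMap (OM L M) _ (ufM L π hπ.lt M ^ r) * w) =
      ∑ j, Finsupp.single ((Z.T j).P (x j)) 1 := by
  classical
  have hcl := algClM (K := K) (Ω := Ω) M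
  have halg : Algebra.IsAlgebraic M Ω := IsAlgClosure.isAlgebraic
  have hded : IsDedekindDomain (ResidueField (OM L M) ⊗[Ok L] m.R) := ded_mdM m M
  have hirr := uf_irr hπ hU
  have hirr1 := uf_irr hπ hU₁
  have hU0 : Um L (⊥ : IntermediateField K Ω) := ⟨1, one_ne_zero, Ld.ur_le⟩
  have hirr0 := uf_irr hπ hU0
  obtain ⟨π', hπ'⟩ : ∃ π', π' = ufM L π hπ.lt M := ⟨_, rfl⟩
  have hπΩ : ((π' : M) : Ω) = algebraMap K Ω π := by rw [hπ']; rfl
  rw [← hπ'] at hirr ⊢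
  have hirrm : Irreducible (omM L (bot_le : (⊥ : IntermediateField K Ω) ≤ M)
    (ufM L π hπ.lt ⊥)) := by
    have e : omM L (bot_le : (⊥ : IntermediateField K Ω) ≤ M) (ufM L π hπ.lt ⊥) = π' := by
      rw [hπ']
      rfl
    rw [e]
    exact hirr
  have hπm : π' ∈ maximalIdeal (OM L M) := (mem_maximalIdeal _).2 hirr.not_isUnit
  obtain ⟨g, hg⟩ : ∃ g, g = mb m M b - algebraMap (OM L M) _ (π' ^ r) * w := ⟨_, rfl⟩
  rw [← hg]
  have hπr : L.nm (algebraMap K Ω π) ^ r < 1 := pow_lt_one₀ (L.nonneg _) hπ.lt hr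
  -- values
  have hval : ∀ φ : C.A →ₐ[F] Ω, ptE m M φ ((m.mdM M).i g) =
      ptE m M φ ((m.mdM M).i (mb m M b)) -
        algebraMap K Ω π ^ r * ptE m M φ ((m.mdM M).i w) := by
    intro φ
    have e1 : (m.mdM M).i g = (m.mdM M).i (mb m M b) -
        (m.mdM M).i (algebraMap (OM L M) _ (π' ^ r)) * (m.mdM M).i w := by
      rw [hg]
      exact (map_sub (m.mdM M).i _ _).trans (congrArg _ (map_mul (m.mdM M).i _ _))
    have e2 : (((π' ^ r : OM L M) : M) : Ω) = algebraMap K Ω π ^ r := by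
      rw [← hπΩ]
      rfl
    rw [e1, map_sub, map_mul, ptE_cst, e2]
  -- the closed points
  have hab := Z.above hM
  choose N' hN' hbN' hdown using hab
  have hrat := fun j => H.rat (hK.trans hM) (hN' j) (hbN' j)
  have hrg : ∀ j, Rgl π' (N' j) (mb m M b) := by
    intro j
    have h1 := H.rg (hK.trans hM) hirr0 hirrm (hN' j) (hbN' j)
    have e : omM L (bot_le : (⊥ : IntermediateField K Ω) ≤ M) (ufM L π hπ.lt ⊥) = π' := by
      rw [hπ']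
      rfl
    rwa [e] at h1
  have hz : ∀ j, Rgl π' (N' j) g := by
    intro j
    rw [hg]
    exact rgl_sub (hrg j) ((hN' j).2 _ hπm) hr w
  -- the zeros
  have hd := fun j => exists_disc m M (hN' j) (hrat j) hirr (hz j) (w := 0)
    (by rw [L.zero]; exact zero_lt_one)
  choose ψ hov h0 using hd
  have hT := fun j => Z.pt' ⟨_, hirr1⟩ (hdown j (ψ j) (hov j))
  have hvb : ∀ φ : C.A →ₐ[F] Ω, ptE m K₁ φ ((m.mdM K₁).i (mb m K₁ b)) =
      ptE m M φ ((m.mdM M).i (mb m M b)) := fun φ => by rw [← mpM_mb hM, ptE_mpM hM]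
  have hx : ∀ j, ptE m M (ψ j) ((m.mdM M).i (mb m M b)) =
      algebraMap K Ω π ^ r * ptE m M (ψ j) ((m.mdM M).i w) := by
    intro j
    have h1 := h0 j
    rw [hval] at h1
    exact sub_eq_zero.1 h1
  simp only [hvb] at hT
  have hint : ∀ j, L.nm (ptE m M (ψ j) ((m.mdM M).i w)) ≤ 1 := fun j =>
    (int_iff m M (ψ j)).2 ((ov_iff m M).1 (hov j)).1 w
  have hfp : ∀ j, Fp C.V M (some (ψ j) : C.V.pt Ω) := by
    intro j γ hγ
    rw [act_pt]
    refine congrArg some (disc_inj m M (hN' j) (hrat j) hirr (hz j) (ov_act m M (hov j) hγ)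
      (hov j) ?_)
    rw [ptE_act m M hγ, h0, map_zero]
  refine ⟨fun j => ptE m M (ψ j) ((m.mdM M).i (mb m M b)), fun j => ⟨?_, ?_, ?_⟩, ?_⟩
  · obtain ⟨T', hT'⟩ := cht_up (Z.T j) hM
    refine (cht_fp T' (hT j).1).1 ?_
    rw [hT', (hT j).2]
    exact hfp j
  · change L.nm (ptE m M (ψ j) ((m.mdM M).i (mb m M b))) ≤ _
    rw [hx j, L.mul, L.pow]
    exact mul_le_of_le_one_right (pow_nonneg (L.nonneg _) r) (hint j)
  · intro hw
    change ptE m M (ψ j) ((m.mdM M).i (mb m M b)) = 0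
    have e3 : (m.mdM M).i (0 : OM L M ⊗[Ok L] m.R) = 0 := map_zero (m.mdM M).i
    rw [hx j, hw, e3, map_zero, mul_zero]
  -- the divisor
  obtain ⟨d, hd, hud⟩ := H.ut
  have hbM : (m.mdM M).Ut (mb m M b) d := (m.mpM_ut bot_le b d).2 hud
  have hqg : (m.mdM M).q g ≠ 0 := by
    rw [hg, (m.mdM M).sm1_q hirr hr]
    exact (m.mdM M).Dk.ne_zero hbM.2
  have hg0 : g ≠ 0 := fun h => hqg (by
    rw [h]
    exact map_zero (m.mdM M).q)
  have hinj : Function.Injective fun j => ptE m M (ψ j) := by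
    intro i j hij
    have h1 : ψ i = ψ j := (ptE_bij m M).1 hij
    refine Z.inj (Ideal.ext fun s => ?_)
    have hi := hdown i (ψ i) (hov i)
    have hj := hdown j (ψ j) (hov j)
    rw [h1] at hi
    rw [((ov_iff m K₁).1 hi).2, ((ov_iff m K₁).1 hj).2]
  rw [(m.mdM M).zt_sum hirr (fun N hN => hN.1) (fun N hN => (m.mdM M).exists_rgl hirr hN.1) hg0
    (Finset.univ.image fun j => ptE m M (ψ j)) ?_ ?_, Finset.sum_image fun i _ j _ h => hinj h]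
  · refine Finset.sum_congr rfl fun j _ => ?_
    rw [(Md.sm3_od (M := m.mdM M) hirr (hN' j) (hz j) (hov j)).1 (h0 j), cptS_ptE, (hT j).2,
      Nat.cast_one]
  · intro φ hφ
    obtain ⟨j, -, rfl⟩ := Finset.mem_image.1 hφ
    exact ⟨N' j, ⟨hN' j, hbN' j⟩, hov j⟩
  · rintro φ ⟨N, ⟨hN, hbN⟩, hφ⟩ hφ0
    obtain ⟨χ, rfl⟩ := (ptE_bij m M).2 φ
    have h1 := (ov_iff m M).1 hφ
    have := algClM (K := K) (Ω := Ω) K₁
    have : Algebra.IsAlgebraic K₁ Ω := IsAlgClosure.isAlgebraic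
    obtain ⟨N₁, hN₁, hχ⟩ := (m.mdM K₁).ig_ov (wvM L K₁) ((ig_iff m K₁ χ).2 h1.1)
    obtain ⟨j, rfl⟩ := Z.all N₁ hN₁ (by
      rw [((ov_iff m K₁).1 hχ).2, hvb]
      exact (h1.2 _).1 hbN)
    obtain ⟨h2, h3⟩ := Z.pt' ⟨_, hirr1⟩ hχ
    have h4 := hT j
    have hlt : L.nm (ptE m M (ψ j) ((m.mdM M).i (mb m M b)) -
        ptE m K₁ χ ((m.mdM K₁).i (mb m K₁ b))) < 1 :=
      (L.sub _ _).trans_lt (max_lt h4.1 h2)
    have h5 := ((Z.T j).near _ _ h4.1 h2 _ (L.nonneg _) hlt.le).2 le_rfl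
    rw [h3, h4.2] at h5
    have h6 : (m.mdM M).Ov L.V (ptE m M χ) (N' j) := by
      refine cmp_ov (cmp_mdM m M) (hov j) hlt ?_
      rw [pe_ptE, pe_ptE]
      exact h5
    have h7 : ψ j = χ := disc_inj m M (hN' j) (hrat j) hirr (hz j) (hov j) h6 (by
      rw [h0 j]
      exact hφ0.symm)
    exact Finset.mem_image.2 ⟨j, Finset.mem_univ _, by rw [h7]⟩

end CV
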