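import Pool.Agent.Lib.MP_f80667_ag.Ctf.FD
import Pool.Agent.Lib.MP_f80667_ag.Ctf.E
import Pool.Agent.Lib.MP_f80667_ag.Cv.EtM
import Pool.Agent.Lib.MP_f80667_ag.Ct.IA

/-!
# Finitely many charts generate the displacements

* `blk_M`: the fixed element `b` over `M`. `Zs.bd`: the blocks of `b` are sums of displacements in the charts of `Zs`.
* `Zs.gen`: a displacement of level `r` is the sum of displacements in the charts of `Zs` up to level `2 r`.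
* `exists_fg`: the structure `Fg`.
-/

set_option autoImplicit false

open ZC BE PE Polynomial TensorProduct IntermediateField IsLocalRing

namespace CV

variable {F : Type} [Field F] {K Ω : Type} [Field K] [CharZero K] [Field Ω] [Algebra K Ω]
  [Algebra F K] [Algebra F Ω] [IsScalarTower F K Ω] [IsAlgClosure K Ω] {L : Ld K Ω}
  {C : Crv F} {m : Mod C (Ok L) K} {M : IntermediateField K Ω} {n : ℕ} {b : S₀ m}
  {K₁ : IntermediateField K Ω}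

/-- A point over `M` is fixed. -/
theorem fix_cpt {SM : Type} [CommRing SM] [Algebra M SM] (e : SM ≃ₐ[M] M ⊗[F] C.A)
    (χ : SM →ₐ[M] Ω) (h : Fp C.V M (cptS e χ)) (γ : M.fixingSubgroup) : Md.ag γ χ = χ := by
  refine cptS_inj e ?_
  rw [cptS_ag]
  exact h _ γ.2

/-- The fixed element over `M`. -/
theorem blk_M (H : Bb m n b) {π : K} (hπ : Uf L π) [FiniteDimensional K M] (hU : Um L M) :
    (m.mdM M).Blk L.V (cptS (isoE m M)) (Pc C Ω) (ufM L π hπ.lt M) (mb m M b) := by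
  obtain ⟨d, hd, hud⟩ := H.ut
  have hbM : (m.mdM M).Ut (mb m M b) d := (m.mpM_ut bot_le b d).2 hud
  exact ⟨acOM L M, wvM L M, uf_irr hπ hU, fun N hN => (m.mdM M).exists_rgl (uf_irr hπ hU) hN,
    rt_pc (isoE m M) (m.mdM M), (m.mdM M).cs_fin ((m.mdM M).Dk.ne_zero hbM.2), m.N, d,
    fun k hk => m.mdM_ut M k hk, hd, hbM⟩

section zs

variable [FiniteDimensional K K₁] [FiniteDimensional K M]

/-- The blocks of `b`. -/
theorem Zs.bd (H : Bb m n b) (Z : Zs m b K₁) (hK : L.Ur ⊥ n ≤ K₁) (hU₁ : Um L K₁) {π : K}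
    (hπ : Uf L π) (hM : K₁ ≤ M) (hU : Um L M) {r : ℕ} (hr : r ≠ 0)
    (w : OM L M ⊗[Ok L] m.R) :
    ∃ x : Fin Z.k → Ω, (∀ j, x j ∈ M ∧ L.nm (x j) ≤ L.nm (algebraMap K Ω π) ^ r) ∧
      (m.mdM M).Bd L.V (cptS (isoE m M)) (ufM L π hπ.lt M) (mb m M b) r w =
      -∑ j, dsc (Z.T j) (x j) := by
  obtain ⟨x, hx, h1⟩ := Z.zt H hK hU₁ hπ hM hU hr w
  obtain ⟨x', hx', h2⟩ := Z.zt H hK hU₁ hπ hM hU hr (0 : OM L M ⊗[Ok L] m.R)
  refine ⟨x, fun j => ⟨(hx j).1, (hx j).2.1⟩, ?_⟩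
  have e0 : x' = fun _ => 0 := funext fun j => (hx' j).2.2 rfl
  rw [mul_zero, sub_zero, e0] at h2
  rw [Md.Bd, h1, h2, ← Finset.sum_sub_distrib, ← Finset.sum_neg_distrib]
  refine Finset.sum_congr rfl fun j _ => ?_
  rw [dsc, neg_sub]

/-- **The charts of `Zs` generate the displacements.** -/
theorem Zs.gen (H : Bb m n b) (Z : Zs m b K₁) (hK : L.Ur ⊥ n ≤ K₁) (hU₁ : Um L K₁) {π : K}
    (hπ : Uf L π) (hM : K₁ ≤ M) (hU : Um L M) {r : ℕ} (hr : r ≠ 0) (T : Cht m M) {x : Ω}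
    (hx : x ∈ M) (hxr : L.nm x ≤ L.nm (algebraMap K Ω π) ^ r) :
    ∃ y : Fin Z.k → Ω, (∀ j, y j ∈ M ∧ L.nm (y j) ≤ L.nm (algebraMap K Ω π) ^ r) ∧
      dsc T x - ∑ j, dsc (Z.T j) (y j) ∈ Pc C Ω ⊔
        Dsp L C.V (Nr m (L.nm (algebraMap K Ω π) ^ r * L.nm (algebraMap K Ω π) ^ r)) M := by
  have hc0 := L.nonneg (algebraMap K Ω π)
  have hc : L.nm (algebraMap K Ω π) ^ r < 1 := pow_lt_one₀ hc0 hπ.lt hr
  have hxlt := hxr.trans_lt hc
  have hz : L.nm (0 : Ω) < 1 := nm_zero_lt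
  have hB := blk_M H hπ hU
  -- the two points
  have hn : Nr m (L.nm (algebraMap K Ω π) ^ r) (T.P x) (T.P 0) :=
    (T.near x 0 hxlt hz _ (pow_nonneg hc0 r) hc.le).2 (by rwa [sub_zero])
  have hy : Fp C.V M (T.P x) := (cht_fp T hxlt).2 hx
  have hy' : Fp C.V M (T.P 0) := (cht_fp T hz).2 (zero_mem M)
  obtain ⟨φ, ψ, e₁, e₂, -⟩ := id hn
  rw [e₁, e₂] at hn
  obtain ⟨h1, h2, h3⟩ := (nr_iff m M (pow_nonneg hc0 r)).1 hn
  rw [e₁, ← cptS_ptE m M φ] at hy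
  rw [e₂, ← cptS_ptE m M ψ] at hy'
  obtain ⟨s, hs⟩ := (m.mdM M).exists_sec h1 (fix_cpt _ _ hy)
  obtain ⟨s', hs'⟩ := (m.mdM M).exists_sec h2 (fix_cpt _ _ hy')
  have hπM : (((ufM L π hπ.lt M ^ r : OM L M) : M) : Ω) = algebraMap K Ω π ^ r := rfl
  have hdv : ∀ y, ufM L π hπ.lt M ^ r ∣ s y - s' y := by
    intro y
    rw [dvd_iff_nm, hπM, L.pow]
    have h4 := h3 y
    rw [hs, hs'] at h4
    exact h4
  have hG := hB.sec hr hs hs' hdv
  rw [cptS_ptE, cptS_ptE] at hG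
  obtain ⟨w, hw⟩ := (hB.mem_Gk hr).1 hG
  obtain ⟨y, hy1, hy2⟩ := Z.bd H hK hU₁ hπ hM hU hr w
  rw [hy2, ← e₁, ← e₂] at hw
  refine ⟨fun j => -y j, fun j => ⟨neg_mem (hy1 j).1, by rw [L.neg]; exact (hy1 j).2⟩, ?_⟩
  have h6 : ∀ j, -dsc (Z.T j) (y j) - dsc (Z.T j) (-y j) ∈ Pc C Ω ⊔
      Dsp L C.V (Nr m (L.nm (algebraMap K Ω π) ^ r * L.nm (algebraMap K Ω π) ^ r)) M := by
    intro j
    obtain ⟨T', hT'⟩ := cht_up (Z.T j) hM
    have h7 := cl_add (exCl m) T' (hy1 j).1 (neg_mem (hy1 j).1) (hy1 j).2 hc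
      (by rw [L.neg]; exact (hy1 j).2) hc
    rw [add_neg_cancel] at h7
    have e3 : dsc T' (0 : Ω) = 0 := by rw [dsc, sub_self]
    have e4 : ∀ z, dsc T' z = dsc (Z.T j) z := fun z => by rw [dsc, dsc, hT']
    rwa [e3, e4, e4, zero_sub] at h7
  have h8 := AddSubgroup.add_mem _ (AddSubgroup.mem_sup_left hw) (sum_mem (t := Finset.univ) fun j _ => h6 j)
  rw [Finset.sum_sub_distrib, Finset.sum_neg_distrib, sub_neg_eq_add] at h8
  have e5 : dsc T x - ∑ j, dsc (Z.T j) (-y j) = Finsupp.single (T.P x) 1 -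
      Finsupp.single (T.P 0) 1 + ∑ j, dsc (Z.T j) (y j) +
      (-∑ j, dsc (Z.T j) (y j) - ∑ j, dsc (Z.T j) (-y j)) := by
    rw [dsc]
    abel
  rw [e5]
  exact h8

end zs

/-- A chart over a larger field. -/
theorem dsc_up (T : Cht m K₁) (h : K₁ ≤ M) : ∃ T' : Cht m M, ∀ z, dsc T' z = dsc T z := by
  obtain ⟨T', hT'⟩ := cht_up T h
  exact ⟨T', fun z => by rw [dsc, dsc, hT']⟩

/-- Norms of small elements. -/
theorem nm_small (h : K₁ ≤ M) [FiniteDimensional K M] {x : Ω} {ρ : ℝ} (h0 : 0 ≤ ρ)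
    (hx : L.nm x ≤ ρ) : L.nm (Nm K₁ M x) ≤ ρ := by
  obtain ⟨s, -, -, -, h3⟩ := nm_rep (K := K) (Ω := Ω) h
  rw [h3]
  refine Finset.sum_induction _ (fun z => L.nm z ≤ ρ) (fun a b ha hb => (L.add a b).trans
    (max_le ha hb)) (by rw [L.zero]; exact h0) fun γ _ => ?_
  exact (L.act γ x).le.trans hx

/-- The charts of `Zs` as an `Fg`. -/
noncomputable def Zs.fg [FiniteDimensional K K₁] (H : Bb m n b) (Z : Zs m b K₁)
    (hK : L.Ur ⊥ n ≤ K₁) (hU₁ : Um L K₁) {π : K} (hπ : Uf L π) {e : ℕ}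
    (he : L.nm (L.p : Ω) = L.nm (algebraMap K Ω π) ^ e) : Fg (lpE m π hπ e he) K₁ Z.k where
  α M j x := dsc (Z.T j) ((show Om L M from x) : Ω)
  ch := by
    intro M hM j
    obtain ⟨T', hT'⟩ := dsc_up (Z.T j) hM.1
    exact ⟨T', funext fun x => hT' _⟩
  pw := fun _ _ _ _ => rfl
  gen := by
    rintro M r _ x hM hr ⟨T, rfl⟩ hx
    have hU : Um L M := hU₁.up hM
    have := Um.fd hU
    have hc0 := L.nonneg (algebraMap K Ω π)
    have hc1 : L.nm (algebraMap K Ω π) ^ r < 1 := pow_lt_one₀ hc0 hπ.lt hr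
    have hx' : L.nm ((show Om L M from x) : Ω) ≤ L.nm (algebraMap K Ω π) ^ r :=
      (twL_dvd hπ x r).1 hx
    obtain ⟨y, hy, hy2⟩ := Z.gen H hK hU₁ hπ hM.1 hU hr T (show Om L M from x).2.1 hx'
    refine ⟨fun j => (⟨y j, mem_Om.2 ⟨(hy j).1, ((hy j).2.trans_lt hc1).le⟩⟩ : Om L M),
      fun j => (twL_dvd hπ _ r).2 (hy j).2, ?_⟩
    refine AddSubgroup.mem_sup_left ?_
    change dsc T (show Om L M from x).1 - ∑ j, dsc (Z.T j) (y j) ∈ Dl m π M (r + 1)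
    refine dl_of ((dsc_fx T (hx'.trans_lt hc1) (show Om L M from x).2.1).sub
      (Fx.sum Finset.univ fun j _ => ?_)) ?_ ?_
    · obtain ⟨T', hT'⟩ := dsc_up (Z.T j) hM.1
      rw [← hT']
      exact dsc_fx T' ((hy j).2.trans_lt hc1) (hy j).1
    · rw [map_sub, map_sum, dsc_deg, Finset.sum_eq_zero fun j _ => dsc_deg _ _, sub_zero]
    · refine sup_le_sup_left (dsp_mono fun _ _ => nr_mono ?_) _ hy2
      rw [← pow_two]
      exact pow_sq_le hc0 hπ.lt.le hr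
  nm := by
    intro M r x hM j hr hx
    have hU : Um L M := hU₁.up hM
    have := Um.fd hU
    have hc0 := L.nonneg (algebraMap K Ω π)
    have hc1 : L.nm (algebraMap K Ω π) ^ r < 1 := pow_lt_one₀ hc0 hπ.lt hr
    have hx' : L.nm ((show Om L M from x) : Ω) ≤ L.nm (algebraMap K Ω π) ^ r :=
      (twL_dvd hπ x r).1 hx
    have hxM : ((show Om L M from x) : Ω) ∈ M := (show Om L M from x).2.1
    have hn1 : Nm K₁ M ((show Om L M from x) : Ω) ∈ K₁ :=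
      fx_mem.1 (nm_fx hM.1 (fx_mem.2 hxM))
    have hn2 := nm_small (L := L) hM.1 (pow_nonneg hc0 r) hx'
    refine ⟨(⟨_, mem_Om.2 ⟨hn1, (hn2.trans_lt hc1).le⟩⟩ : Om L K₁), (twL_dvd hπ _ r).2 hn2, ?_⟩
    refine AddSubgroup.mem_sup_left ?_
    change Nm K₁ M (dsc (Z.T j) (show Om L M from x).1) -
      dsc (Z.T j) (Nm K₁ M ((show Om L M from x) : Ω)) ∈ Dl m π K₁ (r + 1)
    rw [← neg_sub]
    refine (Dl m π K₁ (r + 1)).neg_mem ?_
    obtain ⟨T', hT'⟩ := dsc_up (Z.T j) hM.1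
    have hf : Fx M (dsc (Z.T j) (show Om L M from x).1) := by
      rw [← hT']
      exact dsc_fx T' (hx'.trans_lt hc1) hxM
    refine dl_of ((dsc_fx _ (hn2.trans_lt hc1) hn1).sub (nm_fx hM.1 hf)) ?_ ?_
    · rw [map_sub, dsc_deg, nm_deg hM.1 (dsc_deg _ _), sub_zero]
    · have h4 := cl_nm (exCl m) hM.1 (Z.T j) hxM (pow_nonneg hc0 r) hc1 hx'
      exact sup_le_sup_left (dsp_mono fun _ _ => nr_mono (pow_sq_le hc0 hπ.lt.le hr)) _ h4

/-- The structure `Fg` of a curve with a model. -/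
theorem exists_fg (m : Mod C (Ok L) K) {π : K} (hπ : Uf L π) {e : ℕ}
    (he : L.nm (L.p : Ω) = L.nm (algebraMap K Ω π) ^ e) : ∃ n : ℕ, n ≠ 0 ∧
      ∀ K₁ : IntermediateField K Ω, L.Ur ⊥ n ≤ K₁ → Um L K₁ →
        ∃ k, Nonempty (Fg (lpE m π hπ e he) K₁ k) := by
  obtain ⟨n, b, H⟩ := exists_bb (m := m)
  refine ⟨n, H.n0, fun K₁ hK hU => ?_⟩
  have := Um.fd hU
  obtain ⟨Z⟩ := exists_zs H hK hU hπ
  exact ⟨Z.k, ⟨Z.fg H hK hU hπ he⟩⟩

end CV
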