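import Pool.Agent.Lib.MP_f80667_ag.Ct.I
import Pool.Agent.Lib.MP_f80667_ag.Ctf.A
import Pool.Agent.Lib.MP_f80667_ag.Cv.LocN

/-!
# The levels of a curve with all properties

`lpE m`: `lp` with the proved properties of the curve.
-/

set_option autoImplicit false

open ZC BE PE Polynomial TensorProduct IntermediateField

namespace CV

variable {F : Type} [Field F] {K Ω : Type} [Field K] [CharZero K] [Field Ω] [Algebra K Ω]
  [Algebra F K] [Algebra F Ω] [IsScalarTower F K Ω] [IsAlgClosure K Ω] {L : Ld K Ω}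
  {C : Crv F}

/-- The levels of a curve. -/
noncomputable def lpE (m : Mod C (Ok L) K) (π : K) (hπ : Uf L π) (e : ℕ)
    (he : L.nm (L.p : Ω) = L.nm (algebraMap K Ω π) ^ e) : Lp (twL L π hπ) L.p e (C.V.pt Ω →₀ ℤ) :=
  lp m π hπ e he (fun _ hl => exDv m hl) (exNm m) (exCh m) (exCl m)

end CV
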