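import Pool.Agent.Lib.MP_f80667_ag.Ctf.A

/-!
# Symbols with several entries

`Sm K Ω A G`: the symbols `{a}_M`, `a i` in `A i`, additive in every entry, with the projection formula in every entry.
`S.T`: the group generated by the symbols.
-/

set_option autoImplicit false

open PE Finset Polynomial Function

namespace CV

/-- Symbols with several entries. -/
structure Sm (K Ω : Type) [Field K] [Field Ω] [Algebra K Ω] {ι : Type} [DecidableEq ι]
    (A : ι → Type) (G : Type) [∀ i, AddCommGroup (A i)] [AddCommGroup G]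
    [∀ i, DistribMulAction (Ω ≃ₐ[K] Ω) (A i)] where
  /-- the symbol `{a}_M` -/
  sy : IntermediateField K Ω → (∀ i, A i) → G
  add : ∀ (M : IntermediateField K Ω) [FiniteDimensional K M] (a : ∀ i, A i) (i : ι) (x y : A i),
    (∀ k, Fx M (a k)) → Fx M x → Fx M y →
    sy M (update a i (x + y)) = sy M (update a i x) + sy M (update a i y)
  nm : ∀ (M N : IntermediateField K Ω) [FiniteDimensional K N] (a : ∀ i, A i) (i : ι) (x : A i),
    M ≤ N → (∀ k, Fx M (a k)) → Fx N x → sy N (update a i x) = sy M (update a i (Nm M N x))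

variable {K Ω : Type} [Field K] [CharZero K] [Field Ω] [Algebra K Ω] [IsAlgClosure K Ω]
  {ι : Type} [DecidableEq ι] {A : ι → Type} {G : Type} [∀ i, AddCommGroup (A i)] [AddCommGroup G]
  [∀ i, DistribMulAction (Ω ≃ₐ[K] Ω) (A i)]

theorem fx_ud {M : IntermediateField K Ω} {a : ∀ i, A i} (h : ∀ k, Fx M (a k)) {i : ι} {x : A i}
    (hx : Fx M x) (k : ι) : Fx M (update a i x k) := by
  rcases eq_or_ne k i with rfl | hk
  · rwa [update_self]
  · rw [update_of_ne hk]
    exact h k

namespace Sm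

variable (S : Sm K Ω A G)

/-- The group generated by the symbols. -/
def T : AddSubgroup G :=
  AddSubgroup.closure {g | ∃ (M : IntermediateField K Ω) (a : ∀ i, A i), FiniteDimensional K M ∧
    (∀ i, Fx M (a i)) ∧ g = S.sy M a}

variable {S} {M : IntermediateField K Ω} [FiniteDimensional K M] {a : ∀ i, A i} {i : ι}

theorem memT (ha : ∀ k, Fx M (a k)) : S.sy M a ∈ S.T :=
  AddSubgroup.subset_closure ⟨M, a, inferInstance, ha, rfl⟩

theorem memT' (ha : ∀ k, Fx M (a k)) {x : A i} (hx : Fx M x) : S.sy M (update a i x) ∈ S.T :=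
  memT (fx_ud ha hx)

theorem zero (ha : ∀ k, Fx M (a k)) : S.sy M (update a i 0) = 0 := by
  have h1 := S.add M a i 0 0 ha Fx.zero Fx.zero
  rw [add_zero] at h1
  exact left_eq_add.1 h1

theorem neg (ha : ∀ k, Fx M (a k)) {x : A i} (hx : Fx M x) :
    S.sy M (update a i (-x)) = -S.sy M (update a i x) := by
  have h1 := S.add M a i x (-x) ha hx hx.neg
  rw [add_neg_cancel, zero ha] at h1
  exact (neg_eq_of_add_eq_zero_right h1.symm).symm

theorem sub (ha : ∀ k, Fx M (a k)) {x y : A i} (hx : Fx M x) (hy : Fx M y) :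
    S.sy M (update a i (x - y)) = S.sy M (update a i x) - S.sy M (update a i y) := by
  rw [sub_eq_add_neg, S.add M a i x (-y) ha hx hy.neg, neg ha hy, ← sub_eq_add_neg]

theorem smul (ha : ∀ k, Fx M (a k)) {x : A i} (hx : Fx M x) (n : ℕ) :
    S.sy M (update a i (n • x)) = n • S.sy M (update a i x) := by
  induction n with
  | zero => rw [zero_nsmul, zero_nsmul, zero ha]
  | succ n ih => rw [succ_nsmul, S.add M a i _ _ ha (hx.nsmul n) hx, ih, succ_nsmul]

/-- The sum in one entry. -/
theorem sum (ha : ∀ k, Fx M (a k)) {κ : Type} (s : Finset κ) (x : κ → A i)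
    (hx : ∀ j, Fx M (x j)) : Fx M (∑ j ∈ s, x j) ∧
      S.sy M (update a i (∑ j ∈ s, x j)) = ∑ j ∈ s, S.sy M (update a i (x j)) := by
  classical
  induction s using Finset.induction_on with
  | empty => exact ⟨Fx.zero, by rw [Finset.sum_empty, Finset.sum_empty, zero ha]⟩
  | insert j s hj ih =>
    rw [Finset.sum_insert hj, Finset.sum_insert hj]
    exact ⟨(hx j).add ih.1, by rw [S.add M a i _ _ ha (hx j) ih.1, ih.2]⟩

/-- If the entry `i` is in the closure of elements whose symbols are in `V`, the symbol is. -/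
theorem closure (ha : ∀ k, Fx M (a k)) {V : AddSubgroup G} {s : Set (A i)}
    (hs : ∀ x ∈ s, Fx M x ∧ S.sy M (update a i x) ∈ V) {x : A i}
    (hx : x ∈ AddSubgroup.closure s) : Fx M x ∧ S.sy M (update a i x) ∈ V := by
  induction hx using AddSubgroup.closure_induction with
  | mem a h => exact hs a h
  | zero => exact ⟨Fx.zero, by rw [zero ha]; exact V.zero_mem⟩
  | add x y _ _ h h' =>
    exact ⟨h.1.add h'.1, by rw [S.add M a i x y ha h.1 h'.1]; exact V.add_mem h.2 h'.2⟩
  | neg x _ h => exact ⟨h.1.neg, by rw [neg ha h.1]; exact V.neg_mem h.2⟩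

/-- The same modulo elements whose symbols are `0`. -/
theorem sup (ha : ∀ k, Fx M (a k)) {V : AddSubgroup G} {s : Set (A i)} {H : AddSubgroup (A i)}
    (hs : ∀ x ∈ s, Fx M x ∧ S.sy M (update a i x) ∈ V)
    (hH : ∀ x ∈ H, Fx M x ∧ S.sy M (update a i x) = 0) {x : A i}
    (hx : x ∈ AddSubgroup.closure s ⊔ H) : Fx M x ∧ S.sy M (update a i x) ∈ V := by
  obtain ⟨x₁, h₁, x₂, h₂, rfl⟩ := AddSubgroup.mem_sup.1 hx
  have h3 := closure ha hs h₁
  have h4 := hH x₂ h₂
  refine ⟨h3.1.add h4.1, ?_⟩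
  rw [S.add M a i x₁ x₂ ha h3.1 h4.1, h4.2, add_zero]
  exact h3.2

end Sm

end CV
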