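import Pool.Agent.Lib.MP_f80667_ag.Ctf.SA

/-!
# The filtration by the sum of the levels

`Fr X S n s`: the group generated by `p ^ n T` and the symbols of displacements with the sum of the levels at least `s`.
`NulS X S`: symbols with a null entry are `0`.
-/

set_option autoImplicit false

open PE Finset Polynomial Function

namespace CV

variable {K Ω : Type} [Field K] [CharZero K] [Field Ω] [Algebra K Ω] [IsAlgClosure K Ω]
  {ι : Type} [DecidableEq ι] {A : ι → Type} {G : Type} [∀ i, AddCommGroup (A i)] [AddCommGroup G]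
  [∀ i, DistribMulAction (Ω ≃ₐ[K] Ω) (A i)] {W : Tw K Ω} {p e : ℕ}
  (X : ∀ i, Lp W p e (A i)) (S : Sm K Ω A G)

/-- Symbols with a null entry are `0`. -/
def NulS : Prop := ∀ (M : IntermediateField K Ω) (a : ∀ i, A i) (i : ι) (x : A i), W.U M →
  (∀ k, Fx M (a k)) → x ∈ (X i).Nl M → S.sy M (update a i x) = 0

/-- The filtration. -/
def Fr [Fintype ι] (n s : ℕ) : AddSubgroup G :=
  AddSubgroup.closure {g | ∃ (M : IntermediateField K Ω) (L : ι → ℕ) (a : ∀ i, A i), W.U M ∧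
    (∀ i, L i ≠ 0) ∧ (∀ i, a i ∈ (X i).D M (L i)) ∧ s ≤ ∑ i, L i ∧ g = S.sy M a} ⊔
      mulT (p ^ n) S.T

variable {X S} {n : ℕ}

theorem fr_anti [Fintype ι] {s t : ℕ} (h : s ≤ t) : Fr X S n t ≤ Fr X S n s := by
  refine sup_le ?_ le_sup_right
  rw [AddSubgroup.closure_le]
  rintro g ⟨M, L, a, hM, hL, ha, hs, rfl⟩
  exact AddSubgroup.mem_sup_left (AddSubgroup.subset_closure ⟨M, L, a, hM, hL, ha, h.trans hs, rfl⟩)

theorem pT_fr [Fintype ι] (s : ℕ) : mulT (p ^ n) S.T ≤ Fr X S n s := le_sup_right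

theorem fr_mem [Fintype ι] {M : IntermediateField K Ω} {L : ι → ℕ} {a : ∀ i, A i} {s : ℕ}
    (hM : W.U M) (hL : ∀ i, L i ≠ 0) (ha : ∀ i, a i ∈ (X i).D M (L i)) (hs : s ≤ ∑ i, L i) :
    S.sy M a ∈ Fr X S n s :=
  AddSubgroup.mem_sup_left (AddSubgroup.subset_closure ⟨M, L, a, hM, hL, ha, hs, rfl⟩)

/-- An entry of large level. Proof: `(X i).small n`, `Sm.smul`, `NulS`. -/
theorem fr_small (hN : NulS X S) {M : IntermediateField K Ω} {a : ∀ i, A i} {i : ι} {r : ℕ}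
    (hM : W.U M) (ha : ∀ k, Fx M (a k)) (hr : (n + 1) * e + 1 ≤ r) (hi : a i ∈ (X i).D M r) :
    S.sy M a ∈ mulT (p ^ n) S.T := by
  have := W.fd hM
  obtain ⟨x, hx, h⟩ := (X i).small n hM hr hi
  have h1 : S.sy M a = S.sy M (update a i (p ^ n • x)) + S.sy M (update a i (a i - p ^ n • x)) := by
    rw [← S.add M a i _ _ ha (hx.nsmul _) ((ha i).sub (hx.nsmul _)), add_sub_cancel,
      update_eq_self]
  rw [h1, hN M a i _ hM ha h, add_zero, Sm.smul ha hx]
  exact smul_mem_mulT (Sm.memT' ha hx)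

/-- Large levels are in `p ^ n T`. Proof: one of the `L i` is at least `(n + 1) e + 1`, `fr_small`. -/
theorem fr_end [Fintype ι] [Nonempty ι] (hN : NulS X S) {s : ℕ}
    (hs : Fintype.card ι * ((n + 1) * e + 1) ≤ s) : Fr X S n s ≤ mulT (p ^ n) S.T := by
  refine sup_le ?_ le_rfl
  rw [AddSubgroup.closure_le]
  rintro g ⟨M, L, a, hM, hL, ha, hsum, rfl⟩
  obtain ⟨i, hi⟩ : ∃ i, (n + 1) * e + 1 ≤ L i := by
    by_contra h
    push Not at h
    have h1 : ∑ i, L i < ∑ _i : ι, ((n + 1) * e + 1) := Finset.sum_lt_sum_of_nonempty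
      Finset.univ_nonempty fun i _ => h i
    rw [Finset.sum_const, Finset.card_univ, smul_eq_mul] at h1
    omega
  exact fr_small hN hM (fun k => (X k).fx hM (ha k)) hi (ha i)

/-- One entry by generators. Proof: `(X i).gen`, `Sm.sup`, `S.nm`. -/
theorem gen_one (hN : NulS X S) {V : AddSubgroup G} {M : IntermediateField K Ω}
    {a : ∀ i, A i} {i : ι} {r : ℕ} {x : A i} (hM : W.U M) (ha : ∀ k, Fx M (a k)) (hr : r ≠ 0)
    (hx : x ∈ (X i).D M r)
    (h : ∀ (M' : IntermediateField K Ω) (α : W.O M' → A i) (y : W.O M'), W.Ex M M' →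
      α ∈ (X i).Ch M' → W.π M' ^ r ∣ y → S.sy M' (update a i (α y)) ∈ V) :
    S.sy M (update a i x) ∈ V := by
  have := W.fd hM
  refine (Sm.sup ha ?_ (fun x hx => ⟨(X i).nx hM hx, hN M a i x hM ha hx⟩)
    ((X i).gen hM hr hx)).2
  rintro x ⟨M', hM', α, hα, y, hy, rfl⟩
  have hU' := W.up hM hM'
  have := W.fd hU'
  have h1 := (X i).fx hU' ((X i).chD hU' hα hr hy)
  refine ⟨nm_fx (W.le hM') h1, ?_⟩
  rw [← S.nm M M' a i (α y) (W.le hM') ha h1]
  exact h M' α y hM' hα hy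

end CV
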