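import Pool.Agent.Lib.MP_f80667_ag.Ctf.SB

/-! # Generators of the symbols of displacements -/

set_option autoImplicit false

open PE Finset Polynomial Function

namespace CV

variable {K Ω : Type} [Field K] [CharZero K] [Field Ω] [Algebra K Ω] [IsAlgClosure K Ω]
  {ι : Type} [DecidableEq ι] {A : ι → Type} {G : Type} [∀ i, AddCommGroup (A i)] [AddCommGroup G]
  [∀ i, DistribMulAction (Ω ≃ₐ[K] Ω) (A i)] {W : Tw K Ω} {p e : ℕ}
  {X : ∀ i, Lp W p e (A i)} {S : Sm K Ω A G} {n : ℕ}

/-- All entries by generators, over the unramified extensions of `K₁`. Proof: induction on the set of the entries which are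
not chart displacements (`gen_one`, `Lp.chR`, `Lp.res`). -/
theorem gen_all [Fintype ι] (hN : NulS X S)
    (tr : ∀ {M M' M'' : IntermediateField K Ω}, W.Ex M M' → W.Ex M' M'' → W.Ex M M'')
    {K₁ : IntermediateField K Ω} (hU : W.U K₁) {V : AddSubgroup G} {L : ι → ℕ}
    (hL : ∀ i, L i ≠ 0)
    (h : ∀ (M : IntermediateField K Ω) (α : ∀ i, W.O M → A i) (x : ι → W.O M), W.Ex K₁ M →
      (∀ i, α i ∈ (X i).Ch M) → (∀ i, W.π M ^ L i ∣ x i) → S.sy M (fun i => α i (x i)) ∈ V)
    {M : IntermediateField K Ω} {a : ∀ i, A i} (hM : W.Ex K₁ M)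
    (ha : ∀ i, a i ∈ (X i).D M (L i)) : S.sy M a ∈ V := by
  classical
  have key : ∀ (s : Finset ι) (M : IntermediateField K Ω) (a : ∀ i, A i), W.Ex K₁ M →
      (∀ i, a i ∈ (X i).D M (L i)) →
      (∀ i, i ∉ s → ∃ α ∈ (X i).Ch M, ∃ x, W.π M ^ L i ∣ x ∧ a i = α x) → S.sy M a ∈ V := by
    intro s
    induction s using Finset.induction_on with
    | empty =>
      intro M a hM _ hc
      choose α hα x hx hax using fun i => hc i (Finset.notMem_empty i)
      have h1 : a = fun i => α i (x i) := funext hax
      rw [h1]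
      exact h M α x hM hα hx
    | insert i s _ ih =>
      intro M a hM ha hc
      have hUM := W.up hU hM
      have h1 : S.sy M (update a i (a i)) ∈ V := by
        refine gen_one hN hUM (fun k => (X k).fx hUM (ha k)) (hL i) (ha i) ?_
        intro M' α y hM' hα hy
        have hUM' := W.up hUM hM'
        refine ih M' (update a i (α y)) (tr hM hM') (fun k => ?_) (fun k hk => ?_)
        · rcases eq_or_ne k i with rfl | hk
          · rw [update_self]
            exact (X k).chD hUM' hα (hL k) hy
          · rw [update_of_ne hk]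
            exact (X k).res hUM hM' (hL k) (ha k)
        · rcases eq_or_ne k i with rfl | hki
          · rw [update_self]
            exact ⟨α, hα, y, hy, rfl⟩
          · rw [update_of_ne hki]
            obtain ⟨β, hβ, z, hz, e1⟩ := hc k fun hmem =>
              (Finset.mem_insert.1 hmem).elim hki hk
            obtain ⟨β', hβ', z', hz', e2⟩ := (X k).chR hUM hM' (hL k) hβ hz
            exact ⟨β', hβ', z', hz', by rw [e1, e2]⟩
      rwa [update_eq_self] at h1
  exact key Finset.univ M a hM ha fun i hi => absurd (Finset.mem_univ i) hi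

end CV
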