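import Pool.Agent.Lib.MP_f80667_ag.Ctf.SB

/-! # Entries of level zero -/

set_option autoImplicit false

open PE Finset Polynomial Function

namespace CV

variable {K Ω : Type} [Field K] [CharZero K] [Field Ω] [Algebra K Ω] [IsAlgClosure K Ω]
  {ι : Type} [DecidableEq ι] {A : ι → Type} {G : Type} [∀ i, AddCommGroup (A i)] [AddCommGroup G]
  [∀ i, DistribMulAction (Ω ≃ₐ[K] Ω) (A i)] {W : Tw K Ω} {p e : ℕ}
  {X : ∀ i, Lp W p e (A i)} {S : Sm K Ω A G} {n : ℕ}

/-- Entries of level `0` (arbitrary elements over `M`) count as `1`, if there is an entry `i` of positive level. Proof: as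
`lev_le` of `Cv/EraL.lean`: induction on `Z` (`Finset.induction`); `Z = ∅`: `fr_mem`. `insert j Z`: induction on `d` with
`(n + 1) e + 1 ≤ L i + d`: `d = 0`: `fr_small`. `d + 1`: `gen_one` for the entry `i` (the other entries are over `M'`:
`Fx.mono`, `Lp.res`), `(X j).lift` (`l = p ^ n`) for `a j` over `M'`, `(X i).nm` for the chart displacement: the symbol is
`p ^ n` times a symbol, plus a symbol over `M''` with the entry `j` of level `1` (induction hypothesis for `Z`), plus a
symbol with the entry `i` of level `L i + 1` (induction hypothesis for `d`, `fr_anti`). -/
theorem lev_r [Fintype ι] (hp : p ≠ 0) (hN : NulS X S) (Z : Finset ι) :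
    ∀ (M : IntermediateField K Ω) (a : ∀ i, A i) (L : ι → ℕ) (i : ι), i ∉ Z → W.U M →
      (∀ k, Fx M (a k)) → (∀ k ∉ Z, L k ≠ 0 ∧ a k ∈ (X k).D M (L k)) →
      S.sy M a ∈ Fr X S n (∑ k ∈ univ \ Z, L k + Z.card) := by
  induction Z using Finset.induction_on with
  | empty =>
    intro M a L i _ hM ha hL
    refine fr_mem hM (L := L) (fun k => (hL k (Finset.notMem_empty k)).1)
      (fun k => (hL k (Finset.notMem_empty k)).2) ?_
    rw [Finset.sdiff_empty, Finset.card_empty, add_zero]
  | insert j Z hj ih =>
    have hsum : ∀ L : ι → ℕ, ∑ k ∈ univ \ Z, update L j 1 k + Z.card =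
        ∑ k ∈ univ \ insert j Z, L k + (insert j Z).card := by
      intro L
      have h1 : univ \ Z = insert j (univ \ insert j Z) := by
        ext k
        simp only [Finset.mem_sdiff, Finset.mem_univ, true_and, Finset.mem_insert, not_or]
        constructor
        · intro h
          by_cases hk : k = j
          · exact Or.inl hk
          · exact Or.inr ⟨hk, h⟩
        · rintro (h | h)
          · rw [h]
            exact hj
          · exact h.2
      have h2 : j ∉ univ \ insert j Z := by
        rw [Finset.mem_sdiff, not_and, not_not]
        intro _
        exact Finset.mem_insert_self j Z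
      rw [h1, Finset.sum_insert h2, update_self, Finset.card_insert_of_notMem hj]
      have h3 : ∑ k ∈ univ \ insert j Z, update L j 1 k = ∑ k ∈ univ \ insert j Z, L k := by
        refine Finset.sum_congr rfl fun k hk => ?_
        rw [update_of_ne]
        rintro rfl
        exact h2 hk
      rw [h3]
      omega
    have main : ∀ (d : ℕ) (M : IntermediateField K Ω) (a : ∀ i, A i) (L : ι → ℕ) (i : ι),
        (n + 1) * e + 1 ≤ L i + d → i ∉ insert j Z → W.U M → (∀ k, Fx M (a k)) →
        (∀ k ∉ insert j Z, L k ≠ 0 ∧ a k ∈ (X k).D M (L k)) →
        S.sy M a ∈ Fr X S n (∑ k ∈ univ \ insert j Z, L k + (insert j Z).card) := by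
      intro d
      induction d with
      | zero =>
        intro M a L i hd hi hM ha hL
        exact pT_fr _ (fr_small hN hM ha hd (hL i hi).2)
      | succ d ihd =>
        intro M a L i hd hi hM ha hL
        have hij : i ≠ j := by
          rintro rfl
          exact hi (Finset.mem_insert_self _ _)
        have hiZ : i ∉ Z := fun h => hi (Finset.mem_insert_of_mem h)
        have hr := (hL i hi).1
        have h0 : S.sy M (update a i (a i)) ∈
            Fr X S n (∑ k ∈ univ \ insert j Z, L k + (insert j Z).card) := by
          refine gen_one hN hM ha hr (hL i hi).2 fun M' α y hM' hα hy => ?_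
          have hU' := W.up hM hM'
          have hfd' := W.fd hU'
          have ha' : ∀ k, Fx M' (a k) := fun k => (ha k).mono (W.le hM')
          obtain ⟨M'', hM'', b, hb, hb1⟩ :=
            (X j).lift (pow_ne_zero n hp) hU' (ha' j)
          have hU'' := W.up hU' hM''
          have hfd'' := W.fd hU''
          have hle := W.le hM''
          have ha'' : ∀ k, Fx M'' (a k) := fun k => (ha' k).mono hle
          obtain ⟨c, hc, hc1⟩ := (X i).nm hU' hM'' hr hα hy
          have hcf := (X i).fx hU'' hc
          have hαf := (X i).fx hU' ((X i).chD hU' hα hr hy)
          have hnf : Fx M' (Nm M' M'' c) := nm_fx hle hcf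
          have hdf := (X i).fx hU' hc1
          have e1 : S.sy M' (update a i (α y)) = S.sy M' (update a i (Nm M' M'' c)) +
              S.sy M' (update a i (α y - Nm M' M'' c)) := by
            rw [← S.add M' a i _ _ ha' hnf hdf, add_sub_cancel]
          rw [e1, ← S.nm M' M'' a i c hle ha' hcf]
          refine AddSubgroup.add_mem _ ?_ ?_
          · have ha1 : ∀ k, Fx M'' (update a i c k) := fx_ud ha'' hcf
            have hbf := (X j).fx hU'' hb1
            have e2 : S.sy M'' (update a i c) =
                S.sy M'' (update (update a i c) j (p ^ n • b)) +
                S.sy M'' (update (update a i c) j (a j - p ^ n • b)) := by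
              rw [← S.add M'' (update a i c) j _ _ ha1 (hb.nsmul _) hbf, add_sub_cancel]
              have e3 : update (update a i c) j (a j) = update a i c := by
                have e4 : a j = update a i c j := by rw [update_of_ne hij.symm]
                rw [e4, update_eq_self]
              rw [e3]
            rw [e2]
            refine AddSubgroup.add_mem _ ?_ ?_
            · rw [Sm.smul ha1 hb]
              exact pT_fr _ (smul_mem_mulT (Sm.memT' ha1 hb))
            · rw [← hsum L]
              refine ih M'' _ (update L j 1) i hiZ hU'' (fx_ud ha1 hbf) fun k hk => ?_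
              rcases eq_or_ne k j with rfl | hkj
              · rw [update_self, update_self]
                exact ⟨one_ne_zero, hb1⟩
              · rw [update_of_ne hkj, update_of_ne hkj]
                have hk' : k ∉ insert j Z := by
                  rw [Finset.mem_insert, not_or]
                  exact ⟨hkj, hk⟩
                refine ⟨(hL k hk').1, ?_⟩
                rcases eq_or_ne k i with rfl | hki
                · rw [update_self]
                  exact hc
                · rw [update_of_ne hki]
                  exact (X k).res hU' hM'' (hL k hk').1 ((X k).res hM hM' (hL k hk').1 (hL k hk').2)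
          · have h5 := ihd M' (update a i (α y - Nm M' M'' c)) (update L i (L i + 1)) i
              (by rw [update_self]; omega) hi hU' (fx_ud ha' hdf) (fun k hk => by
                rcases eq_or_ne k i with rfl | hki
                · rw [update_self, update_self]
                  exact ⟨Nat.succ_ne_zero _, hc1⟩
                · rw [update_of_ne hki, update_of_ne hki]
                  exact ⟨(hL k hk).1, (X k).res hM hM' (hL k hk).1 (hL k hk).2⟩)
            refine fr_anti ?_ h5
            have h6 : ∑ k ∈ univ \ insert j Z, L k ≤
                ∑ k ∈ univ \ insert j Z, update L i (L i + 1) k := by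
              refine Finset.sum_le_sum fun k _ => ?_
              rcases eq_or_ne k i with rfl | hki
              · rw [update_self]
                omega
              · rw [update_of_ne hki]
            omega
        rwa [update_eq_self] at h0
    intro M a L i hi hM ha hL
    exact main ((n + 1) * e + 1) M a L i (by omega) hi hM ha hL

end CV
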