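import Pool.Agent.Lib.MP_f80667_ag.Ctf.SB2

/-! # The symbols of displacements generate -/

set_option autoImplicit false

open PE Finset Polynomial Function

namespace CV

variable {K Ω : Type} [Field K] [CharZero K] [Field Ω] [Algebra K Ω] [IsAlgClosure K Ω]
  {ι : Type} [DecidableEq ι] {A : ι → Type} {G : Type} [∀ i, AddCommGroup (A i)] [AddCommGroup G]
  [∀ i, DistribMulAction (Ω ≃ₐ[K] Ω) (A i)] {W : Tw K Ω} {p e : ℕ}
  {X : ∀ i, Lp W p e (A i)} {S : Sm K Ω A G} {n : ℕ}

private theorem top_one [Fintype ι] (hp : p ≠ 0) (hN : NulS X S) {M : IntermediateField K Ω}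
    {a : ∀ i, A i} {i : ι} (hM : W.U M) (ha : ∀ k, Fx M (a k)) (hi : a i ∈ (X i).D M 1) :
    S.sy M a ∈ Fr X S n (Fintype.card ι) := by
  have h1 := lev_r (n := n) (S := S) hp hN (univ \ {i}) M a (fun _ => 1) i (fun h => by
      rw [Finset.mem_sdiff, Finset.mem_singleton] at h
      exact h.2 rfl) hM ha (fun k hk => by
      have h2 : k = i := by
        by_contra h3
        exact hk (Finset.mem_sdiff.2 ⟨Finset.mem_univ k, fun h4 => h3 (Finset.mem_singleton.1 h4)⟩)
      subst h2
      exact ⟨one_ne_zero, hi⟩)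
  have h2 : ∑ _k ∈ univ \ (univ \ {i} : Finset ι), 1 + (univ \ {i} : Finset ι).card =
      Fintype.card ι := by
    rw [Finset.sum_const, smul_eq_mul, mul_one, Finset.card_sdiff_add_card_eq_card
      (Finset.subset_univ _), Finset.card_univ]
  rw [h2] at h1
  exact h1

/-- `T` is generated by the symbols of displacements. Proof: as `top_le` of `Cv/EraL.lean`: `a i` by `(X i).lift`
(`l = p ^ n`) over `M'`, `a j` by `(X j).lang`, then `lev_r` with `Z = univ \ {i}`, `univ \ {j}`. -/
theorem top_r [Fintype ι] [Nontrivial ι] (hp : p ≠ 0) (hN : NulS X S)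
    (hgen : S.T ≤ AddSubgroup.closure {g | ∃ (M : IntermediateField K Ω) (a : ∀ i, A i), W.U M ∧
      (∀ i, Fx M (a i)) ∧ g = S.sy M a}) : S.T ≤ Fr X S n (Fintype.card ι) := by
  obtain ⟨i, j, hij⟩ := exists_pair_ne ι
  refine hgen.trans ?_
  rw [AddSubgroup.closure_le]
  rintro g ⟨M, a, hM, ha, rfl⟩
  have := W.fd hM
  obtain ⟨M', hM', a', ha', ha1⟩ := (X i).lift (pow_ne_zero n hp) hM (ha i)
  have hU' := W.up hM hM'
  have := W.fd hU'
  have hle := W.le hM'
  obtain ⟨b', hb', hb1⟩ := (X j).lang hM hM' (ha j)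
  have hbf := (X j).fx hM hb1
  have haf := (X i).fx hU' ha1
  have hnb : Fx M (Nm M M' b') := nm_fx hle hb'
  have hta : ∀ k, Fx M' (update a j b' k) := fx_ud (fun k => (ha k).mono hle) hb'
  have e1 : S.sy M a = S.sy M (update a j (Nm M M' b')) +
      S.sy M (update a j (a j - Nm M M' b')) := by
    rw [← S.add M a j _ _ ha hnb hbf, add_sub_cancel, update_eq_self]
  have e2 : S.sy M' (update a j b') = S.sy M (update a j (Nm M M' b')) :=
    S.nm M M' a j b' hle ha hb'
  have e3 : S.sy M' (update a j b') = S.sy M' (update (update a j b') i (p ^ n • a')) +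
      S.sy M' (update (update a j b') i (a i - p ^ n • a')) := by
    have h1 : update (update a j b') i (a i) = update a j b' := by
      have h2 : update a j b' i = a i := update_of_ne hij _ _
      rw [← h2, update_eq_self]
    rw [← S.add M' _ i _ _ hta (ha'.nsmul _) haf, add_sub_cancel, h1]
  rw [SetLike.mem_coe, e1, ← e2, e3]
  refine AddSubgroup.add_mem _ (AddSubgroup.add_mem _ (pT_fr _ ?_) ?_) ?_
  · rw [Sm.smul hta ha']
    exact smul_mem_mulT (Sm.memT' hta ha')
  · refine top_one (i := i) hp hN hU' (fx_ud hta haf) ?_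
    rw [update_self]
    exact ha1
  · refine top_one (i := j) hp hN hM (fx_ud ha hbf) ?_
    rw [update_self]
    exact hb1

end CV
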