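import Pool.Agent.Lib.MP_f80667_ag.Ctf.SB

/-!
# The relations for symbols with several entries

`ud c i j a b`: the tuple `c` with the entries `a` at `i`, `b` at `j`. `PsM`: the group of the symbols over the unramified
extensions of `M` with the entries `c` except at `i`, `j`, and one of these of level `N`. `Rm`: the relations.
-/

set_option autoImplicit false

open PE Finset Polynomial Function

namespace CV

variable {K Ω : Type} [Field K] [CharZero K] [Field Ω] [Algebra K Ω] [IsAlgClosure K Ω]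
  {ι : Type} [DecidableEq ι] {A : ι → Type} {G : Type} [∀ i, AddCommGroup (A i)] [AddCommGroup G]
  [∀ i, DistribMulAction (Ω ≃ₐ[K] Ω) (A i)] {W : Tw K Ω} {p e : ℕ}

/-- Two entries changed. -/
def ud (c : ∀ i, A i) (i j : ι) (a : A i) (b : A j) : ∀ i, A i := update (update c i a) j b

variable (X : ∀ i, Lp W p e (A i)) (S : Sm K Ω A G)

/-- The symbols with one of the entries `i`, `j` of level `N`, over the unramified extensions of `M`. -/
def PsM (M : IntermediateField K Ω) (i j : ι) (c : ∀ i, A i) (N : ℕ) : AddSubgroup G :=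
  AddSubgroup.closure {g | ∃ (M' : IntermediateField K Ω) (a : A i) (b : A j), W.Ex M M' ∧
    ((a ∈ (X i).D M' N ∧ Fx M' b) ∨ (Fx M' a ∧ b ∈ (X j).D M' N)) ∧ g = S.sy M' (ud c i j a b)}

/-- The relations. -/
structure Rm : Prop where
  prime : p.Prime
  nul : NulS X S
  top : S.T ≤ AddSubgroup.closure {g | ∃ (M : IntermediateField K Ω) (a : ∀ i, A i), W.U M ∧
    (∀ i, Fx M (a i)) ∧ g = S.sy M a}
  /-- the comparison of `(z - w) (z - w')` and `z (z - w - w')` on `z ↦ (x z, y z)`, the other entries are fixed -/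
  ln : ∀ {M : IntermediateField K Ω} (i j : ι) (c : ∀ i, A i) (α : W.O M → A i) (β : W.O M → A j)
    (x y w w' : W.O M) (N : ℕ), i ≠ j → W.U M → α ∈ (X i).Ch M → β ∈ (X j).Ch M → N ≠ 0 →
    (∀ k, ∃ γ ∈ (X k).Ch M, ∃ z, W.π M ∣ z ∧ c k = γ z) → W.π M ∣ w → W.π M ∣ w' →
    W.π M ^ N ∣ w * w' →
    S.sy M (ud c i j (α (x * w)) (β (y * w))) + S.sy M (ud c i j (α (x * w')) (β (y * w'))) -
      (S.sy M (ud c i j (α 0) (β 0)) + S.sy M (ud c i j (α (x * (w + w'))) (β (y * (w + w'))))) ∈
        PsM X S M i j c N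
  tr : ∀ {M M' M'' : IntermediateField K Ω}, W.Ex M M' → W.Ex M' M'' → W.Ex M M''

variable {X S} {n : ℕ} {M : IntermediateField K Ω} {i j : ι} {c : ∀ i, A i} {α : W.O M → A i}
  {β : W.O M → A j}

theorem ud_i (hij : i ≠ j) (a : A i) (b : A j) : ud c i j a b i = a := by
  rw [ud, update_of_ne hij, update_self]

theorem ud_j (a : A i) (b : A j) : ud c i j a b j = b := by
  rw [ud, update_self]

theorem ud_k {k : ι} (hi : k ≠ i) (hj : k ≠ j) (a : A i) (b : A j) : ud c i j a b k = c k := by
  rw [ud, update_of_ne hj, update_of_ne hi]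

end CV
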