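import Pool.Agent.Lib.MP_f80667_ag.Ctf.SC
import Pool.Agent.Lib.MP_f80667_ag.Ctf.SB2

/-! # The errors are in the next level -/

set_option autoImplicit false

open PE Finset Polynomial Function

namespace CV

variable {K Ω : Type} [Field K] [CharZero K] [Field Ω] [Algebra K Ω] [IsAlgClosure K Ω]
  {ι : Type} [DecidableEq ι] {A : ι → Type} {G : Type} [∀ i, AddCommGroup (A i)] [AddCommGroup G]
  [∀ i, DistribMulAction (Ω ≃ₐ[K] Ω) (A i)] {W : Tw K Ω} {p e : ℕ}
  {X : ∀ i, Lp W p e (A i)} {S : Sm K Ω A G} {n : ℕ} {M : IntermediateField K Ω} {i j : ι}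
  {c : ∀ i, A i} {α : W.O M → A i} {β : W.O M → A j}

omit [CharZero K] [IsAlgClosure K Ω] in
private theorem psM_sum [Fintype ι] {i j : ι} (hij : i ≠ j) {L : ι → ℕ} :
    ∑ k ∈ univ \ {j}, update L i (L i + L j) k = ∑ k, L k := by
  have h1 : i ∈ (univ \ {j} : Finset ι) := by
    rw [Finset.mem_sdiff, Finset.mem_singleton]
    exact ⟨Finset.mem_univ i, hij⟩
  have h2 : ∑ k, L k = L j + ∑ k ∈ univ \ {j}, L k := by
    rw [← Finset.sum_sdiff (Finset.subset_univ {j}), Finset.sum_singleton, add_comm]
  rw [h2, ← Finset.add_sum_erase _ _ h1, ← Finset.add_sum_erase _ _ h1, update_self,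
    Finset.sum_congr rfl fun k hk => update_of_ne (Finset.ne_of_mem_erase hk) _ _]
  omega

/-- The errors are in the next level. Proof: `lev_r` over `M'` with `Z = {j}` (`Z = {i}`), the levels `L` with `L i + L j` at
`i` (at `j`); `(X k).res` for the other entries. -/
theorem psM_le [Fintype ι] (hp : p ≠ 0) (hN : NulS X S) (hM : W.U M) (hij : i ≠ j) {L : ι → ℕ}
    (hL : ∀ k, L k ≠ 0) (hc : ∀ k, c k ∈ (X k).D M (L k)) :
    PsM X S M i j c (L i + L j) ≤ Fr X S n (∑ k, L k + 1) := by
  unfold PsM
  rw [AddSubgroup.closure_le]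
  rintro g ⟨M', a, b, hM', h, rfl⟩
  have hU' := W.up hM hM'
  have hle := W.le hM'
  have hf : Fx M' a ∧ Fx M' b := by
    rcases h with h | h
    · exact ⟨(X i).fx hU' h.1, h.2⟩
    · exact ⟨h.1, (X j).fx hU' h.2⟩
  have hfx : ∀ k, Fx M' (ud c i j a b k) := by
    intro k
    by_cases hj : k = j
    · subst hj
      rw [ud_j]
      exact hf.2
    · by_cases hi : k = i
      · subst hi
        rw [ud_i hij]
        exact hf.1
      · rw [ud_k hi hj]
        exact ((X k).fx hM (hc k)).mono hle
  have hres : ∀ k, k ≠ i → k ≠ j → ud c i j a b k ∈ (X k).D M' (L k) := by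
    intro k hi hj
    rw [ud_k hi hj]
    exact (X k).res hM hM' (hL k) (hc k)
  rcases h with h | h
  · have h1 := lev_r (n := n) (S := S) hp hN {j} M' (ud c i j a b) (update L i (L i + L j)) i
      (by rw [Finset.mem_singleton]; exact hij) hU' hfx (fun k hk => by
        rw [Finset.mem_singleton] at hk
        by_cases hi : k = i
        · subst hi
          rw [update_self, ud_i hij]
          exact ⟨by have := hL k; omega, h.1⟩
        · rw [update_of_ne hi]
          exact ⟨hL k, hres k hi hk⟩)
    rw [psM_sum hij, Finset.card_singleton] at h1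
    exact h1
  · have h1 := lev_r (n := n) (S := S) hp hN {i} M' (ud c i j a b) (update L j (L i + L j)) j
      (by rw [Finset.mem_singleton]; exact hij.symm) hU' hfx (fun k hk => by
        rw [Finset.mem_singleton] at hk
        by_cases hj : k = j
        · subst hj
          rw [update_self, ud_j]
          exact ⟨by have := hL k; omega, h.2⟩
        · rw [update_of_ne hj]
          exact ⟨hL k, hres k hk hj⟩)
    rw [add_comm (L i) (L j), psM_sum hij.symm, Finset.card_singleton] at h1
    exact h1

end CV
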