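import Pool.Agent.Lib.MP_f80667_ag.Ctf.SC

/-! # Additivity in two entries -/

set_option autoImplicit false

open PE Finset Polynomial Function

namespace CV

variable {K Ω : Type} [Field K] [CharZero K] [Field Ω] [Algebra K Ω] [IsAlgClosure K Ω]
  {ι : Type} [DecidableEq ι] {A : ι → Type} {G : Type} [∀ i, AddCommGroup (A i)] [AddCommGroup G]
  [∀ i, DistribMulAction (Ω ≃ₐ[K] Ω) (A i)] {W : Tw K Ω} {p e : ℕ}
  {X : ∀ i, Lp W p e (A i)} {S : Sm K Ω A G} {n : ℕ} {M : IntermediateField K Ω} {i j : ι}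
  {c : ∀ i, A i} {α : W.O M → A i} {β : W.O M → A j}

private theorem sc2_comm (hij : i ≠ j) (a : A i) (b : A j) :
    ud c i j a b = update (update c j b) i a := by
  rw [ud, update_comm hij]

private theorem sc2_sum [Fintype ι] (hij : i ≠ j) (f : ι → ℕ) :
    ∑ k, f k = f i + (f j + ∑ k ∈ (univ.erase i).erase j, f k) := by
  rw [Finset.add_sum_erase _ _ (Finset.mem_erase.2 ⟨hij.symm, Finset.mem_univ _⟩),
    Finset.add_sum_erase _ _ (Finset.mem_univ _)]

/-- The levels of two entries. Proof: `fr_mem` with the levels `L` changed to `r`, `r'` at `i`, `j`. -/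
theorem fr_ud [Fintype ι] (hM : W.U M) (hij : i ≠ j) {L : ι → ℕ} (hL : ∀ k, L k ≠ 0)
    (hc : ∀ k, c k ∈ (X k).D M (L k)) {r r' : ℕ} (hr : r ≠ 0) (hr' : r' ≠ 0) {a : A i} {b : A j}
    (ha : a ∈ (X i).D M r) (hb : b ∈ (X j).D M r') {s : ℕ} (hs : L i + L j + s ≤ r + r') :
    S.sy M (ud c i j a b) ∈ Fr X S n (∑ k, L k + s) := by
  obtain ⟨L', hL'⟩ : ∃ L' : ι → ℕ, L' = update (update L i r) j r' := ⟨_, rfl⟩
  have hi : L' i = r := by rw [hL', update_of_ne hij, update_self]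
  have hj : L' j = r' := by rw [hL', update_self]
  have hk : ∀ k, k ≠ i → k ≠ j → L' k = L k := fun k h h' => by
    rw [hL', update_of_ne h', update_of_ne h]
  refine fr_mem (L := L') hM (fun k => ?_) (fun k => ?_) ?_
  · rcases eq_or_ne k j with rfl | h'
    · rwa [hj]
    · rcases eq_or_ne k i with rfl | h
      · rwa [hi]
      · rw [hk k h h']
        exact hL k
  · rcases eq_or_ne k j with rfl | h'
    · rw [hj, ud_j]
      exact hb
    · rcases eq_or_ne k i with rfl | h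
      · rw [hi, ud_i hij]
        exact ha
      · rw [hk k h h', ud_k h h']
        exact hc k
  · rw [sc2_sum hij L, sc2_sum hij L', hi, hj]
    have h1 : ∑ k ∈ (univ.erase i).erase j, L' k = ∑ k ∈ (univ.erase i).erase j, L k := by
      refine Finset.sum_congr rfl fun k h => ?_
      rw [Finset.mem_erase, Finset.mem_erase] at h
      exact hk k h.2.1 h.1
    rw [h1]
    omega

/-- Additivity in the first of the two entries. Proof: as `fn_add₁`: `Sm.sub`, `(X i).add`, `fr_ud`. -/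
theorem fr_add₁ [Fintype ι] (hM : W.U M) (hij : i ≠ j) {L : ι → ℕ} (hL : ∀ k, L k ≠ 0)
    (hc : ∀ k, c k ∈ (X k).D M (L k)) (hα : α ∈ (X i).Ch M) {x x' : W.O M}
    (hx : W.π M ^ L i ∣ x) (hx' : W.π M ^ L j ∣ x') {r : ℕ} (hr : r ≠ 0) {b : A j}
    (hb : b ∈ (X j).D M r) {s : ℕ} (hs : s ≤ r) :
    S.sy M (ud c i j (α (x + x')) b) - S.sy M (ud c i j (α x) b) - S.sy M (ud c i j (α x') b) ∈
      Fr X S n (∑ k, L k + s) := by
  have := W.fd hM
  have hi := hL i
  have hj := hL j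
  obtain ⟨k, hk⟩ : ∃ k, k = min (L i) (L j) := ⟨_, rfl⟩
  have h0 : W.π M ^ k ∣ x + x' := dvd_add ((pow_dvd_pow _ (by omega)).trans hx)
    ((pow_dvd_pow _ (by omega)).trans hx')
  have h1 := (X i).fx hM ((X i).chD hM hα (by omega) h0)
  have h2 := (X i).fx hM ((X i).chD hM hα hi hx)
  have h3 := (X i).fx hM ((X i).chD hM hα hj hx')
  have hF : ∀ k, Fx M (update c j b k) :=
    fx_ud (fun k => (X k).fx hM (hc k)) ((X j).fx hM hb)
  rw [sc2_comm hij, sc2_comm hij, sc2_comm hij, ← Sm.sub hF h1 h2,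
    ← Sm.sub hF (h1.sub h2) h3, ← sc2_comm hij]
  exact fr_ud hM hij hL hc (by omega) hr ((X i).add hM hα hi hj hx hx') hb (by omega)

/-- Additivity in the second of the two entries. -/
theorem fr_add₂ [Fintype ι] (hM : W.U M) (hij : i ≠ j) {L : ι → ℕ} (hL : ∀ k, L k ≠ 0)
    (hc : ∀ k, c k ∈ (X k).D M (L k)) (hβ : β ∈ (X j).Ch M) {y y' : W.O M}
    (hy : W.π M ^ L i ∣ y) (hy' : W.π M ^ L j ∣ y') {r : ℕ} (hr : r ≠ 0) {a : A i}
    (ha : a ∈ (X i).D M r) {s : ℕ} (hs : s ≤ r) :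
    S.sy M (ud c i j a (β (y + y'))) - S.sy M (ud c i j a (β y)) - S.sy M (ud c i j a (β y')) ∈
      Fr X S n (∑ k, L k + s) := by
  have := W.fd hM
  have hi := hL i
  have hj := hL j
  obtain ⟨k, hk⟩ : ∃ k, k = min (L i) (L j) := ⟨_, rfl⟩
  have h0 : W.π M ^ k ∣ y + y' := dvd_add ((pow_dvd_pow _ (by omega)).trans hy)
    ((pow_dvd_pow _ (by omega)).trans hy')
  have h1 := (X j).fx hM ((X j).chD hM hβ (by omega) h0)
  have h2 := (X j).fx hM ((X j).chD hM hβ hi hy)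
  have h3 := (X j).fx hM ((X j).chD hM hβ hj hy')
  have hF : ∀ k, Fx M (update c i a k) :=
    fx_ud (fun k => (X k).fx hM (hc k)) ((X i).fx hM ha)
  rw [ud, ud, ud, ← Sm.sub hF h1 h2, ← Sm.sub hF (h1.sub h2) h3]
  exact fr_ud hM hij hL hc hr (by omega) ha ((X j).add hM hβ hi hj hy hy') (by omega)

end CV
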