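import Pool.Agent.Lib.MP_f80667_ag.Ctf.SC1
import Pool.Agent.Lib.MP_f80667_ag.Ctf.SC2

/-! # The line and the balance of two entries -/

set_option autoImplicit false

open PE Finset Polynomial Function

namespace CV

variable {K Ω : Type} [Field K] [CharZero K] [Field Ω] [Algebra K Ω] [IsAlgClosure K Ω]
  {ι : Type} [DecidableEq ι] {A : ι → Type} {G : Type} [∀ i, AddCommGroup (A i)] [AddCommGroup G]
  [∀ i, DistribMulAction (Ω ≃ₐ[K] Ω) (A i)] {W : Tw K Ω} {p e : ℕ}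
  {X : ∀ i, Lp W p e (A i)} {S : Sm K Ω A G} {n : ℕ} {M : IntermediateField K Ω} {i j : ι}
  {c : ∀ i, A i} {α : W.O M → A i} {β : W.O M → A j}

/-- The line. Proof: as `line` (`Ct/KB.lean`): `H.ln` with `N = L i + L j`, `psM_le`, `fr_ud` for the term with `α 0`, and the
bilinear expansion (`expand` in `Ct/KA.lean`) by `fr_add₁`, `fr_add₂` with `s = 1`. -/
theorem line_r [Fintype ι] (H : Rm X S) (hM : W.U M) (hij : i ≠ j) {L : ι → ℕ}
    (hL : ∀ k, L k ≠ 0) (hc : ∀ k, ∃ γ ∈ (X k).Ch M, ∃ z, W.π M ^ L k ∣ z ∧ c k = γ z)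
    (hα : α ∈ (X i).Ch M) (hβ : β ∈ (X j).Ch M) (x y : W.O M) {w w' : W.O M}
    (hw : W.π M ^ L i ∣ w) (hw' : W.π M ^ L j ∣ w') :
    S.sy M (ud c i j (α (x * w)) (β (y * w'))) + S.sy M (ud c i j (α (x * w')) (β (y * w))) ∈
      Fr X S n (∑ k, L k + 1) := by
  have hcD : ∀ k, c k ∈ (X k).D M (L k) := by
    intro k
    obtain ⟨γ, hγ, z, hz, hk⟩ := hc k
    rw [hk]
    exact (X k).chD hM hγ (hL k) hz
  have hc1 : ∀ k, ∃ γ ∈ (X k).Ch M, ∃ z, W.π M ∣ z ∧ c k = γ z := by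
    intro k
    obtain ⟨γ, hγ, z, hz, hk⟩ := hc k
    exact ⟨γ, hγ, z, (dvd_pow_self _ (hL k)).trans hz, hk⟩
  have h0 : W.π M ∣ w := (dvd_pow_self _ (hL i)).trans hw
  have h0' : W.π M ∣ w' := (dvd_pow_self _ (hL j)).trans hw'
  have hi1 : 1 ≤ L i := Nat.one_le_iff_ne_zero.2 (hL i)
  have hj1 : 1 ≤ L j := Nat.one_le_iff_ne_zero.2 (hL j)
  have h1 := H.ln i j c α β x y w w' (L i + L j) hij hM hα hβ (by omega) hc1 h0 h0'
    (by rw [pow_add]; exact mul_dvd_mul hw hw')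
  have h2 := psM_le (n := n) H.prime.ne_zero H.nul hM hij hL hcD h1
  have hx : W.π M ^ L i ∣ x * w := hw.mul_left x
  have hx' : W.π M ^ L j ∣ x * w' := hw'.mul_left x
  have hy : W.π M ^ L i ∣ y * w := hw.mul_left y
  have hy' : W.π M ^ L j ∣ y * w' := hw'.mul_left y
  have hyy : W.π M ^ 1 ∣ y * w + y * w' := by
    rw [pow_one]
    exact dvd_add (h0.mul_left y) (h0'.mul_left y)
  have hb : β (y * w + y * w') ∈ (X j).D M 1 := (X j).chD hM hβ one_ne_zero hyy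
  have ha : α (x * w) ∈ (X i).D M (L i) := (X i).chD hM hα (hL i) hx
  have ha' : α (x * w') ∈ (X i).D M (L j) := (X i).chD hM hα (hL j) hx'
  have e1 := fr_add₁ (S := S) (n := n) hM hij hL hcD hα hx hx' one_ne_zero hb (s := 1) le_rfl
  have e2 := fr_add₂ (S := S) (n := n) hM hij hL hcD hβ hy hy' (hL i) ha (s := 1) hi1
  have e3 := fr_add₂ (S := S) (n := n) hM hij hL hcD hβ hy hy' (hL j) ha' (s := 1) hj1
  have h4 : S.sy M (ud c i j (α 0) (β 0)) ∈ Fr X S n (∑ k, L k + 1) :=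
    fr_ud (n := n) hM hij hL hcD (Nat.succ_ne_zero (L i)) (hL j)
      ((X i).chD hM hα (Nat.succ_ne_zero (L i)) (dvd_zero _))
      ((X j).chD hM hβ (hL j) (dvd_zero _)) (by omega)
  rw [← mul_add, ← mul_add] at e1
  rw [← mul_add] at e2 e3
  have h5 := (Fr X S n (∑ k, L k + 1)).neg_mem (add_mem (add_mem h2 (add_mem (add_mem e1 e2) e3)) h4)
  refine (congrArg (fun g => g ∈ Fr X S n (∑ k, L k + 1)) ?_).mp h5
  abel

/-- Balance. Proof: as `bal` (`Ct/EB.lean`): `line_r` for `(x u, y)`, `w = π ^ L i`, `w' = π ^ L j v` and for `(x u v, y)`,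
`w = π ^ L i`, `w' = π ^ L j`. -/
theorem bal_r [Fintype ι] (H : Rm X S) (hM : W.U M) (hij : i ≠ j) {L : ι → ℕ}
    (hL : ∀ k, L k ≠ 0) (hc : ∀ k, ∃ γ ∈ (X k).Ch M, ∃ z, W.π M ^ L k ∣ z ∧ c k = γ z)
    (hα : α ∈ (X i).Ch M) (hβ : β ∈ (X j).Ch M) (x y u v : W.O M) :
    S.sy M (ud c i j (α (W.π M ^ L i * (x * u))) (β (W.π M ^ L j * (y * v)))) -
      S.sy M (ud c i j (α (W.π M ^ L i * (x * u * v))) (β (W.π M ^ L j * y))) ∈
        Fr X S n (∑ k, L k + 1) := by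
  have h1 := line_r (n := n) H hM hij hL hc hα hβ (x * u) y (dvd_refl (W.π M ^ L i))
    (dvd_mul_right (W.π M ^ L j) v)
  have h2 := line_r (n := n) H hM hij hL hc hα hβ (x * u * v) y (dvd_refl (W.π M ^ L i))
    (dvd_refl (W.π M ^ L j))
  have h3 := sub_mem h1 h2
  rw [show x * u * W.π M ^ L i = W.π M ^ L i * (x * u) by ring,
    show y * (W.π M ^ L j * v) = W.π M ^ L j * (y * v) by ring,
    show x * u * (W.π M ^ L j * v) = x * u * v * W.π M ^ L j by ring,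
    show x * u * v * W.π M ^ L i = W.π M ^ L i * (x * u * v) by ring,
    show y * W.π M ^ L j = W.π M ^ L j * y by ring] at h3
  refine (congrArg (fun g => g ∈ Fr X S n (∑ k, L k + 1)) ?_).mp h3
  abel

end CV
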