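import Pool.Agent.Lib.MP_f80667_ag.Ctf.SC

/-! # The generators -/

set_option autoImplicit false

open PE Finset Polynomial Function

namespace CV

variable {K Ω : Type} [Field K] [CharZero K] [Field Ω] [Algebra K Ω] [IsAlgClosure K Ω]
  {ι : Type} [DecidableEq ι] {A : ι → Type} {G : Type} [∀ i, AddCommGroup (A i)] [AddCommGroup G]
  [∀ i, DistribMulAction (Ω ≃ₐ[K] Ω) (A i)] {W : Tw K Ω} {p e : ℕ}
  {X : ∀ i, Lp W p e (A i)} {K₁ : IntermediateField K Ω} {κ : ι → ℕ}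

/-- The generators. -/
def GmR (S : Sm K Ω A G) (f : ∀ i, Fg (X i) K₁ (κ i)) (R : Finset (W.O K₁)) (N : ℕ) (i₀ : ι) :
    Set G :=
  {g | ∃ (L : ι → ℕ) (j : ∀ i, Fin (κ i)) (r : W.O K₁), (∀ i, L i ≠ 0 ∧ L i < N) ∧ r ∈ R ∧
    g = S.sy K₁ (update (fun i => (f i).α K₁ (j i) (W.π K₁ ^ L i)) i₀
      ((f i₀).α K₁ (j i₀) (W.π K₁ ^ L i₀ * r)))}

end CV
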