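import Pool.Agent.Lib.MP_f80667_ag.Ctf.SD

/-! # The generators are finitely many and in T -/

set_option autoImplicit false

open PE Finset Polynomial Function

namespace CV

variable {K Ω : Type} [Field K] [CharZero K] [Field Ω] [Algebra K Ω] [IsAlgClosure K Ω]
  {ι : Type} [DecidableEq ι] {A : ι → Type} {G : Type} [∀ i, AddCommGroup (A i)] [AddCommGroup G]
  [∀ i, DistribMulAction (Ω ≃ₐ[K] Ω) (A i)] {W : Tw K Ω} {p e : ℕ}
  {X : ∀ i, Lp W p e (A i)} {K₁ : IntermediateField K Ω} {κ : ι → ℕ} {S : Sm K Ω A G} {n : ℕ}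

/-- Proof: the image of the finite type `(ι → Fin N) × (∀ i, Fin (κ i)) × R`. -/
theorem gmR_fin [Finite ι] (f : ∀ i, Fg (X i) K₁ (κ i)) (R : Finset (W.O K₁)) (N : ℕ) (i₀ : ι) :
    (GmR S f R N i₀).Finite := by
  let F : (ι → Fin N) × (∀ i, Fin (κ i)) × R → G := fun t =>
    S.sy K₁ (update (fun i => (f i).α K₁ (t.2.1 i) (W.π K₁ ^ (t.1 i : ℕ))) i₀
      ((f i₀).α K₁ (t.2.1 i₀) (W.π K₁ ^ (t.1 i₀ : ℕ) * (t.2.2 : W.O K₁))))
  refine (Set.finite_range F).subset ?_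
  rintro g ⟨L, j, r, hL, hr, rfl⟩
  exact ⟨(fun i => ⟨L i, (hL i).2⟩, j, ⟨r, hr⟩), rfl⟩

/-- The generators are in `T`. Proof: `Fg.ch`, `Lp.chD`, `Lp.fx`, `Sm.memT'`. -/
theorem gmR_T (hU : W.U K₁) (hE : W.Ex K₁ K₁) (f : ∀ i, Fg (X i) K₁ (κ i)) (R : Finset (W.O K₁))
    (N : ℕ) (i₀ : ι) {g : G} (hg : g ∈ GmR S f R N i₀) : g ∈ S.T := by
  have := W.fd hU
  obtain ⟨L, j, r, hL, -, rfl⟩ := hg
  exact Sm.memT' (fun k => (X k).fx hU ((X k).chD hU ((f k).ch hE _) (hL k).1 (dvd_refl _)))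
    ((X i₀).fx hU ((X i₀).chD hU ((f i₀).ch hE _) (hL i₀).1 (dvd_mul_right _ _)))

end CV
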