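import Pool.Agent.Lib.MP_f80667_ag.Ctf.SC3

/-! # The units are moved to one entry -/

set_option autoImplicit false

open PE Finset Polynomial Function

namespace CV

variable {K Ω : Type} [Field K] [CharZero K] [Field Ω] [Algebra K Ω] [IsAlgClosure K Ω]
  {ι : Type} [DecidableEq ι] {A : ι → Type} {G : Type} [∀ i, AddCommGroup (A i)] [AddCommGroup G]
  [∀ i, DistribMulAction (Ω ≃ₐ[K] Ω) (A i)] {W : Tw K Ω} {p e : ℕ}
  {X : ∀ i, Lp W p e (A i)} {K₁ : IntermediateField K Ω} {κ : ι → ℕ} {S : Sm K Ω A G} {n : ℕ}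

/-- The units of the entries in `s` may be moved to the entry `i₀`. Proof: `Finset.induction_on s`, one step is `bal_r` with
`i = i₀`, `j = k`, `x = u i₀ * ∏ k ∈ s, u k`, `u = 1`, `v = u k`, `y = 1`, `c` the present tuple (`hc` from `(f k).ch`). -/
theorem core_s [Fintype ι] (H : Rm X S) (hU : W.U K₁) (f : ∀ i, Fg (X i) K₁ (κ i))
    {M : IntermediateField K Ω} (hM : W.Ex K₁ M) {L : ι → ℕ} (hL : ∀ k, L k ≠ 0)
    (j : ∀ i, Fin (κ i)) (u : ι → W.O M) (i₀ : ι) (s : Finset ι) (hs : i₀ ∉ s) :
    S.sy M (fun i => (f i).α M (j i) (W.π M ^ L i * u i)) -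
      S.sy M (update (fun i => (f i).α M (j i) (W.π M ^ L i * if i ∈ s then 1 else u i)) i₀
        ((f i₀).α M (j i₀) (W.π M ^ L i₀ * (u i₀ * ∏ k ∈ s, u k)))) ∈
      Fr X S n (∑ k, L k + 1) := by
  have hUM : W.U M := W.up hU hM
  induction s using Finset.induction_on with
  | empty =>
    have h : (update (fun i => (f i).α M (j i) (W.π M ^ L i *
        if i ∈ (∅ : Finset ι) then 1 else u i)) i₀
        ((f i₀).α M (j i₀) (W.π M ^ L i₀ * (u i₀ * ∏ k ∈ (∅ : Finset ι), u k)))) =
        fun i => (f i).α M (j i) (W.π M ^ L i * u i) := by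
      funext i
      rcases eq_or_ne i i₀ with hi | hi
      · subst hi
        rw [update_self, prod_empty, mul_one]
      · rw [update_of_ne hi, if_neg (notMem_empty i)]
    rw [h, sub_self]
    exact zero_mem _
  | insert k s hk ih =>
    have hs' : i₀ ∉ s := fun h => hs (mem_insert_of_mem h)
    have hki : i₀ ≠ k := fun h => hs (by rw [h]; exact mem_insert_self k s)
    have h1 := ih hs'
    have h2 := bal_r (n := n) H hUM hki hL
      (c := fun i => (f i).α M (j i) (W.π M ^ L i * if i ∈ s then 1 else u i))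
      (fun k' => ⟨_, (f k').ch hM (j k'), _, dvd_mul_right _ _, rfl⟩)
      ((f i₀).ch hM (j i₀)) ((f k).ch hM (j k)) (u i₀ * ∏ k ∈ s, u k) 1 1 (u k)
    have e1 : ud (fun i => (f i).α M (j i) (W.π M ^ L i * if i ∈ s then 1 else u i)) i₀ k
        ((f i₀).α M (j i₀) (W.π M ^ L i₀ * ((u i₀ * ∏ k ∈ s, u k) * 1)))
        ((f k).α M (j k) (W.π M ^ L k * (1 * u k))) =
        update (fun i => (f i).α M (j i) (W.π M ^ L i * if i ∈ s then 1 else u i)) i₀
          ((f i₀).α M (j i₀) (W.π M ^ L i₀ * (u i₀ * ∏ k ∈ s, u k))) := by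
      funext i
      rcases eq_or_ne i k with hi | hi
      · subst hi
        rw [ud_j, update_of_ne hki.symm, if_neg hk, one_mul]
      · rcases eq_or_ne i i₀ with hi' | hi'
        · subst hi'
          rw [ud_i hki, update_self, mul_one]
        · rw [ud_k hi' hi, update_of_ne hi']
    have e2 : ud (fun i => (f i).α M (j i) (W.π M ^ L i * if i ∈ s then 1 else u i)) i₀ k
        ((f i₀).α M (j i₀) (W.π M ^ L i₀ * ((u i₀ * ∏ k ∈ s, u k) * 1 * u k)))
        ((f k).α M (j k) (W.π M ^ L k * 1)) =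
        update (fun i => (f i).α M (j i) (W.π M ^ L i *
          if i ∈ insert k s then 1 else u i)) i₀
          ((f i₀).α M (j i₀) (W.π M ^ L i₀ * (u i₀ * ∏ k ∈ insert k s, u k))) := by
      funext i
      rcases eq_or_ne i k with hi | hi
      · subst hi
        rw [ud_j, update_of_ne hki.symm, if_pos (mem_insert_self _ _)]
      · rcases eq_or_ne i i₀ with hi' | hi'
        · subst hi'
          rw [ud_i hki, update_self, prod_insert hk]
          congr 2
          ring
        · rw [ud_k hi' hi, update_of_ne hi']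
          by_cases his : i ∈ s
          · rw [if_pos his, if_pos (mem_insert_of_mem his)]
          · rw [if_neg his, if_neg fun h => his ((mem_insert.1 h).resolve_left hi)]
    rw [e1, e2] at h2
    have h3 := add_mem h1 h2
    rwa [sub_add_sub_cancel] at h3

end CV
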