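import Pool.Agent.Lib.MP_f80667_ag.Ctf.SD
import Pool.Agent.Lib.MP_f80667_ag.Ctf.SD2

/-! # Symbols in the distinguished charts -/

set_option autoImplicit false

open PE Finset Polynomial Function

namespace CV

variable {K Ω : Type} [Field K] [CharZero K] [Field Ω] [Algebra K Ω] [IsAlgClosure K Ω]
  {ι : Type} [DecidableEq ι] {A : ι → Type} {G : Type} [∀ i, AddCommGroup (A i)] [AddCommGroup G]
  [∀ i, DistribMulAction (Ω ≃ₐ[K] Ω) (A i)] {W : Tw K Ω} {p e : ℕ}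
  {X : ∀ i, Lp W p e (A i)} {K₁ : IntermediateField K Ω} {κ : ι → ℕ} {S : Sm K Ω A G} {n : ℕ}

/-- Changing the entry `i₀` by an element of the next level. -/
private theorem sd3_next [Fintype ι] (hN : NulS X S) (hU : W.U K₁) {L : ι → ℕ}
    (hL : ∀ k, L k ≠ 0) {c : ∀ i, A i} (hc : ∀ i, c i ∈ (X i).D K₁ (L i)) {i₀ : ι} {z : A i₀}
    (hz : z ∈ (X i₀).D K₁ (L i₀ + 1) ⊔ (X i₀).Nl K₁) :
    Fx K₁ z ∧ S.sy K₁ (update c i₀ z) ∈ Fr X S n (∑ k, L k + 1) := by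
  have := W.fd hU
  have hcf : ∀ k, Fx K₁ (c k) := fun k => (X k).fx hU (hc k)
  obtain ⟨z₁, h₁, z₂, h₂, rfl⟩ := AddSubgroup.mem_sup.1 hz
  have h3 := (X i₀).fx hU h₁
  have h4 := (X i₀).nx hU h₂
  refine ⟨h3.add h4, ?_⟩
  rw [S.add K₁ c i₀ z₁ z₂ hcf h3 h4, hN K₁ c i₀ z₂ hU hcf h₂, add_zero]
  refine fr_mem (L := update L i₀ (L i₀ + 1)) hU (fun i => ?_) (fun i => ?_) ?_
  · rcases eq_or_ne i i₀ with h | h
    · subst h
      rw [update_self]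
      exact Nat.succ_ne_zero _
    · rw [update_of_ne h]
      exact hL i
  · rcases eq_or_ne i i₀ with h | h
    · subst h
      rw [update_self, update_self]
      exact h₁
    · rw [update_of_ne h, update_of_ne h]
      exact hc i
  · rw [Finset.sum_update_of_mem (Finset.mem_univ _),
      ← Finset.add_sum_erase Finset.univ L (Finset.mem_univ i₀), Finset.sdiff_singleton_eq_erase]
    omega

/-- Symbols of displacements in the distinguished charts. Proof: as `fg_core`: `core_s` with `s = univ \ {i₀}`, `Fg.pw`: the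
entries different from `i₀` are over `K₁`, the projection formula `S.nm`, `(f i₀).nm`, a representative of the leading
coefficient (`(X i₀).add`); errors by `fr_mem`. -/
theorem core_r [Fintype ι] (H : Rm X S) (hU : W.U K₁) (hE : W.Ex K₁ K₁)
    (f : ∀ i, Fg (X i) K₁ (κ i)) {R : Finset (W.O K₁)}
    (hR : ∀ x : W.O K₁, ∃ r ∈ R, W.π K₁ ∣ x - r) {N : ℕ} (i₀ : ι) {M : IntermediateField K Ω}
    (hM : W.Ex K₁ M) {L : ι → ℕ} (hL : ∀ k, L k ≠ 0 ∧ L k < N) (j : ∀ i, Fin (κ i))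
    {x : ι → W.O M} (hx : ∀ i, W.π M ^ L i ∣ x i) :
    S.sy M (fun i => (f i).α M (j i) (x i)) ∈
      AddSubgroup.closure (GmR S f R N i₀) ⊔ Fr X S n (∑ k, L k + 1) := by
  have hUM : W.U M := W.up hU hM
  have := W.fd hU
  have := W.fd hUM
  have hL0 : ∀ k, L k ≠ 0 := fun k => (hL k).1
  choose u hu using hx
  have e0 : (fun i => (f i).α M (j i) (x i)) = fun i => (f i).α M (j i) (W.π M ^ L i * u i) := by
    funext i
    rw [hu i]
  rw [e0]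
  have h1 := core_s (n := n) H hU f hM hL0 j u i₀ (univ.erase i₀) (notMem_erase i₀ univ)
  obtain ⟨v, hv⟩ : ∃ v, v = u i₀ * ∏ k ∈ univ.erase i₀, u k := ⟨_, rfl⟩
  rw [← hv] at h1
  obtain ⟨c, hc⟩ : ∃ c : ∀ i, A i, c = fun i => (f i).α K₁ (j i) (W.π K₁ ^ L i) := ⟨_, rfl⟩
  have hcD : ∀ i, c i ∈ (X i).D K₁ (L i) := fun i => by
    rw [hc]
    exact (X i).chD hU ((f i).ch hE (j i)) (hL0 i) (dvd_refl _)
  have hcf : ∀ i, Fx K₁ (c i) := fun i => (X i).fx hU (hcD i)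
  have e1 : update (fun i => (f i).α M (j i) (W.π M ^ L i *
      if i ∈ univ.erase i₀ then 1 else u i)) i₀ ((f i₀).α M (j i₀) (W.π M ^ L i₀ * v)) =
      update c i₀ ((f i₀).α M (j i₀) (W.π M ^ L i₀ * v)) := by
    funext i
    rcases eq_or_ne i i₀ with h | h
    · subst h
      rw [update_self, update_self]
    · rw [update_of_ne h, update_of_ne h, if_pos (mem_erase.2 ⟨h, mem_univ i⟩), mul_one,
        (f i).pw hM (j i) (L i) (hL0 i), hc]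
  rw [e1] at h1
  have hdv := dvd_mul_right (W.π M ^ L i₀) v
  have haf := (X i₀).fx hUM ((X i₀).chD hUM ((f i₀).ch hM (j i₀)) (hL0 i₀) hdv)
  have h2 := S.nm K₁ M c i₀ _ (W.le hM) hcf haf
  obtain ⟨z, ⟨w, rfl⟩, hz⟩ := (f i₀).nm hM (j i₀) (hL0 i₀) hdv
  have hNf : Fx K₁ (Nm K₁ M ((f i₀).α M (j i₀) (W.π M ^ L i₀ * v))) := nm_fx (W.le hM) haf
  obtain ⟨r, hr, t, ht⟩ := hR w
  have h4 := (X i₀).add hU ((f i₀).ch hE (j i₀)) (hL0 i₀) (Nat.succ_ne_zero (L i₀))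
    (dvd_mul_right (W.π K₁ ^ L i₀) r) (dvd_mul_right (W.π K₁ ^ (L i₀ + 1)) t)
  have e2 : W.π K₁ ^ L i₀ * r + W.π K₁ ^ (L i₀ + 1) * t = W.π K₁ ^ L i₀ * w := by
    rw [show w = r + W.π K₁ * t by rw [← ht]; ring]
    ring
  rw [e2] at h4
  have h5 := (X i₀).chD hU ((f i₀).ch hE (j i₀)) (Nat.succ_ne_zero (L i₀))
    (dvd_mul_right (W.π K₁ ^ (L i₀ + 1)) t)
  have h6 : (f i₀).α K₁ (j i₀) (W.π K₁ ^ L i₀ * w) - (f i₀).α K₁ (j i₀) (W.π K₁ ^ L i₀ * r) ∈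
      (X i₀).D K₁ (L i₀ + 1) := by
    have h7 := ((X i₀).D K₁ (L i₀ + 1)).add_mem ((X i₀).anti' hU (by omega) h4) h5
    rwa [sub_add_cancel] at h7
  have hrf := (X i₀).fx hU ((X i₀).chD hU ((f i₀).ch hE (j i₀)) (hL0 i₀)
    (dvd_mul_right (W.π K₁ ^ L i₀) r))
  have h8 : Nm K₁ M ((f i₀).α M (j i₀) (W.π M ^ L i₀ * v)) -
      (f i₀).α K₁ (j i₀) (W.π K₁ ^ L i₀ * r) ∈ (X i₀).D K₁ (L i₀ + 1) ⊔ (X i₀).Nl K₁ := by
    have h9 := ((X i₀).D K₁ (L i₀ + 1) ⊔ (X i₀).Nl K₁).add_mem hz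
      (AddSubgroup.mem_sup_left (T := (X i₀).Nl K₁) h6)
    rwa [sub_add_sub_cancel] at h9
  have h10 := (sd3_next (n := n) H.nul hU hL0 hcD h8).2
  rw [Sm.sub hcf hNf hrf, ← h2] at h10
  have h11 : S.sy K₁ (update c i₀ ((f i₀).α K₁ (j i₀) (W.π K₁ ^ L i₀ * r))) ∈
      AddSubgroup.closure (GmR S f R N i₀) :=
    AddSubgroup.subset_closure ⟨L, j, r, hL, hr, by rw [hc]⟩
  have h12 := add_mem (AddSubgroup.mem_sup_right
    (S := AddSubgroup.closure (GmR S f R N i₀)) (add_mem h1 h10))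
    (AddSubgroup.mem_sup_left (T := Fr X S n (∑ k, L k + 1)) h11)
  rwa [sub_add_sub_cancel, sub_add_cancel] at h12

end CV
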