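import Pool.Agent.Lib.MP_f80667_ag.Ctf.SD3

/-! # Symbols of chart displacements -/

set_option autoImplicit false

open PE Finset Polynomial Function

namespace CV

variable {K Ω : Type} [Field K] [CharZero K] [Field Ω] [Algebra K Ω] [IsAlgClosure K Ω]
  {ι : Type} [DecidableEq ι] {A : ι → Type} {G : Type} [∀ i, AddCommGroup (A i)] [AddCommGroup G]
  [∀ i, DistribMulAction (Ω ≃ₐ[K] Ω) (A i)] {W : Tw K Ω} {p e : ℕ}
  {X : ∀ i, Lp W p e (A i)} {K₁ : IntermediateField K Ω} {κ : ι → ℕ} {S : Sm K Ω A G} {n : ℕ}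

/-- Symbols of chart displacements over the unramified extensions of `K₁`. Proof: as `fg_ch`: `Fg.gen` for the entries one
after another (induction on the set of the entries which are not yet in a distinguished chart), then `core_r`. -/
theorem ch_r [Fintype ι] (H : Rm X S) (hU : W.U K₁) (hE : W.Ex K₁ K₁)
    (f : ∀ i, Fg (X i) K₁ (κ i)) {R : Finset (W.O K₁)}
    (hR : ∀ x : W.O K₁, ∃ r ∈ R, W.π K₁ ∣ x - r) {N : ℕ} (i₀ : ι) {M : IntermediateField K Ω}
    (hM : W.Ex K₁ M) {L : ι → ℕ} (hL : ∀ k, L k ≠ 0 ∧ L k < N) {α : ∀ i, W.O M → A i}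
    (hα : ∀ i, α i ∈ (X i).Ch M) {x : ι → W.O M} (hx : ∀ i, W.π M ^ L i ∣ x i) :
    S.sy M (fun i => α i (x i)) ∈
      AddSubgroup.closure (GmR S f R N i₀) ⊔ Fr X S n (∑ k, L k + 1) := by
  have hUM := W.up hU hM
  have := W.fd hUM
  obtain ⟨Z, hZ⟩ : ∃ Z, Z = AddSubgroup.closure (GmR S f R N i₀) ⊔ Fr X S n (∑ k, L k + 1) :=
    ⟨_, rfl⟩
  have hF : Fr X S n (∑ k, L k + 1) ≤ Z := hZ ▸ le_sup_right
  rw [← hZ]
  have key : ∀ (s : Finset ι) (a : ∀ i, A i),
      (∀ i, ∃ α' ∈ (X i).Ch M, ∃ y, W.π M ^ L i ∣ y ∧ a i = α' y) →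
      (∀ i, i ∉ s → ∃ (j : Fin (κ i)) (y : W.O M), W.π M ^ L i ∣ y ∧ a i = (f i).α M j y) →
      S.sy M a ∈ Z := by
    intro s
    induction s using Finset.induction_on with
    | empty =>
      intro a _ h
      choose j y hy hay using fun i => h i (Finset.notMem_empty i)
      have e : a = fun i => (f i).α M (j i) (y i) := funext hay
      rw [e, hZ]
      exact core_r H hU hE f hR i₀ hM hL j hy
    | insert k s hk ih =>
      intro a h1 h2
      have hD : ∀ i, a i ∈ (X i).D M (L i) := by
        intro i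
        obtain ⟨α', hα', y, hy, e⟩ := h1 i
        rw [e]
        exact (X i).chD hUM hα' (hL i).1 hy
      have hfx : ∀ i, Fx M (a i) := fun i => (X i).fx hUM (hD i)
      obtain ⟨α', hα', y, hy, e⟩ := h1 k
      obtain ⟨u, hu, hu'⟩ := (f k).gen hM (hL k).1 hα' hy
      rw [← e] at hu'
      have hfj : ∀ j, Fx M ((f k).α M j (u j)) := fun j =>
        (X k).fx hUM ((X k).chD hUM ((f k).ch hM j) (hL k).1 (hu j))
      obtain ⟨s1, s2⟩ := Sm.sum (S := S) (i := k) hfx Finset.univ
        (fun j => (f k).α M j (u j)) hfj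
      have e1 : S.sy M a = S.sy M (update a k (a k - ∑ j, (f k).α M j (u j))) +
          ∑ j, S.sy M (update a k ((f k).α M j (u j))) := by
        rw [← s2, ← S.add M a k _ _ hfx ((hfx k).sub s1) s1, sub_add_cancel, update_eq_self]
      rw [e1]
      refine Z.add_mem ?_ (Z.sum_mem fun j _ => ?_)
      · obtain ⟨d, hd, v, hv, hdv⟩ := AddSubgroup.mem_sup.1 hu'
        rw [← hdv, S.add M a k d v hfx ((X k).fx hUM hd) ((X k).nx hUM hv),
          H.nul M a k v hUM hfx hv, add_zero]
        refine hF (fr_mem (L := update L k (L k + 1)) hUM ?_ ?_ ?_)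
        · intro i
          rcases eq_or_ne i k with rfl | hi
          · rw [update_self]
            exact Nat.succ_ne_zero _
          · rw [update_of_ne hi]
            exact (hL i).1
        · intro i
          rcases eq_or_ne i k with rfl | hi
          · rw [update_self, update_self]
            exact hd
          · rw [update_of_ne hi, update_of_ne hi]
            exact hD i
        · rw [Finset.sum_update_of_mem (Finset.mem_univ k),
            ← Finset.add_sum_erase Finset.univ L (Finset.mem_univ k),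
            Finset.sdiff_singleton_eq_erase]
          omega
      · apply ih
        · intro i
          rcases eq_or_ne i k with rfl | hi
          · exact ⟨_, (f i).ch hM j, u j, hu j, update_self _ _ _⟩
          · obtain ⟨α₁, h3, y₁, h4, h5⟩ := h1 i
            exact ⟨α₁, h3, y₁, h4, by rw [update_of_ne hi, h5]⟩
        · intro i hi'
          rcases eq_or_ne i k with rfl | hi
          · exact ⟨j, u j, hu j, update_self _ _ _⟩
          · obtain ⟨j₁, y₁, h4, h5⟩ := h2 i (fun h => by
              rcases Finset.mem_insert.1 h with h | h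
              · exact hi h
              · exact hi' h)
            exact ⟨j₁, y₁, h4, by rw [update_of_ne hi, h5]⟩
  exact key Finset.univ (fun i => α i (x i)) (fun i => ⟨α i, hα i, x i, hx i, rfl⟩)
    (fun i hi => absurd (Finset.mem_univ i) hi)

end CV
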