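import Pool.Agent.Lib.MP_f80667_ag.Ctf.SD4
import Pool.Agent.Lib.MP_f80667_ag.Ctf.SB1

/-! # One level -/

set_option autoImplicit false

open PE Finset Polynomial Function

namespace CV

variable {K Ω : Type} [Field K] [CharZero K] [Field Ω] [Algebra K Ω] [IsAlgClosure K Ω]
  {ι : Type} [DecidableEq ι] {A : ι → Type} {G : Type} [∀ i, AddCommGroup (A i)] [AddCommGroup G]
  [∀ i, DistribMulAction (Ω ≃ₐ[K] Ω) (A i)] {W : Tw K Ω} {p e : ℕ}
  {X : ∀ i, Lp W p e (A i)} {K₁ : IntermediateField K Ω} {κ : ι → ℕ} {S : Sm K Ω A G} {n : ℕ}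

/-- One level. Proof: as `fg_step`: `gen_one` for the entry `i₀` over `M`, `dir` for `M'`, `(X i₀).nm`, `S.nm`, `gen_all`,
`ch_r`; if the sum of the levels is larger than `s` there is nothing to do. -/
theorem step_r [Fintype ι] (H : Rm X S) (hU : W.U K₁) (hE : W.Ex K₁ K₁)
    (dir : ∀ M, W.U M → ∃ M', W.Ex M M' ∧ W.Ex K₁ M') (f : ∀ i, Fg (X i) K₁ (κ i))
    {R : Finset (W.O K₁)} (hR : ∀ x : W.O K₁, ∃ r ∈ R, W.π K₁ ∣ x - r) {N s : ℕ} (i₀ : ι)
    (hs : s < N) : Fr X S n s ≤ AddSubgroup.closure (GmR S f R N i₀) ⊔ Fr X S n (s + 1) := by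
  obtain ⟨Z, hZ⟩ : ∃ Z, Z = AddSubgroup.closure (GmR S f R N i₀) ⊔ Fr X S n (s + 1) := ⟨_, rfl⟩
  rw [← hZ]
  have hF : Fr X S n (s + 1) ≤ Z := hZ ▸ le_sup_right
  refine sup_le ?_ ((pT_fr (s + 1)).trans hF)
  rw [AddSubgroup.closure_le]
  rintro g ⟨M, L, a, hM, hL, ha, hsum, rfl⟩
  rcases hsum.lt_or_eq with h | h
  · exact hF (fr_mem hM hL ha h)
  subst h
  have hLN : ∀ k, L k ≠ 0 ∧ L k < N := fun k =>
    ⟨hL k, (Finset.single_le_sum (f := L) (fun i _ => Nat.zero_le _) (Finset.mem_univ k)).trans_lt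
      hs⟩
  have hfx : ∀ k, Fx M (a k) := fun k => (X k).fx hM (ha k)
  have key : S.sy M (update a i₀ (a i₀)) ∈ Z := by
    refine gen_one H.nul hM hfx (hL i₀) (ha i₀) fun M₁ α y hM₁ hα hy => ?_
    have hU₁ := W.up hM hM₁
    obtain ⟨M₂, hM₂, hK₂⟩ := dir M₁ hU₁
    have hU₂ := W.up hU₁ hM₂
    have := W.fd hU₁
    have := W.fd hU₂
    have hle := W.le hM₂
    obtain ⟨a', ha', hd⟩ := (X i₀).nm hU₁ hM₂ (hL i₀) hα hy
    have hfx₁ : ∀ k, Fx M₁ (a k) := fun k => (X k).fx hU₁ ((X k).res hM hM₁ (hL k) (ha k))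
    have h1 := (X i₀).fx hU₁ ((X i₀).chD hU₁ hα (hL i₀) hy)
    have h3 := (X i₀).fx hU₂ ha'
    have h4 : Fx M₁ (Nm M₁ M₂ a') := nm_fx hle h3
    have e1 : S.sy M₁ (update a i₀ (α y)) = S.sy M₂ (update a i₀ a') +
        S.sy M₁ (update a i₀ (α y - Nm M₁ M₂ a')) := by
      rw [Sm.sub hfx₁ h1 h4, S.nm M₁ M₂ a i₀ a' hle hfx₁ h3]
      abel
    rw [e1]
    refine Z.add_mem ?_ (hF ?_)
    · refine gen_all (L := L) H.nul H.tr hU hL (fun M₃ α' x' hK₃ hα' hx' => ?_) hK₂ fun k => ?_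
      · rw [hZ]
        exact ch_r H hU hE f hR i₀ hK₃ hLN hα' hx'
      · rcases eq_or_ne k i₀ with rfl | hk
        · rwa [update_self]
        · rw [update_of_ne hk]
          exact (X k).res hU₁ hM₂ (hL k) ((X k).res hM hM₁ (hL k) (ha k))
    · refine fr_mem (L := update L i₀ (L i₀ + 1)) hU₁ (fun k => ?_) (fun k => ?_) ?_
      · rcases eq_or_ne k i₀ with rfl | hk
        · rw [update_self]
          exact Nat.succ_ne_zero _
        · rw [update_of_ne hk]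
          exact hL k
      · rcases eq_or_ne k i₀ with rfl | hk
        · rwa [update_self, update_self]
        · rw [update_of_ne hk, update_of_ne hk]
          exact (X k).res hM hM₁ (hL k) (ha k)
      · rw [Finset.sum_update_of_mem (Finset.mem_univ i₀),
          ← Finset.add_sum_erase Finset.univ L (Finset.mem_univ i₀), Finset.sdiff_singleton_eq_erase]
        omega
  rwa [update_eq_self] at key

end CV
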