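import Pool.Agent.Lib.MP_f80667_ag.Ctf.SD5
import Pool.Agent.Lib.MP_f80667_ag.Ctf.SD1
import Pool.Agent.Lib.MP_f80667_ag.Ctf.SB3

/-! # Finitely many generators for symbols with several entries -/

set_option autoImplicit false

open PE Finset Polynomial Function

namespace CV

variable {K Ω : Type} [Field K] [CharZero K] [Field Ω] [Algebra K Ω] [IsAlgClosure K Ω]
  {ι : Type} [DecidableEq ι] {A : ι → Type} {G : Type} [∀ i, AddCommGroup (A i)] [AddCommGroup G]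
  [∀ i, DistribMulAction (Ω ≃ₐ[K] Ω) (A i)] {W : Tw K Ω} {p e : ℕ}
  {X : ∀ i, Lp W p e (A i)} {K₁ : IntermediateField K Ω} {κ : ι → ℕ} {S : Sm K Ω A G} {n : ℕ}

/-- `T` is generated by finitely many symbols and `p ^ n T`. Proof: `top_r`, `step_r` iterated, `fr_end`. -/
theorem fm_T [Fintype ι] [Nontrivial ι] (H : Rm X S) (n : ℕ) (hU : W.U K₁) (hE : W.Ex K₁ K₁)
    (dir : ∀ M, W.U M → ∃ M', W.Ex M M' ∧ W.Ex K₁ M') (f : ∀ i, Fg (X i) K₁ (κ i))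
    (hR : ∃ R : Finset (W.O K₁), ∀ x : W.O K₁, ∃ r ∈ R, W.π K₁ ∣ x - r) :
    ∃ F : Finset G, (∀ x ∈ F, x ∈ S.T) ∧
      S.T ≤ AddSubgroup.closure (F : Set G) ⊔ mulT (p ^ n) S.T := by
  obtain ⟨R, hR⟩ := hR
  obtain ⟨i₀⟩ : Nonempty ι := inferInstance
  obtain ⟨N, hN⟩ : ∃ N, N = Fintype.card ι + Fintype.card ι * ((n + 1) * e + 1) := ⟨_, rfl⟩
  have hF : (GmR S f R N i₀).Finite := gmR_fin f R N i₀
  refine ⟨hF.toFinset, fun x hx => gmR_T hU hE f R N i₀ (hF.mem_toFinset.1 hx), ?_⟩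
  rw [hF.coe_toFinset]
  have h : ∀ d, Fintype.card ι + d ≤ N →
      S.T ≤ AddSubgroup.closure (GmR S f R N i₀) ⊔ Fr X S n (Fintype.card ι + d) := by
    intro d
    induction d with
    | zero =>
      intro _
      exact le_sup_of_le_right (top_r H.prime.ne_zero H.nul H.top)
    | succ d ih =>
      intro hd
      refine (ih (by omega)).trans (sup_le le_sup_left ?_)
      exact step_r H hU hE dir f hR i₀ (by omega)
  have h1 := h (N - Fintype.card ι) (by omega)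
  refine h1.trans (sup_le_sup_left (fr_end H.nul ?_) _)
  rw [hN]
  omega

/-- `T` modulo `p ^ n T` is finite. -/
theorem fm_fin [Fintype ι] [Nontrivial ι] (H : Rm X S) (n : ℕ) (hU : W.U K₁) (hE : W.Ex K₁ K₁)
    (dir : ∀ M, W.U M → ∃ M', W.Ex M M' ∧ W.Ex K₁ M') (f : ∀ i, Fg (X i) K₁ (κ i))
    (hR : ∃ R : Finset (W.O K₁), ∀ x : W.O K₁, ∃ r ∈ R, W.π K₁ ∣ x - r) :
    ∃ E : Set G, E.Finite ∧ (∀ x ∈ E, x ∈ S.T) ∧
      ∀ g ∈ S.T, ∃ x ∈ E, g - x ∈ mulT (p ^ n) S.T := by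
  obtain ⟨F, hF, h⟩ := fm_T H n hU hE dir f hR
  obtain ⟨E, hE, h1⟩ := fin_of_gen (pow_ne_zero n H.prime.ne_zero) hF h
  refine ⟨E ∩ {x | x ∈ S.T}, hE.inter_of_left _, fun x hx => hx.2, fun g hg => ?_⟩
  obtain ⟨x, hx, h2⟩ := h1 g hg
  refine ⟨x, ⟨hx, ?_⟩, h2⟩
  have h3 : g - x ∈ S.T := by
    obtain ⟨t, ht, h4⟩ := h2
    rw [← h4]
    exact S.T.nsmul_mem ht _
  have h5 := S.T.sub_mem hg h3
  rwa [sub_sub_cancel] at h5

end CV
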