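import Pool.Agent.Lib.MP_f80667_ag.Cv.NfD2
import Pool.Agent.Lib.MP_f80667_ag.Cv.Sg

/-!
# The exterior product of several cycles

`bxn a`: the exterior product of the formal sums `a i` of elements of `Y i`.
-/

set_option autoImplicit false

open Finset Function

namespace CV

section box

variable {ι : Type} [Fintype ι] {Y : ι → Type}

open Classical in
/-- The exterior product. -/
noncomputable def bxn (a : ∀ i, Y i →₀ ℤ) : (∀ i, Y i) →₀ ℤ :=
  Finsupp.onFinset (Fintype.piFinset fun i => (a i).support) (fun y => ∏ i, a i (y i))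
    fun _ h => Fintype.mem_piFinset.2 fun i => Finsupp.mem_support_iff.2 fun h0 =>
      h (Finset.prod_eq_zero (Finset.mem_univ i) h0)

theorem bxn_apply (a : ∀ i, Y i →₀ ℤ) (y : ∀ i, Y i) : bxn a y = ∏ i, a i (y i) := rfl

private theorem TA_split [DecidableEq ι] (a : ∀ i, Y i →₀ ℤ) (i : ι) (x : Y i →₀ ℤ)
    (y : ∀ i, Y i) :
    bxn (update a i x) y = x (y i) * ∏ j ∈ Finset.univ.erase i, a j (y j) := by
  rw [bxn_apply, ← Finset.mul_prod_erase Finset.univ _ (Finset.mem_univ i), update_self]
  refine congrArg _ (Finset.prod_congr rfl fun j hj => ?_)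
  rw [update_of_ne (Finset.ne_of_mem_erase hj)]

/-- Proof: `ext y`, `bxn_apply`, the product with the factor `i` split off (`Fintype.prod_eq_mul_prod_compl` or
`Finset.mul_prod_erase`), `update_self`, `update_of_ne`. -/
theorem bxn_add [DecidableEq ι] (a : ∀ i, Y i →₀ ℤ) (i : ι) (x x' : Y i →₀ ℤ) :
    bxn (update a i (x + x')) = bxn (update a i x) + bxn (update a i x') := by
  ext y
  rw [Finsupp.add_apply, TA_split, TA_split, TA_split, Finsupp.add_apply, add_mul]

theorem bxn_smul [DecidableEq ι] (a : ∀ i, Y i →₀ ℤ) (i : ι) (n : ℤ) (x : Y i →₀ ℤ) :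
    bxn (update a i (n • x)) = n • bxn (update a i x) := by
  ext y
  rw [Finsupp.smul_apply, TA_split, TA_split, Finsupp.smul_apply, smul_eq_mul, smul_eq_mul,
    mul_assoc]

theorem bxn_zero [DecidableEq ι] (a : ∀ i, Y i →₀ ℤ) (i : ι) : bxn (update a i 0) = 0 := by
  have h := bxn_add a i 0 0
  rw [add_zero] at h
  exact left_eq_add.1 h

end box

end CV
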