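import Pool.Agent.Lib.MP_f80667_ag.Ctf.TA

/-! # The exterior product of points -/

set_option autoImplicit false

open Finset Function

namespace CV

variable {ι : Type} [Fintype ι] {Y : ι → Type}

theorem bxn_single (y : ∀ i, Y i) : bxn (fun i => Finsupp.single (y i) 1) = Finsupp.single y 1 := by
  classical
  ext z
  rw [bxn_apply, Finsupp.single_apply]
  split_ifs with h
  · subst h
    refine Finset.prod_eq_one fun i _ => ?_
    rw [Finsupp.single_eq_same]
  · obtain ⟨i, hi⟩ := Function.ne_iff.1 h
    refine Finset.prod_eq_zero (Finset.mem_univ i) ?_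
    rw [Finsupp.single_apply, if_neg hi]

/-- A property of the exterior product which holds for tuples in the supports. Proof: `Finsupp.sum_single`, the support of
`bxn a` is in `piFinset`. -/
theorem bxn_mem {V : AddSubgroup ((∀ i, Y i) →₀ ℤ)} {a : ∀ i, Y i →₀ ℤ}
    (h : ∀ y : ∀ i, Y i, (∀ i, y i ∈ (a i).support) → Finsupp.single y 1 ∈ V) : bxn a ∈ V := by
  classical
  rw [← Finsupp.sum_single (bxn a), Finsupp.sum]
  refine AddSubgroup.sum_mem _ fun y hy => ?_
  have h1 : Finsupp.single y (bxn a y) = (bxn a y) • Finsupp.single y (1 : ℤ) := by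
    rw [Finsupp.smul_single, smul_eq_mul, mul_one]
  rw [h1]
  refine AddSubgroup.zsmul_mem _ (h y fun i => ?_) _
  rw [Finsupp.mem_support_iff] at hy ⊢
  intro h0
  apply hy
  rw [bxn_apply]
  exact Finset.prod_eq_zero (Finset.mem_univ i) h0

end CV
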