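import Pool.Agent.Lib.MP_f80667_ag.Ctf.TA1

/-! # The push-forward of an exterior product -/

set_option autoImplicit false

open Finset Function

namespace CV

variable {ι : Type} [Fintype ι] {Y : ι → Type}

/-- The push-forward of an exterior product. Proof: both sides are multilinear in `a`; evaluate at `z`:
`Finsupp.mapDomain` is the sum over the fibre, `Finset.prod_univ_sum`. Or: induction over the set of the entries which are
not of the form `single y 1` (`bxn_add`, `bxn_smul`, `Finsupp.induction_linear`), then `bxn_single`. -/
theorem bxn_map {Z : ι → Type} (g : ∀ i, Y i → Z i) (a : ∀ i, Y i →₀ ℤ) :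
    Finsupp.mapDomain (fun (y : ∀ i, Y i) i => g i (y i)) (bxn a) =
      bxn fun i => Finsupp.mapDomain (g i) (a i) := by
  classical
  ext z
  have h1 : ∀ i, Finsupp.mapDomain (g i) (a i) (z i) =
      ∑ y ∈ (a i).support, if g i y = z i then a i y else 0 := by
    intro i
    rw [Finsupp.mapDomain, Finsupp.sum_apply, Finsupp.sum]
    refine Finset.sum_congr rfl fun y _ => ?_
    rw [Finsupp.single_apply]
  rw [bxn_apply, Finset.prod_congr rfl fun i _ => h1 i, Finset.prod_univ_sum, Finsupp.mapDomain,
    Finsupp.sum_apply, Finsupp.sum]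
  have hsub : (bxn a).support ⊆ Fintype.piFinset fun i => (a i).support := by
    intro y hy
    rw [Finsupp.mem_support_iff, bxn_apply] at hy
    exact Fintype.mem_piFinset.2 fun i => Finsupp.mem_support_iff.2 fun h0 =>
      hy (Finset.prod_eq_zero (Finset.mem_univ i) h0)
  rw [Finset.sum_subset hsub]
  · refine Finset.sum_congr rfl fun y _ => ?_
    rw [Finsupp.single_apply, bxn_apply]
    by_cases h : (fun i => g i (y i)) = z
    · rw [if_pos h]
      refine Finset.prod_congr rfl fun i _ => ?_
      rw [if_pos (congrFun h i)]
    · rw [if_neg h]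
      obtain ⟨i, hi⟩ := Function.ne_iff.1 h
      exact (Finset.prod_eq_zero (Finset.mem_univ i) (if_neg hi)).symm
  · intro y _ hy
    rw [Finsupp.notMem_support_iff.1 hy, Finsupp.single_zero]
    rfl

end CV
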