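import Pool.Agent.Lib.MP_f80667_ag.Ctf.TA2

/-! # The push-forward of an exterior product to a factor -/

set_option autoImplicit false

open Finset Function

namespace CV

variable {ι : Type} [Fintype ι] {Y : ι → Type}

/-- The push-forward to one factor is `0` if another entry has degree `0`. Proof: for `x = single y 1` in the entry `i` the
push-forward of `bxn (update a i x)` does not depend on `y` (`bxn_map`, the factor `i` is mapped to a point), so it is
`deg x` times a constant. -/
theorem bxn_pr {a : ∀ i, Y i →₀ ℤ} {i k : ι} (hik : i ≠ k)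
    (h : (a i).sum (fun _ n => n) = 0) : Finsupp.mapDomain (fun y : ∀ i, Y i => y k) (bxn a) = 0 := by
  classical
  have key : ∀ y y' : Y i,
      Finsupp.mapDomain (fun y : ∀ i, Y i => y k) (bxn (update a i (Finsupp.single y 1))) =
        Finsupp.mapDomain (fun y : ∀ i, Y i => y k) (bxn (update a i (Finsupp.single y' 1))) := by
    intro y y'
    let g : ∀ j, Y j → Y j := update (fun j => (id : Y j → Y j)) i (fun _ => y')
    have h1 := bxn_map g (update a i (Finsupp.single y 1))
    have h2 : (fun j => Finsupp.mapDomain (g j) (update a i (Finsupp.single y 1) j)) =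
        update a i (Finsupp.single y' 1) := by
      funext j
      by_cases hj : j = i
      · subst hj
        simp [g, Finsupp.mapDomain_single]
      · simp [g, hj, Finsupp.mapDomain_id]
    rw [h2] at h1
    rw [← h1, ← Finsupp.mapDomain_comp]
    have h3 : ((fun y : ∀ i, Y i => y k) ∘ fun (y : ∀ i, Y i) i => g i (y i)) =
        fun y : ∀ i, Y i => y k := by
      funext z
      simp [g, hik.symm]
    rw [h3]
  let φ : (Y i →₀ ℤ) →+ (Y k →₀ ℤ) :=
    { toFun := fun x => Finsupp.mapDomain (fun y : ∀ i, Y i => y k) (bxn (update a i x))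
      map_zero' := by rw [bxn_zero, Finsupp.mapDomain_zero]
      map_add' := by
        intro x x'
        rw [bxn_add, Finsupp.mapDomain_add] }
  have h3 : φ (a i) = Finsupp.mapDomain (fun y : ∀ i, Y i => y k) (bxn a) := by
    show Finsupp.mapDomain (fun y : ∀ i, Y i => y k) (bxn (update a i (a i))) = _
    rw [update_eq_self]
  rw [← h3]
  by_cases h0 : a i = 0
  · rw [h0, map_zero]
  obtain ⟨y0, -⟩ := Finsupp.ne_iff.1 h0
  have h5 : ∀ (y : Y i) (n : ℤ), φ (Finsupp.single y n) = n • φ (Finsupp.single y0 1) := by
    intro y n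
    have h6 : Finsupp.single y n = n • Finsupp.single y (1 : ℤ) := by simp
    have h7 : φ (Finsupp.single y 1) = φ (Finsupp.single y0 1) := key y y0
    rw [h6, map_zsmul, h7]
  have h4 : φ (a i) = (a i).sum fun y n => φ (Finsupp.single y n) := by
    conv_lhs => rw [← (a i).sum_single]
    rw [map_finsuppSum]
  rw [h4, Finsupp.sum, Finset.sum_congr rfl fun y _ => h5 y _, ← Finset.sum_smul]
  have h8 : ∑ y ∈ (a i).support, (a i) y = 0 := h
  rw [h8, zero_smul]

end CV
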