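import Pool.Agent.Lib.MP_f80667_ag.Ctf.TA2
import Pool.Agent.Lib.MP_f80667_ag.Ctf.SA
import Pool.Agent.Lib.MP_f80667_ag.Cv.EtF

/-!
# The symbols on a product of curves

`bxc C a`: the exterior product of the `rd (a i)`. `smN C`: the symbols, the classes of the norms of `bxc C a`.
`tn C`: the projection of cycles to the symbols with all entries of degree `0`.
-/

set_option autoImplicit false

open ZC BE PE Polynomial IntermediateField Function

namespace CV

variable {F : Type} [Field F] {K Ω : Type} [Field K] [CharZero K] [Field Ω] [Algebra K Ω]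
  [Algebra F K] [Algebra F Ω] [IsScalarTower F K Ω] [IsAlgClosure K Ω]
  {ι : Type} [Fintype ι] [DecidableEq ι] (C : ι → Crv F)

/-- The exterior product of the cycles `rd (a i)`. -/
noncomputable def bxc (a : ∀ i, (C i).V.pt Ω →₀ ℤ) : (Vpi fun i => (C i).V).pt Ω →₀ ℤ :=
  bxn fun i => rd (C i).bp (a i)

omit [Field K] [CharZero K] [Algebra K Ω] [Algebra F K] [IsScalarTower F K Ω]
  [IsAlgClosure K Ω] in
theorem bxc_ud (a : ∀ i, (C i).V.pt Ω →₀ ℤ) (i : ι) (x : (C i).V.pt Ω →₀ ℤ) :
    bxc C (update a i x) = bxn (update (fun k => rd (C k).bp (a k)) i (rd (C i).bp x)) := by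
  unfold bxc
  congr 1
  funext k
  rcases eq_or_ne k i with rfl | hk
  · rw [update_self, update_self]
  · rw [update_of_ne hk, update_of_ne hk]

omit [Field K] [CharZero K] [Algebra K Ω] [Algebra F K] [IsScalarTower F K Ω]
  [IsAlgClosure K Ω] in
theorem bxc_add (a : ∀ i, (C i).V.pt Ω →₀ ℤ) (i : ι) (x y : (C i).V.pt Ω →₀ ℤ) :
    bxc C (update a i (x + y)) = bxc C (update a i x) + bxc C (update a i y) := by
  rw [bxc_ud, bxc_ud, bxc_ud, map_add]
  exact bxn_add _ _ _ _

/-- The action of the Galois group. Proof: `bxn_map`, `rd_smul`, `smul_def`. -/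
theorem bxc_smul (γ : Ω ≃ₐ[K] Ω) (a : ∀ i, (C i).V.pt Ω →₀ ℤ) :
    γ • bxc C a = bxc C fun i => γ • a i := by
  refine (bxn_map (fun i => (C i).V.act γ) fun i => rd (C i).bp (a i)).trans ?_
  unfold bxc
  congr 1
  funext i
  exact rd_smul (C i).bp γ (a i)

/-- Norms in one entry. Proof: `hom_nm` for the homomorphism `x ↦ bxc C (update a i x)` (`bxc_add`), which is equivariant for
the group of `M` (`bxc_smul`, `ha`). -/
theorem bxc_nm {M N : IntermediateField K Ω} [FiniteDimensional K N] (h : M ≤ N)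
    {a : ∀ i, (C i).V.pt Ω →₀ ℤ} (ha : ∀ k, Fx M (a k)) (i : ι) (x : (C i).V.pt Ω →₀ ℤ) :
    bxc C (update a i (Nm M N x)) = Nm M N (bxc C (update a i x)) := by
  refine hom_nm (AddMonoidHom.mk' (fun x => bxc C (update a i x)) (bxc_add C a i)) h
    (fun γ hγ y => ?_) x
  change bxc C (update a i (γ • y)) = γ • bxc C (update a i y)
  rw [bxc_smul]
  congr 1
  funext k
  rcases eq_or_ne k i with rfl | hk
  · rw [update_self, update_self]
  · rw [update_of_ne hk, update_of_ne hk]
    exact (ha k γ hγ).symm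

theorem bxc_fx {M : IntermediateField K Ω} {a : ∀ i, (C i).V.pt Ω →₀ ℤ}
    (ha : ∀ k, Fx M (a k)) : Fx M (bxc C a) := fun γ hγ => by
  rw [bxc_smul]
  congr 1
  exact funext fun k => ha k γ hγ

/-- **The symbols.** -/
noncomputable def smN : Sm K Ω (fun i => (C i).V.pt Ω →₀ ℤ)
    (((Vpi fun i => (C i).V).pt Ω →₀ ℤ) ⧸ (Vpi fun i => (C i).V).ratEq K Ω) where
  sy M a := QuotientAddGroup.mk (Nm (K := K) ⊥ M (bxc C a))
  add M _ a i x y _ _ _ := by
    rw [bxc_add, nm_add bot_le]
    rfl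
  nm M N _ a i x h ha hx := by
    rw [bxc_nm C h ha, ← nm_tr bot_le h (bxc_fx C (fx_ud (fun k => (ha k).mono h) hx))]

theorem smN_sy (M : IntermediateField K Ω) (a : ∀ i, (C i).V.pt Ω →₀ ℤ) :
    (smN C).sy M a = (QuotientAddGroup.mk (Nm (K := K) ⊥ M (bxc C a)) :
      ((Vpi fun i => (C i).V).pt Ω →₀ ℤ) ⧸ (Vpi fun i => (C i).V).ratEq K Ω) := rfl

/-- The morphism which replaces the coordinates in `t` by `∞`. -/
def ft (t : Finset ι) : Mo (Vpi fun i => (C i).V) (Vpi fun i => (C i).V) where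
  f L _ _ y i := if i ∈ t then (C i).bp.o L else y i
  nat L M _ _ _ _ σ y := funext fun i => by
    change (C i).V.map σ (if i ∈ t then (C i).bp.o L else y i) =
      if i ∈ t then (C i).bp.o M else (C i).V.map σ (y i)
    split_ifs
    · exact (C i).bp.nat L M σ
    · rfl
  red K L Ω _ _ _ _ _ _ _ w x y h i := by
    change (C i).V.red w (if i ∈ t then (C i).bp.o L else x i)
      (if i ∈ t then (C i).bp.o Ω else y i)
    split_ifs
    · exact (C i).bp.red K L Ω w
    · exact h i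

/-- The projection to the symbols. -/
noncomputable def tn : ((Vpi fun i => (C i).V).pt Ω →₀ ℤ) →+
    ((Vpi fun i => (C i).V).pt Ω →₀ ℤ) :=
  ∑ t : Finset ι, ((-1 : ℤ) ^ t.card) • Finsupp.mapDomain.addMonoidHom ((ft C t).f Ω)

end CV
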