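import Pool.Agent.Lib.MP_f80667_ag.Ctf.TB
import Pool.Agent.Lib.MP_f80667_ag.Ctf.TA1

/-! # The projection of points to the symbols -/

set_option autoImplicit false

open ZC BE PE Polynomial IntermediateField Function

namespace CV

variable {F : Type} [Field F] {K Ω : Type} [Field K] [CharZero K] [Field Ω] [Algebra K Ω]
  [Algebra F K] [Algebra F Ω] [IsScalarTower F K Ω] [IsAlgClosure K Ω]
  {ι : Type} [Fintype ι] [DecidableEq ι] (C : ι → Crv F)

omit [Field K] [CharZero K] [Algebra K Ω] [Algebra F K] [IsScalarTower F K Ω]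
  [IsAlgClosure K Ω] [Fintype ι] [DecidableEq ι] in
private theorem tB1_rd (i : ι) (x : (C i).V.pt Ω) :
    rd (C i).bp (Finsupp.single x 1) = Finsupp.single x 1 - Finsupp.single ((C i).bp.o Ω) 1 := by
  have h : (C i).V.deg Ω (Finsupp.single x 1) = 1 := Finsupp.liftAddHom_apply_single _ x 1
  rw [rd_apply, h]

private theorem tB1_smul {α : Type} (k : ℤ) (f : α →₀ ℤ) (z : α) : (k • f) z = k * f z := by
  rw [Finsupp.smul_apply, smul_eq_mul]

private theorem tB1_gen {Y : ι → Type} (o y : ∀ i, Y i) :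
    ∑ t : Finset ι, ((-1 : ℤ) ^ t.card) •
      Finsupp.single (fun i => if i ∈ t then o i else y i) (1 : ℤ) =
    bxn fun i => Finsupp.single (y i) (1 : ℤ) - Finsupp.single (o i) 1 := by
  ext z
  have h2 : ∀ w : (∀ i, Y i),
      (Finsupp.single w (1 : ℤ)) z = ∏ i, (Finsupp.single (w i) (1 : ℤ)) (z i) := fun w => by
    rw [← bxn_single w, bxn_apply]
  have h3 : (bxn fun i => Finsupp.single (y i) (1 : ℤ) - Finsupp.single (o i) 1) z =
      ∏ i, (-(Finsupp.single (o i) (1 : ℤ)) (z i) + (Finsupp.single (y i) (1 : ℤ)) (z i)) := by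
    rw [bxn_apply]
    refine Finset.prod_congr rfl fun i _ => ?_
    rw [Finsupp.sub_apply]
    ring
  rw [h3, Finset.prod_add, Finset.powerset_univ, Finsupp.finsetSum_apply]
  refine Finset.sum_congr rfl fun t _ => ?_
  rw [tB1_smul, h2, Finset.prod_neg, mul_assoc]
  congr 1
  have h4 : ∀ i, (Finsupp.single (if i ∈ t then o i else y i) (1 : ℤ)) (z i) =
      t.piecewise (fun i => (Finsupp.single (o i) (1 : ℤ)) (z i))
        (fun i => (Finsupp.single (y i) (1 : ℤ)) (z i)) i := fun i => by
    by_cases hi : i ∈ t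
    · rw [Finset.piecewise_eq_of_mem _ _ _ hi, if_pos hi]
    · rw [Finset.piecewise_eq_of_notMem _ _ _ hi, if_neg hi]
  rw [Finset.prod_congr rfl fun i _ => h4 i, Finset.prod_piecewise, Finset.univ_inter]

omit [Field K] [CharZero K] [Algebra K Ω] [Algebra F K] [IsScalarTower F K Ω]
  [IsAlgClosure K Ω] in
/-- Proof: `rd [y i] = [y i] - [∞]`, the expansion of the product over the subsets (`Finset.prod_add` /
`Finset.prod_sub` after `ext`, or `bxn_add` and induction), `bxn_single`. -/
theorem tn_single (y : (Vpi fun i => (C i).V).pt Ω) :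
    tn C (Finsupp.single y 1) = bxc C fun i => Finsupp.single (y i) 1 := by
  have h1 : tn C (Finsupp.single y 1) =
      ∑ t : Finset ι, ((-1 : ℤ) ^ t.card) • Finsupp.single ((ft C t).f Ω y) 1 := by
    unfold tn
    rw [AddMonoidHom.finsetSum_apply]
    refine Finset.sum_congr rfl fun t _ => ?_
    rw [AddMonoidHom.smul_apply]
    congr 1
    exact Finsupp.mapDomain_single
  have h5 : (fun i => rd (C i).bp (Finsupp.single (y i) 1)) =
      fun i => Finsupp.single (y i) (1 : ℤ) - Finsupp.single ((C i).bp.o Ω) 1 :=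
    funext fun i => tB1_rd C i (y i)
  rw [h1]
  unfold bxc
  refine Eq.trans (tB1_gen (fun i => (C i).bp.o Ω) y) ?_
  exact congrArg bxn h5.symm

end CV
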