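import Pool.Agent.Lib.MP_f80667_ag.Ctf.TB1

/-! # The projection to the symbols -/

set_option autoImplicit false

open ZC BE PE Polynomial IntermediateField Function

namespace CV

variable {F : Type} [Field F] {K Ω : Type} [Field K] [CharZero K] [Field Ω] [Algebra K Ω]
  [Algebra F K] [Algebra F Ω] [IsScalarTower F K Ω] [IsAlgClosure K Ω]
  {ι : Type} [Fintype ι] [DecidableEq ι] (C : ι → Crv F)

omit [Field K] [CharZero K] [Algebra K Ω] [Algebra F K] [IsScalarTower F K Ω]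
  [IsAlgClosure K Ω] in
private theorem TB2_apply (z : (Vpi fun i => (C i).V).pt Ω →₀ ℤ) :
    tn C z = ∑ t : Finset ι, ((-1 : ℤ) ^ t.card) • Finsupp.mapDomain ((ft C t).f Ω) z := by
  unfold tn
  rw [AddMonoidHom.finsetSum_apply]
  rfl

omit [Field K] [CharZero K] [Algebra K Ω] [Algebra F K] [IsScalarTower F K Ω]
  [IsAlgClosure K Ω] in
/-- Proof: `Mo.ratEq` for the `ft C t`. -/
theorem tn_ratEq (M : Type) [Field M] [Algebra F M] [Algebra M Ω]
    {z : (Vpi fun i => (C i).V).pt Ω →₀ ℤ} (hz : z ∈ (Vpi fun i => (C i).V).ratEq M Ω) :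
    tn C z ∈ (Vpi fun i => (C i).V).ratEq M Ω := by
  rw [TB2_apply]
  exact AddSubgroup.sum_mem _ fun t _ => AddSubgroup.zsmul_mem _ ((ft C t).ratEq M Ω hz) _

theorem tn_smul (γ : Ω ≃ₐ[K] Ω) (z : (Vpi fun i => (C i).V).pt Ω →₀ ℤ) :
    γ • tn C z = tn C (γ • z) := by
  rw [TB2_apply, TB2_apply, Finset.smul_sum]
  refine Finset.sum_congr rfl fun t _ => ?_
  rw [smul_comm γ ((-1 : ℤ) ^ t.card)]
  refine congrArg _ ?_
  rw [smul_def, smul_def, ← Finsupp.mapDomain_comp, ← Finsupp.mapDomain_comp]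
  exact congrArg (fun g => Finsupp.mapDomain g z) (funext fun x => (ft C t).act γ x)

/-- The symbol of points. Proof: `tn_single`, `hom_nm` for `tn C`. -/
theorem smN_pt {M : IntermediateField K Ω} [FiniteDimensional K M]
    (w : (Vpi fun i => (C i).V).pt Ω) :
    (smN C).sy M (fun i => Finsupp.single (w i) 1) =
      (QuotientAddGroup.mk (tn C (Nm (⊥ : IntermediateField K Ω) M (Finsupp.single w 1))) :
      ((Vpi fun i => (C i).V).pt Ω →₀ ℤ) ⧸ (Vpi fun i => (C i).V).ratEq K Ω) := by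
  rw [smN_sy, ← tn_single, hom_nm (tn C) bot_le (fun γ _ a => (tn_smul C γ a).symm)]

end CV
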