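import Pool.Agent.Lib.MP_f80667_ag.Ctf.TB

/-! # It is enough to consider points -/

set_option autoImplicit false

open ZC BE PE Polynomial IntermediateField Function

namespace CV

variable {F : Type} [Field F] {K Ω : Type} [Field K] [CharZero K] [Field Ω] [Algebra K Ω]
  [Algebra F K] [Algebra F Ω] [IsScalarTower F K Ω] [IsAlgClosure K Ω]
  {ι : Type} [Fintype ι] [DecidableEq ι] {C : ι → Crv F}

/-- It is enough to consider points. Proof: induction on `s`: the entry `k` is a sum of norms `Nm M M' [y]`, `y` over `M'`
(`fx_gen`, `exists_fp`), `Sm.closure`, the projection formula `(smN C).nm`, the other entries are invariant under the smaller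
group (`Fx.mono`). -/
theorem pts_gen (s : Finset ι) {V : AddSubgroup (((Vpi fun i => (C i).V).pt Ω →₀ ℤ) ⧸
      (Vpi fun i => (C i).V).ratEq K Ω)} {M : IntermediateField K Ω} [FiniteDimensional K M]
    {a : ∀ i, (C i).V.pt Ω →₀ ℤ} (ha : ∀ k, Fx M (a k))
    (h : ∀ (M' : IntermediateField K Ω) (w : ∀ i, (C i).V.pt Ω), FiniteDimensional K M' → M ≤ M' →
      (∀ i, Fp (C i).V M' (w i)) →
      (smN C).sy M' (fun k => if k ∈ s then Finsupp.single (w k) 1 else a k) ∈ V) :
    (smN C).sy M a ∈ V := by
  induction s using Finset.induction_on generalizing M a with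
  | empty =>
    have h1 := h M (fun i => (C i).bp.o Ω) inferInstance le_rfl
      (fun i γ _ => (C i).bp.nat Ω Ω _)
    have h2 : (fun k => if k ∈ (∅ : Finset ι) then Finsupp.single ((C k).bp.o Ω) (1 : ℤ) else a k)
        = a := funext fun k => if_neg (Finset.notMem_empty k)
    rw [h2] at h1
    exact h1
  | insert k₀ s hk₀ ih =>
    have hgen : a k₀ ∈ AddSubgroup.closure {z | ∃ (M' : IntermediateField K Ω)
        (x : (C k₀).V.pt Ω), M ≤ M' ∧ FiniteDimensional K M' ∧ Fp (C k₀).V M' x ∧
        z = Nm M M' (Finsupp.single x 1)} := fx_gen (exists_fp (C k₀)) (ha k₀)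
    have hcl := Sm.closure (S := smN C) (i := k₀) (V := V) ha (fun z hz => ?_) hgen
    · have h3 : update a k₀ (a k₀) = a := update_eq_self k₀ a
      rw [h3] at hcl
      exact hcl.2
    · obtain ⟨M', x, hle, hfd, hx, rfl⟩ := hz
      have hsx : Fx M' (Finsupp.single x 1 : (C k₀).V.pt Ω →₀ ℤ) := fx_single hx 1
      refine ⟨nm_fx hle hsx, ?_⟩
      rw [← (smN C).nm M M' a k₀ (Finsupp.single x 1) hle ha hsx]
      refine ih (M := M') (a := update a k₀ (Finsupp.single x 1))
        (fx_ud (fun k => (ha k).mono hle) hsx) ?_
      intro M'' w hfd'' hle' hw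
      have h1 := h M'' (update w k₀ x) hfd'' (hle.trans hle') (fun i => ?_)
      · have h2 : (fun k => if k ∈ insert k₀ s then
            (Finsupp.single (update w k₀ x k) 1 : (C k).V.pt Ω →₀ ℤ) else a k) =
            (fun k => if k ∈ s then (Finsupp.single (w k) 1 : (C k).V.pt Ω →₀ ℤ) else
              update a k₀ (Finsupp.single x 1) k) := by
          funext k
          rcases eq_or_ne k k₀ with rfl | hk
          · rw [if_pos (Finset.mem_insert_self _ _), if_neg hk₀, update_self, update_self]
          · rw [update_of_ne hk, update_of_ne hk]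
            by_cases hks : k ∈ s
            · rw [if_pos (Finset.mem_insert_of_mem hks), if_pos hks]
            · rw [if_neg hks, if_neg (fun hc => (Finset.mem_insert.1 hc).elim hk hks)]
        rw [h2] at h1
        exact h1
      · rcases eq_or_ne i k₀ with rfl | hi
        · rw [update_self]
          exact fun γ hγ => hx γ (fix_le hle' hγ)
        · rw [update_of_ne hi]
          exact hw i

end CV
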