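import Pool.Agent.Lib.MP_f80667_ag.Ctf.TB2
import Pool.Agent.Lib.MP_f80667_ag.Ctf.TB3

/-! # The symbols of null elements -/

set_option autoImplicit false

open ZC BE PE Polynomial IntermediateField Function

namespace CV

variable {F : Type} [Field F] {K Ω : Type} [Field K] [CharZero K] [Field Ω] [Algebra K Ω]
  [Algebra F K] [Algebra F Ω] [IsScalarTower F K Ω] [IsAlgClosure K Ω]
  {ι : Type} [Fintype ι] [DecidableEq ι] {C : ι → Crv F}

omit [Field K] [CharZero K] [Algebra K Ω] [Algebra F K] [IsScalarTower F K Ω]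
  [IsAlgClosure K Ω] [Fintype ι] [DecidableEq ι] in
private theorem tB4_self (w : (Vpi fun i => (C i).V).pt Ω) (i : ι) (p : (C i).V.pt Ω) :
    u₁ w i p i = p := by
  classical
  exact Function.update_self _ _ _

omit [Field K] [CharZero K] [Algebra K Ω] [Algebra F K] [IsScalarTower F K Ω]
  [IsAlgClosure K Ω] [Fintype ι] [DecidableEq ι] in
private theorem tB4_ne (w : (Vpi fun i => (C i).V).pt Ω) {i k : ι} (hk : k ≠ i)
    (p : (C i).V.pt Ω) : u₁ w i p k = w k := by
  classical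
  exact Function.update_of_ne hk _ _

omit [Field K] [CharZero K] [Algebra K Ω] [Algebra F K] [IsScalarTower F K Ω]
  [IsAlgClosure K Ω] in
private theorem tB4_tn (w : (Vpi fun i => (C i).V).pt Ω) (i : ι) (z : (C i).V.pt Ω →₀ ℤ) :
    bxc C (update (fun k => (Finsupp.single (w k) 1 : (C k).V.pt Ω →₀ ℤ)) i z) =
      tn C (Finsupp.mapDomain (u₁ w i) z) := by
  have h : (AddMonoidHom.mk' (fun z : (C i).V.pt Ω →₀ ℤ =>
      bxc C (update (fun k => (Finsupp.single (w k) 1 : (C k).V.pt Ω →₀ ℤ)) i z))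
        (bxc_add C _ i)) = (tn C).comp (Finsupp.mapDomain.addMonoidHom (u₁ w i)) := by
    refine Finsupp.addHom_ext fun p m => ?_
    have e : (Finsupp.single p m : (C i).V.pt Ω →₀ ℤ) = m • Finsupp.single p 1 := by
      rw [Finsupp.smul_single, smul_eq_mul, mul_one]
    rw [e, map_zsmul, map_zsmul]
    congr 1
    change bxc C (update (fun k => (Finsupp.single (w k) 1 : (C k).V.pt Ω →₀ ℤ)) i
      (Finsupp.single p 1)) = tn C (Finsupp.mapDomain (u₁ w i) (Finsupp.single p 1))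
    rw [Finsupp.mapDomain_single, tn_single]
    congr 1
    funext k
    rcases eq_or_ne k i with rfl | hk
    · rw [update_self, tB4_self]
    · rw [update_of_ne hk, tB4_ne w hk]
  exact DFunLike.congr_fun h z

/-- The symbols of null elements are `0`. Proof: `pts_gen` with `s = univ \ {i}`, `V = ⊥`; over `M'`:
`bxc C (update [w] i x) = tn C (mapDomain (u₁ w i) (rd x))`, `rd x` in `(C i).V.ratEq M' Ω` (`hP`), `u₁_ratEq`, `tn_ratEq`,
`nm_ratEq`. -/
theorem smN_nul (hP : ∀ i, ExPr (C i) K Ω) {M : IntermediateField K Ω} [FiniteDimensional K M]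
    {a : ∀ i, (C i).V.pt Ω →₀ ℤ} {i : ι} {x : (C i).V.pt Ω →₀ ℤ} (ha : ∀ k, Fx M (a k))
    (hx : x ∈ Nn (C i) M) : (smN (K := K) C).sy M (update a i x) = 0 := by
  obtain ⟨hx1, hx2⟩ := mem_Nn.1 hx
  rw [← AddSubgroup.mem_bot]
  refine pts_gen (Finset.univ.erase i) (fx_ud ha hx1) fun M' w hfd hM hw => ?_
  have e : (fun k => if k ∈ Finset.univ.erase i then (Finsupp.single (w k) 1 :
      (C k).V.pt Ω →₀ ℤ) else update a i x k) =
        update (fun k => (Finsupp.single (w k) 1 : (C k).V.pt Ω →₀ ℤ)) i x := by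
    funext k
    rcases eq_or_ne k i with rfl | hk
    · rw [if_neg (Finset.notMem_erase k _), update_self, update_self]
    · rw [if_pos (Finset.mem_erase.2 ⟨hk, Finset.mem_univ k⟩), update_of_ne hk]
  rw [e, AddSubgroup.mem_bot, smN_sy, QuotientAddGroup.eq_zero_iff]
  have hw' : Fp (Vpi fun i => (C i).V) M' w := fun γ hγ => funext fun k => hw k γ hγ
  refine nm_ratEq ?_ (bxc_fx C (fx_ud (fun k => fx_single (hw k) 1) (hx1.mono hM)))
  have e1 : bxc C (update (fun k => (Finsupp.single (w k) 1 : (C k).V.pt Ω →₀ ℤ)) i x) =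
      bxc C (update (fun k => (Finsupp.single (w k) 1 : (C k).V.pt Ω →₀ ℤ)) i
        (rd (C i).bp x)) := by
    rw [bxc_ud, bxc_ud, rd_of (rd_deg (C i).bp x)]
  rw [e1, tB4_tn]
  exact tn_ratEq C M' (u₁_ratEq hw' i (hP i M' hfd _ hx2
    ⟨rd_fx (C i).bp (hx1.mono hM), rd_deg (C i).bp x⟩))

end CV
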