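import Pool.Agent.Lib.MP_f80667_ag.Ctf.TB
import Pool.Agent.Lib.MP_f80667_ag.Ctf.TA3

/-! # Representatives of the symbols -/

set_option autoImplicit false

open ZC BE PE Polynomial IntermediateField Function

namespace CV

variable {F : Type} [Field F] {K Ω : Type} [Field K] [CharZero K] [Field Ω] [Algebra K Ω]
  [Algebra F K] [Algebra F Ω] [IsScalarTower F K Ω] [IsAlgClosure K Ω]
  {ι : Type} [Fintype ι] [DecidableEq ι] {C : ι → Crv F}

omit [CharZero K] [IsAlgClosure K Ω] in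
/-- Push-forwards are equivariant. -/
private theorem tB5_smul {V W : Vr F} [Hf V] [Hf W] (φ : Mo V W) (γ : Ω ≃ₐ[K] Ω)
    (z : V.pt Ω →₀ ℤ) :
    Finsupp.mapDomain (φ.f Ω) (γ • z) = γ • Finsupp.mapDomain (φ.f Ω) z := by
  rw [smul_def, smul_def, ← Finsupp.mapDomain_comp, ← Finsupp.mapDomain_comp]
  exact congrArg (fun g => Finsupp.mapDomain g z) (funext fun x => (φ.act γ x).symm)

/-- Every element of `T` is the class of a cycle of degree `0` with push-forwards `0`. Proof: as `t_rep`: `bxn_pr`. -/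
theorem t_repN [Nontrivial ι] {g : ((Vpi fun i => (C i).V).pt Ω →₀ ℤ) ⧸
      (Vpi fun i => (C i).V).ratEq K Ω} (hg : g ∈ (smN (K := K) (Ω := Ω) C).T) :
    ∃ z ∈ (Vpi fun i => (C i).V).D0 K Ω,
      (∀ i, Finsupp.mapDomain ((pr i).f Ω) z = (0 : (C i).V.pt Ω →₀ ℤ)) ∧
      g = QuotientAddGroup.mk z := by
  refine AddSubgroup.closure_induction (p := fun g _ => ∃ z ∈ (Vpi fun i => (C i).V).D0 K Ω,
      (∀ i, Finsupp.mapDomain ((pr i).f Ω) z = (0 : (C i).V.pt Ω →₀ ℤ)) ∧
      g = QuotientAddGroup.mk z) ?_ ?_ ?_ ?_ hg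
  · rintro _ ⟨M, a, hM, ha, rfl⟩
    have hz0 : ∀ (V : Vr F) [Hf V], Nm (⊥ : IntermediateField K Ω) M (0 : V.pt Ω →₀ ℤ) = 0 := by
      intro V _
      obtain ⟨s, -, -, -, h3⟩ := nm_rep (M := (⊥ : IntermediateField K Ω)) (N := M) bot_le
      rw [h3]
      exact Finset.sum_eq_zero fun γ _ => smul_zero γ
    have e1 : ∀ i, Finsupp.mapDomain ((pr i).f Ω) (Nm (⊥ : IntermediateField K Ω) M
        (bxc C a)) = (0 : (C i).V.pt Ω →₀ ℤ) := by
      intro i
      obtain ⟨j, hj⟩ := exists_ne i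
      have h := hom_nm (M := (⊥ : IntermediateField K Ω)) (N := M)
        (Finsupp.mapDomain.addMonoidHom ((pr (V := fun i => (C i).V) i).f Ω)) bot_le
        (fun γ _ a => tB5_smul (pr (V := fun i => (C i).V) i) γ a) (bxc C a)
      refine h.trans ?_
      have h0 : (rd (C j).bp (a j)).sum (fun _ n => n) = 0 := by
        have h2 := rd_deg (C j).bp (a j)
        rw [Vr.deg, Finsupp.liftAddHom_apply] at h2
        exact h2
      have h' : Finsupp.mapDomain.addMonoidHom (M := ℤ) ((pr (V := fun i => (C i).V) i).f Ω)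
          (bxc C a) = 0 := bxn_pr (a := fun i => rd (C i).bp (a i)) hj h0
      rw [h', hz0]
    refine ⟨Nm (⊥ : IntermediateField K Ω) M (bxc C a), ⟨?_, ?_⟩, e1, rfl⟩
    · intro γ
      refine nm_fx (M := (⊥ : IntermediateField K Ω)) (N := M) bot_le (bxc_fx C ha) γ ?_
      rw [IntermediateField.fixingSubgroup_bot]
      trivial
    · obtain ⟨i⟩ := (inferInstance : Nonempty ι)
      have h := Mo.deg (V := Vpi fun i => (C i).V) (V' := (C i).V)
        ((pr (V := fun i => (C i).V) i).f Ω) (Nm (⊥ : IntermediateField K Ω) M (bxc C a))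
      rw [e1, map_zero] at h
      exact h.symm
  · exact ⟨0, zero_mem _, fun i => Finsupp.mapDomain_zero, rfl⟩
  · rintro _ _ _ _ ⟨z, hz, h1, rfl⟩ ⟨z', hz', h1', rfl⟩
    exact ⟨z + z', add_mem hz hz', fun i => by rw [Finsupp.mapDomain_add, h1, h1', add_zero], rfl⟩
  · rintro _ _ ⟨z, hz, h1, rfl⟩
    refine ⟨-z, neg_mem hz, fun i => ?_, rfl⟩
    have h := (Finsupp.mapDomain.addMonoidHom (M := ℤ)
      ((pr (V := fun i => (C i).V) i).f Ω)).map_neg z
    exact h.trans (by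
      change -Finsupp.mapDomain ((pr (V := fun i => (C i).V) i).f Ω) z = 0
      rw [h1, neg_zero])

end CV
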