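import Pool.Agent.Lib.MP_f80667_ag.Ctf.TB
import Pool.Agent.Lib.MP_f80667_ag.Ctf.SC
import Pool.Agent.Lib.MP_f80667_ag.Cv.EtG
import Pool.Agent.Lib.MP_f80667_ag.Cv.LocN

/-!
# The relations for two entries, the other entries are fixed

`ctr i j c z`: the cycle `c` with the entries `i`, `j` filled by the cycle `z` on the product of the two factors.
`xnm M`: the class of its norm. `PsG`: the symbols with one of the entries `i`, `j` of level `N`.
-/

set_option autoImplicit false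

open ZC BE PE Polynomial IntermediateField Function

namespace CV

variable {F : Type} [Field F] {K Ω : Type} [Field K] [CharZero K] [Field Ω] [Algebra K Ω]
  [Algebra F K] [Algebra F Ω] [IsScalarTower F K Ω] [IsAlgClosure K Ω] {L : Ld K Ω}
  {ι : Type} [Fintype ι] [DecidableEq ι] {C : ι → Crv F}

/-- The tuple `c` with the entries `i`, `j` filled by a cycle on the product of two factors. -/
noncomputable def ctr (i j : ι) (c : ∀ k, (C k).V.pt Ω →₀ ℤ) :
    ((Vpr (C i).V (C j).V).pt Ω →₀ ℤ) →+ ((Vpi fun k => (C k).V).pt Ω →₀ ℤ) :=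
  Finsupp.liftAddHom fun x => zmultiplesHom _
    (bxc C (ud c i j (Finsupp.single x.1 1) (Finsupp.single x.2 1)))

omit [Field K] [CharZero K] [Algebra K Ω] [Algebra F K] [IsScalarTower F K Ω]
  [IsAlgClosure K Ω] in
theorem ctr_single (i j : ι) (c : ∀ k, (C k).V.pt Ω →₀ ℤ) (x : (Vpr (C i).V (C j).V).pt Ω) :
    ctr i j c (Finsupp.single x 1) =
      bxc C (ud c i j (Finsupp.single x.1 1) (Finsupp.single x.2 1)) := by
  unfold ctr
  rw [Finsupp.liftAddHom_apply_single]
  exact one_zsmul _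

/-- The class of the norm of the contraction. -/
noncomputable def xnm (M : IntermediateField K Ω) [FiniteDimensional K M] (i j : ι)
    (c : ∀ k, (C k).V.pt Ω →₀ ℤ) : ((Vpr (C i).V (C j).V).pt Ω →₀ ℤ) →+
      (((Vpi fun k => (C k).V).pt Ω →₀ ℤ) ⧸ (Vpi fun k => (C k).V).ratEq K Ω) :=
  AddMonoidHom.mk' (fun z => QuotientAddGroup.mk (Nm (K := K) ⊥ M (ctr i j c z))) fun z z' => by
    rw [map_add, nm_add bot_le]
    rfl

theorem xn_pt (M : IntermediateField K Ω) [FiniteDimensional K M] (i j : ι)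
    (c : ∀ k, (C k).V.pt Ω →₀ ℤ) (x : (Vpr (C i).V (C j).V).pt Ω) :
    xnm M i j c (Finsupp.single x 1) =
      (smN (K := K) C).sy M (ud c i j (Finsupp.single x.1 1) (Finsupp.single x.2 1)) := by
  change (QuotientAddGroup.mk (Nm (K := K) ⊥ M (ctr i j c (Finsupp.single x 1))) :
    ((Vpi fun k => (C k).V).pt Ω →₀ ℤ) ⧸ (Vpi fun k => (C k).V).ratEq K Ω) = _
  rw [ctr_single]
  rfl

variable (m : ∀ k, Mod (C k) (Ok L) K)

/-- The symbols with one of the entries `i`, `j` of level `N`, over the unramified extensions of `M`. -/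
noncomputable def PsG (π : K) (M : IntermediateField K Ω) (i j : ι) (c : ∀ k, (C k).V.pt Ω →₀ ℤ) (N : ℕ) :
    AddSubgroup (((Vpi fun k => (C k).V).pt Ω →₀ ℤ) ⧸ (Vpi fun k => (C k).V).ratEq K Ω) :=
  AddSubgroup.closure {g | ∃ (M' : IntermediateField K Ω) (a : (C i).V.pt Ω →₀ ℤ)
    (b : (C j).V.pt Ω →₀ ℤ), Em L M M' ∧
    ((a ∈ Dl (m i) π M' N ∧ Fx M' b) ∨ (Fx M' a ∧ b ∈ Dl (m j) π M' N)) ∧
    g = (smN (K := K) C).sy M' (ud c i j a b)}

end CV
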