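import Pool.Agent.Lib.MP_f80667_ag.Ctf.TC

/-! # The contraction and the Galois group -/

set_option autoImplicit false

open ZC BE PE Polynomial IntermediateField Function

namespace CV

variable {F : Type} [Field F] {K Ω : Type} [Field K] [CharZero K] [Field Ω] [Algebra K Ω]
  [Algebra F K] [Algebra F Ω] [IsScalarTower F K Ω] [IsAlgClosure K Ω]
  {ι : Type} [Fintype ι] [DecidableEq ι] {C : ι → Crv F}

private theorem TC1_ud {i j : ι} {c : ∀ k, (C k).V.pt Ω →₀ ℤ} {γ : Ω ≃ₐ[K] Ω}
    (hc : ∀ k, γ • c k = c k) (a : (C i).V.pt Ω →₀ ℤ) (b : (C j).V.pt Ω →₀ ℤ) :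
    (fun k => γ • ud c i j a b k) = ud c i j (γ • a) (γ • b) := by
  funext k
  unfold ud
  rcases eq_or_ne k j with rfl | hj
  · rw [update_self, update_self]
  · rw [update_of_ne hj, update_of_ne hj]
    rcases eq_or_ne k i with rfl | hi
    · rw [update_self, update_self]
    · rw [update_of_ne hi, update_of_ne hi]
      exact hc k

/-- Proof: on `single x n`: `bxc_smul`, `smul_single`, the entries of `c` different from `i`, `j` are invariant. -/
theorem ctr_smul {i j : ι} {c : ∀ k, (C k).V.pt Ω →₀ ℤ} {γ : Ω ≃ₐ[K] Ω} (hc : ∀ k, γ • c k = c k)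
    (z : (Vpr (C i).V (C j).V).pt Ω →₀ ℤ) : γ • ctr i j c z = ctr i j c (γ • z) := by
  have h1 : ∀ x : (Vpr (C i).V (C j).V).pt Ω, γ • ctr i j c (Finsupp.single x 1) =
      ctr i j c (γ • (Finsupp.single x 1 : (Vpr (C i).V (C j).V).pt Ω →₀ ℤ)) := by
    intro x
    rw [ctr_single, bxc_smul, TC1_ud hc, smul_single, smul_single, smul_single, ctr_single]
    rfl
  have h2 : (DistribMulAction.toAddMonoidHom _ γ).comp (ctr i j c) =
      (ctr i j c).comp (DistribMulAction.toAddMonoidHom _ γ) := by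
    apply Finsupp.addHom_ext
    intro x n
    have h3 : (Finsupp.single x n : (Vpr (C i).V (C j).V).pt Ω →₀ ℤ) =
        n • Finsupp.single x 1 := by
      rw [Finsupp.smul_single, smul_eq_mul, mul_one]
    rw [h3, map_zsmul, map_zsmul]
    exact congrArg (n • ·) (h1 x)
  exact DFunLike.congr_fun h2 z

end CV
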