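import Pool.Agent.Lib.MP_f80667_ag.Ctf.TC
import Pool.Agent.Lib.MP_f80667_ag.Ctf.TA2

/-! # The contraction and rational equivalence -/

set_option autoImplicit false

open ZC BE PE Polynomial IntermediateField Function

namespace CV

variable {F : Type} [Field F] {K Ω : Type} [Field K] [CharZero K] [Field Ω] [Algebra K Ω]
  [Algebra F K] [Algebra F Ω] [IsScalarTower F K Ω] [IsAlgClosure K Ω]
  {ι : Type} [Fintype ι] [DecidableEq ι] {C : ι → Crv F}

/-- Push-forward of a cycle on two factors by `u₂ w i j`, summed over the points `w` of a cycle. -/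
private noncomputable def tc2_ps (C : ι → Crv F) (i j : ι) :
    ((Vpi fun k => (C k).V).pt Ω →₀ ℤ) →+ ((Vpr (C i).V (C j).V).pt Ω →₀ ℤ) →+
      ((Vpi fun k => (C k).V).pt Ω →₀ ℤ) :=
  Finsupp.liftAddHom fun w => zmultiplesHom _ (Finsupp.mapDomain.addMonoidHom (u₂ w i j))

omit [Field K] [CharZero K] [Algebra K Ω] [Algebra F K] [IsScalarTower F K Ω]
  [IsAlgClosure K Ω] [Fintype ι] [DecidableEq ι] in
private theorem tc2_ps_single (i j : ι) (w : (Vpi fun k => (C k).V).pt Ω) (n : ℤ)
    (z : (Vpr (C i).V (C j).V).pt Ω →₀ ℤ) :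
    tc2_ps C i j (Finsupp.single w n) z = n • Finsupp.mapDomain (u₂ w i j) z := by
  unfold tc2_ps
  rw [Finsupp.liftAddHom_apply_single]
  rfl

omit [Field K] [CharZero K] [Algebra K Ω] [Algebra F K] [IsScalarTower F K Ω]
  [IsAlgClosure K Ω] [Fintype ι] [DecidableEq ι] in
/-- For a point of the two factors: the image of the cycle. -/
private theorem tc2_ps_pt (i j : ι) (D : (Vpi fun k => (C k).V).pt Ω →₀ ℤ)
    (x : (Vpr (C i).V (C j).V).pt Ω) (n : ℤ) :
    tc2_ps C i j D (Finsupp.single x n) = n • Finsupp.mapDomain (fun w => u₂ w i j x) D := by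
  induction D using Finsupp.induction_linear with
  | zero => rw [map_zero, AddMonoidHom.zero_apply, Finsupp.mapDomain_zero, smul_zero]
  | add f g hf hg => rw [map_add, AddMonoidHom.add_apply, hf, hg, Finsupp.mapDomain_add, smul_add]
  | single w m =>
    rw [tc2_ps_single, Finsupp.mapDomain_single, Finsupp.mapDomain_single, Finsupp.smul_single,
      Finsupp.smul_single, smul_eq_mul, smul_eq_mul, mul_comm]

omit [Field K] [CharZero K] [Algebra K Ω] [Algebra F K] [IsScalarTower F K Ω]
  [IsAlgClosure K Ω] [Fintype ι] [DecidableEq ι] in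
private theorem tc2_uj (w : (Vpi fun k => (C k).V).pt Ω) (i j : ι)
    (x : (Vpr (C i).V (C j).V).pt Ω) : u₂ w i j x j = x.2 := by
  classical
  exact update_self _ _ _

omit [Field K] [CharZero K] [Algebra K Ω] [Algebra F K] [IsScalarTower F K Ω]
  [IsAlgClosure K Ω] [Fintype ι] [DecidableEq ι] in
private theorem tc2_ui (w : (Vpi fun k => (C k).V).pt Ω) {i j : ι} (h : i ≠ j)
    (x : (Vpr (C i).V (C j).V).pt Ω) : u₂ w i j x i = x.1 := by
  classical
  exact (update_of_ne h _ _).trans (update_self _ _ _)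

omit [Field K] [CharZero K] [Algebra K Ω] [Algebra F K] [IsScalarTower F K Ω]
  [IsAlgClosure K Ω] [Fintype ι] [DecidableEq ι] in
private theorem tc2_uk (w : (Vpi fun k => (C k).V).pt Ω) {i j k : ι} (hj : k ≠ j) (hi : k ≠ i)
    (x : (Vpr (C i).V (C j).V).pt Ω) : u₂ w i j x k = w k := by
  classical
  exact (update_of_ne hj _ _).trans (update_of_ne hi _ _)

omit [Field K] [CharZero K] [Algebra K Ω] [Algebra F K] [IsScalarTower F K Ω]
  [IsAlgClosure K Ω] in
/-- The image of the exterior product of a tuple with points at `i`, `j`. -/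
private theorem tc2_map {i j : ι} (hij : i ≠ j) (t : ∀ k, (C k).V.pt Ω →₀ ℤ)
    (o p : (C i).V.pt Ω) (o' q : (C j).V.pt Ω) :
    Finsupp.mapDomain (fun w => u₂ w i j (pp p q))
        (bxn (update (update t i (Finsupp.single o 1)) j (Finsupp.single o' 1)) :
          (Vpi fun k => (C k).V).pt Ω →₀ ℤ) =
      bxn (update (update t i (Finsupp.single p 1)) j (Finsupp.single q 1)) := by
  classical
  obtain ⟨G, hGj, hGi, hG⟩ : ∃ G : ∀ k, (C k).V.pt Ω → (C k).V.pt Ω, (G j = fun _ => q) ∧
      (G i = fun _ => p) ∧ ∀ k, k ≠ j → k ≠ i → G k = fun y => y :=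
    ⟨update (update (fun _ y => y) i fun _ => p) j fun _ => q, update_self _ _ _,
      (update_of_ne hij _ _).trans (update_self _ _ _), fun k h h' =>
        (update_of_ne h _ _).trans (update_of_ne h' _ _)⟩
  have e1 : (fun w : (Vpi fun k => (C k).V).pt Ω => u₂ w i j (pp p q)) =
      fun w k => G k (w k) := by
    funext w k
    rcases eq_or_ne k j with rfl | hj
    · rw [hGj]
      exact tc2_uj w i k _
    · rcases eq_or_ne k i with rfl | hi
      · rw [hGi]
        exact tc2_ui w hj _
      · rw [hG k hj hi]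
        exact tc2_uk w hj hi _
  rw [e1]
  refine (bxn_map G _).trans ?_
  congr 1
  funext k
  rcases eq_or_ne k j with rfl | hj
  · rw [update_self, update_self, Finsupp.mapDomain_single, hGj]
  · rw [update_of_ne hj, update_of_ne hj]
    rcases eq_or_ne k i with rfl | hi
    · rw [update_self, update_self, Finsupp.mapDomain_single, hGi]
    · rw [update_of_ne hi, update_of_ne hi, hG k hj hi]
      exact Finsupp.mapDomain_id

omit [Field K] [CharZero K] [Algebra K Ω] [Algebra F K] [IsScalarTower F K Ω]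
  [IsAlgClosure K Ω] in
private theorem tc2_sub {Y : ι → Type} (a : ∀ k, Y k →₀ ℤ) (i : ι) (x y : Y i →₀ ℤ) :
    bxn (update a i (x - y)) = bxn (update a i x) - bxn (update a i y) := by
  have h := bxn_add a i (x - y) y
  rw [sub_add_cancel] at h
  rw [h, add_sub_cancel_right]

omit [Field K] [CharZero K] [Algebra K Ω] [Algebra F K] [IsScalarTower F K Ω]
  [IsAlgClosure K Ω] in
private theorem tc2_rd {V : Vr F} (o : Bp V) (x : V.pt Ω) : rd o (Finsupp.single x 1) =
    Finsupp.single x 1 - Finsupp.single (o.o Ω) 1 := by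
  rw [rd_apply]
  congr 2
  exact Finsupp.liftAddHom_apply_single _ _ _

omit [Field K] [CharZero K] [Algebra K Ω] [Algebra F K] [IsScalarTower F K Ω]
  [IsAlgClosure K Ω] in
/-- The contraction is the push-forward of the projection. -/
private theorem tc2_eq {i j : ι} (hij : i ≠ j) (c : ∀ k, (C k).V.pt Ω →₀ ℤ)
    (z : (Vpr (C i).V (C j).V).pt Ω →₀ ℤ) :
    ctr i j c z = tc2_ps C i j (bxn (update (update (fun k => rd (C k).bp (c k)) i
      (Finsupp.single ((C i).bp.o Ω) 1)) j (Finsupp.single ((C j).bp.o Ω) 1)))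
      (tq (C i).bp (C j).bp z) := by
  classical
  obtain ⟨t, ht⟩ : ∃ t : ∀ k, (C k).V.pt Ω →₀ ℤ, t = fun k => rd (C k).bp (c k) := ⟨_, rfl⟩
  rw [← ht]
  induction z using Finsupp.induction_linear with
  | zero => rw [map_zero, map_zero, map_zero]
  | add f g hf hg => rw [map_add, map_add, map_add, hf, hg]
  | single x n =>
    have h1 : Finsupp.single x n = n • Finsupp.single x (1 : ℤ) := by
      rw [Finsupp.smul_single, smul_eq_mul, mul_one]
    rw [h1, map_zsmul, map_zsmul, map_zsmul]
    congr 1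
    rw [ctr_single, tq_single]
    have h2 : bxc C (ud c i j (Finsupp.single x.1 1) (Finsupp.single x.2 1)) =
        bxn (update (update t i (rd (C i).bp (Finsupp.single x.1 1))) j
          (rd (C j).bp (Finsupp.single x.2 1))) := by
      unfold ud
      rw [bxc_ud]
      congr 2
      rw [ht]
      funext k
      rcases eq_or_ne k i with rfl | hk
      · rw [update_self, update_self]
      · rw [update_of_ne hk, update_of_ne hk]
    rw [h2, tc2_rd, tc2_rd]
    have h3 : bx (Finsupp.single x.1 1 - Finsupp.single ((C i).bp.o Ω) 1)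
        (Finsupp.single x.2 1 - Finsupp.single ((C j).bp.o Ω) 1) =
        (Finsupp.single (pp x.1 x.2) 1 - Finsupp.single (pp x.1 ((C j).bp.o Ω)) 1) -
        (Finsupp.single (pp ((C i).bp.o Ω) x.2) 1 -
          Finsupp.single (pp ((C i).bp.o Ω) ((C j).bp.o Ω)) (1 : ℤ)) := by
      rw [map_sub bx, AddMonoidHom.sub_apply, map_sub, map_sub, bx_ss, bx_ss, bx_ss, bx_ss,
        mul_one]
    rw [h3, map_sub, map_sub, map_sub, tc2_ps_pt, tc2_ps_pt, tc2_ps_pt, tc2_ps_pt, one_smul,
      one_smul, one_smul, one_smul, tc2_map hij, tc2_map hij, tc2_map hij, tc2_map hij, tc2_sub]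
    have h4 : ∀ y : (C j).V.pt Ω →₀ ℤ,
        bxn (update (update t i (Finsupp.single x.1 1 - Finsupp.single ((C i).bp.o Ω) 1)) j y) =
        bxn (update (update t i (Finsupp.single x.1 1)) j y) -
          bxn (update (update t i (Finsupp.single ((C i).bp.o Ω) 1)) j y) := by
      intro y
      rw [update_comm hij, update_comm hij, update_comm hij, tc2_sub]
    rw [h4, h4]
    abel

/-- Proof: let `D = bxn` of the tuple `rd (c k)`, with `[∞]` at `i`, `j`; its support consists of points `w` over `M`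
(`bxn_mem`). By `bxn_map` (the coordinates `i`, `j` are mapped to `p`, `q`) `bxn` of the tuple with `[p]`, `[q]` at `i`, `j`
is the image of `D` under `w ↦ u₂ w i j (p, q)`; so `ctr i j c z` is the sum over `w` of `D w` times the push-forward of
`tq z` (`Cv/Sg.lean`) by `u₂ w i j`: `tq_ratEq`, `u₂_ratEq`. -/
theorem ctr_ratEq {M : IntermediateField K Ω} {i j : ι} (hij : i ≠ j)
    {c : ∀ k, (C k).V.pt Ω →₀ ℤ} (hc : ∀ k, ∀ x ∈ (c k).support, Fp (C k).V M x)
    {z : (Vpr (C i).V (C j).V).pt Ω →₀ ℤ} (hz : z ∈ (Vpr (C i).V (C j).V).ratEq M Ω) :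
    ctr i j c z ∈ (Vpi fun k => (C k).V).ratEq M Ω := by
  classical
  rw [tc2_eq hij]
  have ho : ∀ k, Fp (C k).V M ((C k).bp.o Ω) := fun k γ _ => (C k).bp.nat Ω Ω _
  obtain ⟨R, hR⟩ : ∃ R : AddSubgroup ((Vpi fun k => (C k).V).pt Ω →₀ ℤ),
      R = (Vpi fun k => (C k).V).ratEq M Ω := ⟨_, rfl⟩
  obtain ⟨y, hy⟩ : ∃ y, y = tq (C i).bp (C j).bp z := ⟨_, rfl⟩
  rw [← hR, ← hy]
  have key : bxn (update (update (fun k => rd (C k).bp (c k)) i
      (Finsupp.single ((C i).bp.o Ω) 1)) j (Finsupp.single ((C j).bp.o Ω) 1)) ∈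
      R.comap ((tc2_ps C i j).flip y) := by
    refine bxn_mem fun w hw => ?_
    change tc2_ps C i j (Finsupp.single w 1) y ∈ R
    rw [tc2_ps_single, one_smul, hR, hy]
    refine u₂_ratEq (fun γ hγ => ?_) hij (tq_ratEq (C i).bp (C j).bp M hz)
    funext k
    have hk := hw k
    change (C k).V.act γ (w k) = w k
    rcases eq_or_ne k j with rfl | hj
    · rw [update_self] at hk
      have := Finsupp.support_single_subset hk
      rw [Finset.mem_singleton] at this
      rw [this]
      exact ho _ γ hγ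
    · rw [update_of_ne hj] at hk
      rcases eq_or_ne k i with rfl | hi
      · rw [update_self] at hk
        have := Finsupp.support_single_subset hk
        rw [Finset.mem_singleton] at this
        rw [this]
        exact ho _ γ hγ
      · rw [update_of_ne hi, rd_apply] at hk
        rcases Finset.mem_union.1 (Finsupp.support_sub hk) with h | h
        · exact hc k _ h γ hγ
        · have := Finsupp.support_single_subset h
          rw [Finset.mem_singleton] at this
          rw [this]
          exact ho _ γ hγ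
  exact AddSubgroup.mem_comap.1 key

end CV
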