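import Pool.Agent.Lib.MP_f80667_ag.Ctf.TC1
import Pool.Agent.Lib.MP_f80667_ag.Ctf.TC2

/-! # The class of the contraction -/

set_option autoImplicit false

open ZC BE PE Polynomial IntermediateField Function

namespace CV

variable {F : Type} [Field F] {K Ω : Type} [Field K] [CharZero K] [Field Ω] [Algebra K Ω]
  [Algebra F K] [Algebra F Ω] [IsScalarTower F K Ω] [IsAlgClosure K Ω]
  {ι : Type} [Fintype ι] [DecidableEq ι] {C : ι → Crv F}

/-- Proof: `ctr_ratEq`, `ctr_smul`, `nm_ratEq`. -/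
theorem xn_ratEq {M : IntermediateField K Ω} [FiniteDimensional K M] {i j : ι} (hij : i ≠ j)
    {c : ∀ k, (C k).V.pt Ω →₀ ℤ} (hcf : ∀ k, Fx M (c k))
    (hc : ∀ k, ∀ x ∈ (c k).support, Fp (C k).V M x) {z : (Vpr (C i).V (C j).V).pt Ω →₀ ℤ}
    (hz : z ∈ (Vpr (C i).V (C j).V).ratEq M Ω) (hzf : Fx M z) : xnm M i j c z = 0 := by
  change (QuotientAddGroup.mk (Nm (K := K) ⊥ M (ctr i j c z)) :
    ((Vpi fun k => (C k).V).pt Ω →₀ ℤ) ⧸ (Vpi fun k => (C k).V).ratEq K Ω) = 0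
  rw [QuotientAddGroup.eq_zero_iff]
  refine nm_ratEq (ctr_ratEq hij hc hz) fun γ hγ => ?_
  rw [ctr_smul (fun k => hcf k γ hγ), hzf γ hγ]

/-- Proof: `hom_nm` for `ctr i j c` (`ctr_smul`), `nm_tr`. -/
theorem xn_nm {M N : IntermediateField K Ω} [FiniteDimensional K M] [FiniteDimensional K N]
    (h : M ≤ N) {i j : ι} {c : ∀ k, (C k).V.pt Ω →₀ ℤ} (hcf : ∀ k, Fx M (c k))
    {z : (Vpr (C i).V (C j).V).pt Ω →₀ ℤ} (hz : Fx N z) :
    xnm M i j c (Nm M N z) = xnm N i j c z := by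
  change (QuotientAddGroup.mk (Nm (K := K) ⊥ M (ctr i j c (Nm M N z))) :
    ((Vpi fun k => (C k).V).pt Ω →₀ ℤ) ⧸ (Vpi fun k => (C k).V).ratEq K Ω) =
      QuotientAddGroup.mk (Nm (K := K) ⊥ N (ctr i j c z))
  have hfx : Fx N (ctr i j c z) := fun γ hγ => by
    rw [ctr_smul (fun k => hcf k γ (IntermediateField.fixingSubgroup_le h hγ)), hz γ hγ]
  rw [hom_nm (ctr i j c) h (fun γ hγ a => (ctr_smul (fun k => hcf k γ hγ) a).symm) z,
    ← nm_tr bot_le h hfx]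

end CV
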