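import Pool.Agent.Lib.MP_f80667_ag.Ctf.TC3

/-! # The contraction of displacements -/

set_option autoImplicit false

open ZC BE PE Polynomial IntermediateField Function

namespace CV

variable {F : Type} [Field F] {K Ω : Type} [Field K] [CharZero K] [Field Ω] [Algebra K Ω]
  [Algebra F K] [Algebra F Ω] [IsScalarTower F K Ω] [IsAlgClosure K Ω]
  {ι : Type} [Fintype ι] [DecidableEq ι] {C : ι → Crv F} {L : Ld K Ω}
  {m : ∀ k, Mod (C k) (Ok L) K}

/-- Proof: as `sg_dsp` (`Cv/EtG.lean`): `dsp_gen`, `xn_nm`, `xn_pt`, additivity in the entries `i`, `j`, `dl_of`, `dsp_pt`. -/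
theorem xn_dsp {π : K} {M : IntermediateField K Ω} (hM : Um L M) [FiniteDimensional K M]
    {i j : ι} (hij : i ≠ j) {c : ∀ k, (C k).V.pt Ω →₀ ℤ} (hcf : ∀ k, Fx M (c k)) {N : ℕ}
    {z : (Vpr (C i).V (C j).V).pt Ω →₀ ℤ}
    (hz : z ∈ Dsp L (Vpr (C i).V (C j).V)
      (Nr₂ (m i) (m j) (L.nm (algebraMap K Ω π) ^ N)) M) :
    xnm M i j c z ∈ PsG m π M i j c N := by
  rw [dsp_gen] at hz
  have h1 : AddSubgroup.closure {z | ∃ M' y y', Em L M M' ∧ Fp (Vpr (C i).V (C j).V) M' y ∧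
      Fp (Vpr (C i).V (C j).V) M' y' ∧
      Nr₂ (m i) (m j) (L.nm (algebraMap K Ω π) ^ N) y y' ∧
      z = Nm M M' (Finsupp.single y 1 - Finsupp.single y' 1 :
        (Vpr (C i).V (C j).V).pt Ω →₀ ℤ)} ≤ (PsG m π M i j c N).comap (xnm M i j c) := by
    rw [AddSubgroup.closure_le]
    rintro z ⟨M', y, y', hE, hy, hy', hn, rfl⟩
    have := hE.fd
    change xnm M i j c _ ∈ PsG m π M i j c N
    have hy1 : Fp (C i).V M' y.1 := fun γ hγ => congrArg Prod.fst (hy γ hγ)
    have hy2 : Fp (C j).V M' y.2 := fun γ hγ => congrArg Prod.snd (hy γ hγ)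
    have hy1' : Fp (C i).V M' y'.1 := fun γ hγ => congrArg Prod.fst (hy' γ hγ)
    have hy2' : Fp (C j).V M' y'.2 := fun γ hγ => congrArg Prod.snd (hy' γ hγ)
    have hc' : ∀ k, Fx M' (c k) := fun k => (hcf k).mono hE.1
    have hu : ∀ (a : (C i).V.pt Ω →₀ ℤ) (b : (C j).V.pt Ω →₀ ℤ),
        ud c i j a b = update (update c j b) i a := by
      intro a b
      unfold ud
      exact update_comm hij a b c
    have e1 : ∀ (a a' : (C i).V.pt Ω →₀ ℤ) (b : (C j).V.pt Ω →₀ ℤ), Fx M' a → Fx M' a' →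
        Fx M' b → (smN (K := K) C).sy M' (ud c i j (a - a') b) =
          (smN (K := K) C).sy M' (ud c i j a b) - (smN (K := K) C).sy M' (ud c i j a' b) := by
      intro a a' b ha ha' hb
      rw [hu, hu, hu]
      exact Sm.sub (fx_ud hc' hb) ha ha'
    have e2 : ∀ (a : (C i).V.pt Ω →₀ ℤ) (b b' : (C j).V.pt Ω →₀ ℤ), Fx M' a → Fx M' b →
        Fx M' b' → (smN (K := K) C).sy M' (ud c i j a (b - b')) =
          (smN (K := K) C).sy M' (ud c i j a b) - (smN (K := K) C).sy M' (ud c i j a b') := by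
      intro a b b' ha hb hb'
      exact Sm.sub (fx_ud hc' ha) hb hb'
    rw [xn_nm hE.1 hcf ((fx_single hy 1).sub (fx_single hy' 1)), map_sub, xn_pt, xn_pt]
    have e3 : (smN (K := K) C).sy M' (ud c i j (Finsupp.single y.1 1) (Finsupp.single y.2 1)) -
        (smN (K := K) C).sy M' (ud c i j (Finsupp.single y'.1 1) (Finsupp.single y'.2 1)) =
        (smN (K := K) C).sy M' (ud c i j (Finsupp.single y.1 1 - Finsupp.single y'.1 1)
          (Finsupp.single y.2 1)) +
        (smN (K := K) C).sy M' (ud c i j (Finsupp.single y'.1 1)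
          (Finsupp.single y.2 1 - Finsupp.single y'.2 1)) := by
      rw [e1 _ _ _ (fx_single hy1 1) (fx_single hy1' 1) (fx_single hy2 1),
        e2 _ _ _ (fx_single hy1' 1) (fx_single hy2 1) (fx_single hy2' 1)]
      abel
    rw [e3]
    refine (PsG m π M i j c N).add_mem (AddSubgroup.subset_closure ⟨M', _, _, hE,
      Or.inl ⟨?_, ?_⟩, rfl⟩) (AddSubgroup.subset_closure ⟨M', _, _, hE, Or.inr ⟨?_, ?_⟩, rfl⟩)
    · refine dl_of ((fx_single hy1 1).sub (fx_single hy1' 1)) ?_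
        (AddSubgroup.mem_sup_right (dsp_pt hy1 hy1' hn.1))
      rw [map_sub]
      simp [Vr.deg]
    · exact fx_single hy2 1
    · exact fx_single hy1' 1
    · refine dl_of ((fx_single hy2 1).sub (fx_single hy2' 1)) ?_
        (AddSubgroup.mem_sup_right (dsp_pt hy2 hy2' hn.2))
      rw [map_sub]
      simp [Vr.deg]
  exact h1 hz

end CV
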