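import Pool.Agent.Lib.MP_f80667_ag.Ctf.TC4

/-! # The comparison for symbols -/

set_option autoImplicit false

open ZC BE PE Polynomial IntermediateField Function

namespace CV

variable {F : Type} [Field F] {K Ω : Type} [Field K] [CharZero K] [Field Ω] [Algebra K Ω]
  [Algebra F K] [Algebra F Ω] [IsScalarTower F K Ω] [IsAlgClosure K Ω]
  {ι : Type} [Fintype ι] [DecidableEq ι] {C : ι → Crv F} {L : Ld K Ω}
  {m : ∀ k, Mod (C k) (Ok L) K}

/-- The comparison for symbols. Proof: as `cx_sy` (`Cv/EtG.lean`) with `xnm M i j c` instead of `sgh M` (`xn_ratEq`, `xn_dsp`,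
`xn_pt`). -/
theorem cx_syN {i j : ι} (hcx : ExC2 (m i) (m j)) {π : K} (hπ : Uf L π)
    {M : IntermediateField K Ω} (hM : Um L M) (hij : i ≠ j) {c : ∀ k, (C k).V.pt Ω →₀ ℤ}
    (hcf : ∀ k, Fx M (c k)) (hc : ∀ k, ∀ x ∈ (c k).support, Fp (C k).V M x)
    (T₁ : Cht (m i) M) (T₂ : Cht (m j) M) {r₁ r₂ : Polynomial Ω} (h₁ : Ipo L M r₁)
    (h₂ : Ipo L M r₂) {N : ℕ} (hN : N ≠ 0) {s t : Multiset (Om L M)} (hst₀ : s.card = t.card)
    (hs : ∀ z ∈ s, L.nm (z : Ω) < 1) (ht : ∀ z ∈ t, L.nm (z : Ω) < 1) {w : Om L M}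
    (hw : (w : Ω) = algebraMap K Ω π) (hst : Polynomial.C (w ^ N) ∣ lin s - lin t) :
    (s.map fun z : Om L M => (smN (K := K) C).sy M (ud c i j
      (Finsupp.single (T₁.P (r₁.eval (z : Ω))) 1)
      (Finsupp.single (T₂.P (r₂.eval (z : Ω))) 1))).sum -
    (t.map fun z : Om L M => (smN (K := K) C).sy M (ud c i j
      (Finsupp.single (T₁.P (r₁.eval (z : Ω))) 1)
      (Finsupp.single (T₂.P (r₂.eval (z : Ω))) 1))).sum ∈ PsG m π M i j c N := by
  have hfd := Um.fd hM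
  set P : Ω → (Vpr (C i).V (C j).V).pt Ω := fun w => pp (T₁.P (r₁.eval w)) (T₂.P (r₂.eval w))
    with hP
  have hc0 := L.nonneg (algebraMap K Ω π)
  have hc1 : L.nm (algebraMap K Ω π) ^ N < 1 := pow_lt_one₀ hc0 hπ.lt hN
  have key := hcx M hfd T₁ T₂ r₁ r₂ h₁ h₂ ((lin s).map (Om L M).subtype)
    ((lin t).map (Om L M).subtype) (L.nm (algebraMap K Ω π) ^ N) (dpo_lin s hs) (dpo_lin t ht)
    (by rw [deg_lin, deg_lin, hst₀]) hc1 (fun i => by
      obtain ⟨q, hq⟩ := hst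
      have e1 : ((lin s).map (Om L M).subtype).coeff i - ((lin t).map (Om L M).subtype).coeff i =
          (algebraMap K Ω π) ^ N * (q.coeff i : Ω) := by
        rw [← coeff_sub, ← Polynomial.map_sub, hq, coeff_map, coeff_C_mul, map_mul, map_pow]
        change (w : Ω) ^ N * _ = _
        rw [hw]
        rfl
      rw [e1, L.mul, L.pow]
      exact mul_le_of_le_one_right (pow_nonneg hc0 N) (q.coeff i).2.2)
  obtain ⟨z₁, hz₁, z₂, hz₂, e⟩ := AddSubgroup.mem_sup.1 key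
  have hact : ∀ γ ∈ M.fixingSubgroup, ∀ w, L.nm w < 1 →
      (Vpr (C i).V (C j).V).act γ (P w) = P (γ w) := by
    intro γ hγ w hw
    refine Prod.ext ?_ ?_
    · change (C i).V.act γ (T₁.P (r₁.eval w)) = T₁.P (r₁.eval (γ w))
      rw [T₁.eqv γ hγ _ (h₁.eval_lt hw), h₁.eval_act hγ]
    · change (C j).V.act γ (T₂.P (r₂.eval w)) = T₂.P (r₂.eval (γ w))
      rw [T₂.eqv γ hγ _ (h₂.eval_lt hw), h₂.eval_act hγ]
  have hsum : ∀ u : Multiset (Om L M), xnm M i j c (rcy P ((lin u).map (Om L M).subtype)) =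
      (u.map fun z : Om L M => (smN (K := K) C).sy M (ud c i j
        (Finsupp.single (T₁.P (r₁.eval (z : Ω))) 1)
        (Finsupp.single (T₂.P (r₂.eval (z : Ω))) 1))).sum := by
    intro u
    rw [rcy, roots_lin, Multiset.map_map, map_multiset_sum, Multiset.map_map]
    congr 1
    refine Multiset.map_congr rfl fun z _ => ?_
    exact xn_pt M i j c (P (z : Ω))
  have hz1 : Fx M z₁ := by
    have e1 : z₁ = (rcy P ((lin s).map (Om L M).subtype) -
        rcy P ((lin t).map (Om L M).subtype)) - z₂ := by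
      rw [← e, add_sub_cancel_right]
    rw [e1]
    exact ((rcy_fx (dpo_lin s hs) P hact).sub (rcy_fx (dpo_lin t ht) P hact)).sub (dsp_fx hz₂)
  rw [← hsum, ← hsum, ← map_sub, ← e, map_add]
  have e2 : xnm M i j c z₁ = 0 := xn_ratEq hij hcf hc hz₁ hz1
  rw [e2, zero_add]
  exact xn_dsp hM hij hcf hz₂

end CV
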