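import Pool.Agent.Lib.MP_f80667_ag.Ctf.TC5
import Pool.Agent.Lib.MP_f80667_ag.Ct.K

/-! # The relation -/

set_option autoImplicit false

open ZC BE PE Polynomial IntermediateField Function

namespace CV

variable {F : Type} [Field F] {K Ω : Type} [Field K] [CharZero K] [Field Ω] [Algebra K Ω]
  [Algebra F K] [Algebra F Ω] [IsScalarTower F K Ω] [IsAlgClosure K Ω]
  {ι : Type} [Fintype ι] [DecidableEq ι] {C : ι → Crv F} {L : Ld K Ω}
  {m : ∀ k, Mod (C k) (Ok L) K}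

private theorem t6_sub₁ {i j : ι} (hij : i ≠ j) {M : IntermediateField K Ω}
    [FiniteDimensional K M] {c : ∀ k, (C k).V.pt Ω →₀ ℤ} (hcf : ∀ k, Fx M (c k))
    {a a' : (C i).V.pt Ω →₀ ℤ} {b : (C j).V.pt Ω →₀ ℤ} (ha : Fx M a) (ha' : Fx M a')
    (hb : Fx M b) : (smN (K := K) C).sy M (ud c i j (a - a') b) =
      (smN (K := K) C).sy M (ud c i j a b) - (smN (K := K) C).sy M (ud c i j a' b) := by
  unfold ud
  rw [Function.update_comm hij, Function.update_comm hij, Function.update_comm hij]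
  exact Sm.sub (fx_ud hcf hb) ha ha'

private theorem t6_sub₂ {i j : ι} {M : IntermediateField K Ω}
    [FiniteDimensional K M] {c : ∀ k, (C k).V.pt Ω →₀ ℤ} (hcf : ∀ k, Fx M (c k))
    {a : (C i).V.pt Ω →₀ ℤ} {b b' : (C j).V.pt Ω →₀ ℤ} (ha : Fx M a) (hb : Fx M b)
    (hb' : Fx M b') : (smN (K := K) C).sy M (ud c i j a (b - b')) =
      (smN (K := K) C).sy M (ud c i j a b) - (smN (K := K) C).sy M (ud c i j a b') :=
  Sm.sub (fx_ud hcf ha) hb hb'

/-- The symbol of two displacements. -/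
private theorem t6_dsc {i j : ι} (hij : i ≠ j) {M : IntermediateField K Ω} (hM : Um L M)
    {c : ∀ k, (C k).V.pt Ω →₀ ℤ} (hcf : ∀ k, Fx M (c k)) (T₁ : Cht (m i) M) (T₂ : Cht (m j) M)
    {p q : Ω} (hp : p ∈ M) (hq : q ∈ M) (hp1 : L.nm p < 1) (hq1 : L.nm q < 1) :
    (smN (K := K) C).sy M (ud c i j (dsc T₁ p) (dsc T₂ q)) =
      (smN (K := K) C).sy M (ud c i j (Finsupp.single (T₁.P p) 1) (Finsupp.single (T₂.P q) 1)) -
      (smN (K := K) C).sy M (ud c i j (Finsupp.single (T₁.P p) 1) (Finsupp.single (T₂.P 0) 1)) -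
      ((smN (K := K) C).sy M (ud c i j (Finsupp.single (T₁.P 0) 1) (Finsupp.single (T₂.P q) 1)) -
      (smN (K := K) C).sy M (ud c i j (Finsupp.single (T₁.P 0) 1)
        (Finsupp.single (T₂.P 0) 1))) := by
  have hfd := Um.fd hM
  have f1 : Fx M (Finsupp.single (T₁.P p) 1 : (C i).V.pt Ω →₀ ℤ) :=
    fx_single ((cht_fp T₁ hp1).2 hp) 1
  have f2 : Fx M (Finsupp.single (T₂.P q) 1 : (C j).V.pt Ω →₀ ℤ) :=
    fx_single ((cht_fp T₂ hq1).2 hq) 1
  have f3 : Fx M (Finsupp.single (T₁.P 0) 1 : (C i).V.pt Ω →₀ ℤ) :=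
    fx_single ((cht_fp T₁ nm_zero_lt).2 (zero_mem M)) 1
  have f4 : Fx M (Finsupp.single (T₂.P 0) 1 : (C j).V.pt Ω →₀ ℤ) :=
    fx_single ((cht_fp T₂ nm_zero_lt).2 (zero_mem M)) 1
  rw [dsc, dsc, t6_sub₁ hij hcf f1 f3 (f2.sub f4), t6_sub₂ hcf f1 f2 f4,
    t6_sub₂ hcf f3 f2 f4]

/-- The relation for displacements. Proof: as `rl_cx` (`Ct/R.lean`) with `a = 1`, `s = {w, w'}`, `t = {0, w + w'}`
(`lin_pair` of `Ct/K.lean`), `cx_syN` for `(r₁, r₂) = (x X, y X)`, `(x X, 0)`, `(0, y X)` and the bilinear expansion. -/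
theorem ln_N {i j : ι} (hcx : ExC2 (m i) (m j)) {π : K} (hπ : Uf L π)
    {M : IntermediateField K Ω} (hM : Um L M) (hij : i ≠ j) {c : ∀ k, (C k).V.pt Ω →₀ ℤ}
    (hc : ∀ k, ∃ (T : Cht (m k) M) (z : Om L M), L.nm (z : Ω) < 1 ∧ c k = dsc T (z : Ω))
    (T₁ : Cht (m i) M) (T₂ : Cht (m j) M) (x y w w' : Om L M) {N : ℕ} (hN : N ≠ 0)
    (hw : L.nm (w : Ω) < 1) (hw' : L.nm (w' : Ω) < 1)
    (hww : L.nm ((w * w' : Om L M) : Ω) ≤ L.nm (algebraMap K Ω π) ^ N) :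
    (smN (K := K) C).sy M (ud c i j (dsc T₁ ((x * w : Om L M) : Ω))
        (dsc T₂ ((y * w : Om L M) : Ω))) +
      (smN (K := K) C).sy M (ud c i j (dsc T₁ ((x * w' : Om L M) : Ω))
        (dsc T₂ ((y * w' : Om L M) : Ω))) -
      ((smN (K := K) C).sy M (ud c i j (dsc T₁ ((0 : Om L M) : Ω))
        (dsc T₂ ((0 : Om L M) : Ω))) +
      (smN (K := K) C).sy M (ud c i j (dsc T₁ ((x * (w + w') : Om L M) : Ω))
        (dsc T₂ ((y * (w + w') : Om L M) : Ω)))) ∈ PsG m π M i j c N := by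
  have hfd := Um.fd hM
  have hcf : ∀ k, Fx M (c k) := by
    intro k
    obtain ⟨T, z, hz, hk⟩ := hc k
    rw [hk]
    exact dsc_fx T hz z.2.1
  have hcs : ∀ k, ∀ v ∈ (c k).support, Fp (C k).V M v := by
    classical
    intro k v hv
    obtain ⟨T, z, hz, hk⟩ := hc k
    rw [hk, dsc] at hv
    have h1 := Finset.mem_union.1 (Finsupp.support_sub hv)
    rcases h1 with h1 | h1
    · have h2 := Finset.mem_singleton.1 (Finsupp.support_single_subset h1)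
      rw [h2]
      exact (cht_fp T hz).2 z.2.1
    · have h2 := Finset.mem_singleton.1 (Finsupp.support_single_subset h1)
      rw [h2]
      exact (cht_fp T nm_zero_lt).2 (zero_mem M)
  obtain ⟨w₀, hw₀, hdvd⟩ : ∃ w₀ : Om L M, (w₀ : Ω) = algebraMap K Ω π ∧
      w₀ ^ N ∣ w * w' :=
    ⟨⟨algebraMap K Ω π, mem_Om.2 ⟨M.algebraMap_mem π, hπ.lt.le⟩⟩, rfl,
      (twL_dvd hπ (w * w') N).2 hww⟩
  have hadd : L.nm ((w + w' : Om L M) : Ω) < 1 := (L.add _ _).trans_lt (max_lt hw hw')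
  have h0 : L.nm ((0 : Om L M) : Ω) < 1 := nm_zero_lt
  have hmul : ∀ (u z : Om L M), L.nm (z : Ω) < 1 → L.nm ((u * z : Om L M) : Ω) < 1 := by
    intro u z hz
    change L.nm ((u : Ω) * (z : Ω)) < 1
    rw [L.mul]
    exact (mul_le_of_le_one_left (L.nonneg _) u.2.2).trans_lt hz
  have hr₁ : Ipo L M (Polynomial.C (x : Ω) * X ^ 1) :=
    ipo_mon x.2.1 x.2.2 fun h => absurd h one_ne_zero
  have hr₂ : Ipo L M (Polynomial.C (y : Ω) * X ^ 1) :=
    ipo_mon y.2.1 y.2.2 fun h => absurd h one_ne_zero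
  have hr0 : Ipo L M (0 : Polynomial Ω) :=
    ⟨fun i => by rw [coeff_zero]; exact zero_mem M, fun i => by
      rw [coeff_zero, L.zero]; exact zero_le_one, by rw [coeff_zero]; exact nm_zero_lt⟩
  have e : ∀ u z : Om L M, (Polynomial.C (u : Ω) * X ^ 1 : Polynomial Ω).eval (z : Ω) =
      ((u * z : Om L M) : Ω) := by
    intro u z
    simp only [eval_mul, eval_C, eval_X, Subring.coe_mul, pow_one]
  have hcard : ({w, w'} : Multiset (Om L M)).card = ({0, w + w'} : Multiset (Om L M)).card := by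
    rfl
  have hs : ∀ z ∈ ({w, w'} : Multiset (Om L M)), L.nm (z : Ω) < 1 := by
    intro z hz
    rcases Multiset.mem_cons.1 hz with rfl | hz
    · exact hw
    · rw [Multiset.mem_singleton.1 hz]
      exact hw'
  have ht : ∀ z ∈ ({0, w + w'} : Multiset (Om L M)), L.nm (z : Ω) < 1 := by
    intro z hz
    rcases Multiset.mem_cons.1 hz with rfl | hz
    · exact h0
    · rw [Multiset.mem_singleton.1 hz]
      exact hadd
  have hst : Polynomial.C (w₀ ^ N) ∣ lin ({w, w'} : Multiset (Om L M)) -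
      lin ({0, w + w'} : Multiset (Om L M)) := by
    obtain ⟨u, hu⟩ := hdvd
    refine ⟨Polynomial.C u, ?_⟩
    rw [lin_pair, hu, Polynomial.C_mul]
  have m1 := cx_syN hcx hπ hM hij hcf hcs T₁ T₂ hr₁ hr₂ hN hcard hs ht hw₀ hst
  have m2 := cx_syN hcx hπ hM hij hcf hcs T₁ T₂ hr₁ hr0 hN hcard hs ht hw₀ hst
  have m3 := cx_syN hcx hπ hM hij hcf hcs T₁ T₂ hr0 hr₂ hN hcard hs ht hw₀ hst
  simp only [Multiset.insert_eq_cons, Multiset.map_cons, Multiset.map_singleton,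
    Multiset.sum_cons, Multiset.sum_singleton, e, eval_zero] at m1 m2 m3
  have hx0 : ((x * 0 : Om L M) : Ω) = 0 := by rw [mul_zero]; rfl
  have hy0 : ((y * 0 : Om L M) : Ω) = 0 := by rw [mul_zero]; rfl
  rw [hx0, hy0] at m1
  rw [hx0] at m2
  rw [hy0] at m3
  have z0 : ((0 : Om L M) : Ω) = 0 := rfl
  rw [z0, t6_dsc hij hM hcf T₁ T₂ (x * w).2.1 (y * w).2.1 (hmul x w hw) (hmul y w hw),
    t6_dsc hij hM hcf T₁ T₂ (x * w').2.1 (y * w').2.1 (hmul x w' hw') (hmul y w' hw'),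
    t6_dsc hij hM hcf T₁ T₂ (zero_mem M) (zero_mem M) nm_zero_lt nm_zero_lt,
    t6_dsc hij hM hcf T₁ T₂ (x * (w + w')).2.1 (y * (w + w')).2.1 (hmul x _ hadd)
      (hmul y _ hadd)]
  have key := sub_mem m1 (add_mem m2 m3)
  refine (congrArg (fun g => g ∈ PsG m π M i j c N) ?_).mp key
  abel

end CV
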