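import Pool.Agent.Lib.MP_f80667_ag.Ctf.TC
import Pool.Agent.Lib.MP_f80667_ag.Ctf.TB2
import Pool.Agent.Lib.MP_f80667_ag.Ctf.TB3

/-! # Symbols over unramified extensions -/

set_option autoImplicit false

open ZC BE PE Polynomial IntermediateField Function

namespace CV

variable {F : Type} [Field F] {K Ω : Type} [Field K] [CharZero K] [Field Ω] [Algebra K Ω]
  [Algebra F K] [Algebra F Ω] [IsScalarTower F K Ω] [IsAlgClosure K Ω]
  {ι : Type} [Fintype ι] [DecidableEq ι] {C : ι → Crv F} {L : Ld K Ω}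

/-- `T` is generated by the symbols over unramified extensions. Proof: `pts_gen` with `s = univ`; over `M'`: `smN_pt`,
`move`, `io_le` (as in `loc` of `Cv/LocN.lean`), `tn_ratEq`, `smN_pt` over the fields `M ≤ L.Ur ⊥ N` of `Uo`. -/
theorem top_N (m : ∀ k, Mod (C k) (Ok L) K) : (smN (K := K) (Ω := Ω) C).T ≤ AddSubgroup.closure
    {g | ∃ (M : IntermediateField K Ω) (a : ∀ k, (C k).V.pt Ω →₀ ℤ), Um L M ∧
      (∀ k, Fx M (a k)) ∧ g = (smN (K := K) C).sy M a} := by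
  refine (AddSubgroup.closure_le _).2 ?_
  rintro _ ⟨M, a, hfd, ha, rfl⟩
  refine pts_gen Finset.univ ha fun M' w hM' _ hw => ?_
  have e1 : (fun k => if k ∈ (Finset.univ : Finset ι) then Finsupp.single (w k) 1 else a k :
      ∀ k, (C k).V.pt Ω →₀ ℤ) = fun k => Finsupp.single (w k) 1 :=
    funext fun k => if_pos (Finset.mem_univ k)
  rw [e1, smN_pt]
  have hx : Fp (Vpi fun i => (C i).V) M' w := fun γ hγ => funext fun i => hw i γ hγ
  have h1 := move m (fun i => exPr (C i)) (fun i => exIf (m i)) hx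
  have h2 := io_le m (fun J _ σ => exCx fun j => m (σ j)) (fun i => exRs (m i))
    fun i => exCh (m i)
  have h3 : (Vpi fun i => (C i).V).ratEq K Ω ⊔ Io m ≤
      (Vpi fun i => (C i).V).ratEq K Ω ⊔ Uo L C := sup_le le_sup_left h2
  obtain ⟨z₁, hz₁, z₂, hz₂, e2⟩ := AddSubgroup.mem_sup.1 (h3 h1)
  let φ : ((Vpi fun k => (C k).V).pt Ω →₀ ℤ) →+
      (((Vpi fun k => (C k).V).pt Ω →₀ ℤ) ⧸ (Vpi fun k => (C k).V).ratEq K Ω) :=
    (QuotientAddGroup.mk' _).comp (tn C)
  change φ (Nm (⊥ : IntermediateField K Ω) M' (Finsupp.single w 1)) ∈ _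
  rw [← e2, map_add]
  have h4 : φ z₁ = 0 := (QuotientAddGroup.eq_zero_iff _).2 (tn_ratEq C K hz₁)
  rw [h4, zero_add]
  have h5 : Uo L C ≤ (AddSubgroup.closure
      {g | ∃ (M : IntermediateField K Ω) (a : ∀ k, (C k).V.pt Ω →₀ ℤ), Um L M ∧
        (∀ k, Fx M (a k)) ∧ g = (smN (K := K) C).sy M a}).comap φ := by
    refine (AddSubgroup.closure_le _).2 ?_
    rintro _ ⟨N, M'', y, hN, hM'', hy, rfl⟩
    have hU : Um L M'' := ⟨N, hN, hM''⟩
    have hfd'' := hU.fd
    have hyk : ∀ k, Fp (C k).V M'' (y k) := fun k γ hγ => congrFun (hy γ hγ) k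
    refine AddSubgroup.subset_closure ⟨M'', fun k => Finsupp.single (y k) 1, hU, fun k =>
      fx_single (hyk k) 1, ?_⟩
    exact (smN_pt (C := C) y).symm
  exact h5 hz₂

end CV
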