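import Pool.Agent.Lib.MP_f80667_ag.Ctf.TE
import Pool.Agent.Lib.MP_f80667_ag.Ctf.TB5

/-! # Representatives -/

set_option autoImplicit false

open ZC BE PE Polynomial IntermediateField Function

namespace CV

variable {F : Type} [Field F] {K Ω : Type} [Field K] [CharZero K] [Field Ω] [Algebra K Ω]
  [Algebra F K] [Algebra F Ω] [IsScalarTower F K Ω] [IsAlgClosure K Ω]
  {ι : Type} [Fintype ι] [DecidableEq ι] {C : ι → Crv F}

omit [Field K] [CharZero K] [Algebra K Ω] [Algebra F K] [IsScalarTower F K Ω]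
  [IsAlgClosure K Ω] [Fintype ι] [DecidableEq ι] in
private theorem te4_const {V : Vr F} {Y : Type} (o : Y) {z : V.pt Ω →₀ ℤ} (hz : V.deg Ω z = 0) :
    Finsupp.mapDomain (fun _ : V.pt Ω => o) z = 0 := by
  have h1 : ∀ u : V.pt Ω →₀ ℤ, Finsupp.mapDomain (fun _ : V.pt Ω => o) u =
      Finsupp.single o (V.deg Ω u) := by
    intro u
    induction u using Finsupp.induction_linear with
    | zero => simp
    | add f g hf hg => rw [Finsupp.mapDomain_add, hf, hg, map_add, Finsupp.single_add]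
    | single a n => rw [Finsupp.mapDomain_single, Vr.deg, Finsupp.liftAddHom_apply_single]; rfl
  rw [h1, hz, Finsupp.single_zero]

/-- Representatives. Proof: `t_repN` for the subproduct, push forward with `ej C J` (`Mo.D0`); the push-forward to a factor
in `J` is `0`, to the other factors it is `deg z [∞] = 0`. -/
theorem rep_J {J : Finset ι} (hJ : 2 ≤ J.card) {g : ((Vpi fun k : J => (C k).V).pt Ω →₀ ℤ) ⧸
      (Vpi fun k : J => (C k).V).ratEq K Ω} (hg : g ∈ (smN (K := K) (Ω := Ω) fun k : J => C k).T) :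
    ∃ z ∈ (Vpi fun k => (C k).V).D0 K Ω,
      (∀ i, Finsupp.mapDomain ((pr i).f Ω) z = (0 : (C i).V.pt Ω →₀ ℤ)) ∧
      ejh K Ω C J g = QuotientAddGroup.mk z := by
  have hJn : Nontrivial J := by
    rw [← Fintype.one_lt_card_iff_nontrivial, Fintype.card_coe]
    omega
  obtain ⟨z, hz, hp, rfl⟩ := t_repN hg
  refine ⟨Finsupp.mapDomain ((ej C J).f Ω) z, (ej C J).D0 hz, fun i => ?_, rfl⟩
  rw [← Finsupp.mapDomain_comp]
  by_cases hi : i ∈ J
  · have h1 : (pr i).f Ω ∘ (ej C J).f Ω = (pr (V := fun k : J => (C k).V) ⟨i, hi⟩).f Ω := by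
      funext y
      change (if h : i ∈ J then y ⟨i, h⟩ else (C i).bp.o Ω) = y ⟨i, hi⟩
      rw [dif_pos hi]
    rw [h1]
    exact hp ⟨i, hi⟩
  · have h1 : (pr i).f Ω ∘ (ej C J).f Ω = fun _ => (C i).bp.o Ω := by
      funext y
      change (if h : i ∈ J then y ⟨i, h⟩ else (C i).bp.o Ω) = (C i).bp.o Ω
      rw [dif_neg hi]
    rw [h1]
    exact te4_const _ hz.2

end CV
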