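import Pool.Agent.Lib.MP_f80667_ag.Ctf.TE3
import Pool.Agent.Lib.MP_f80667_ag.Ctf.TE4

/-! # From the subproducts to the Albanese kernel -/

set_option autoImplicit false

open ZC BE PE Polynomial IntermediateField Function

namespace CV

variable {F : Type} [Field F] {K Ω : Type} [Field K] [CharZero K] [Field Ω] [Algebra K Ω]
  [Algebra F K] [Algebra F Ω] [IsScalarTower F K Ω] [IsAlgClosure K Ω]
  {ι : Type} [Fintype ι] [DecidableEq ι] {C : ι → Crv F}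

/-- From the subproducts to the Albanese kernel. Proof: `E` is the set of the sums over `J` of the chosen representatives
(`rep_J`) of `x J`, `x J` in `E J`; `dec_T`, `g J - x J = n t J`, `t J` in `T`, representatives of the `t J`. -/
theorem fnG_of {n : ℕ} (h : ∀ J : Finset ι, 2 ≤ J.card →
      ∃ E : Set (((Vpi fun k : J => (C k).V).pt Ω →₀ ℤ) ⧸ (Vpi fun k : J => (C k).V).ratEq K Ω),
        E.Finite ∧ (∀ x ∈ E, x ∈ (smN (K := K) (Ω := Ω) fun k : J => C k).T) ∧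
        ∀ g ∈ (smN (K := K) (Ω := Ω) fun k : J => C k).T, ∃ x ∈ E,
          ∃ t ∈ (smN (K := K) (Ω := Ω) fun k : J => C k).T, g - x = n • t) :
    ∃ E : Set ((Vpi fun k => (C k).V).pt Ω →₀ ℤ), E.Finite ∧
      (∀ e ∈ E, e ∈ (Vpi fun k => (C k).V).D0 K Ω ∧
        ∀ i, Finsupp.mapDomain ((pr i).f Ω) e ∈ (C i).V.ratEq K Ω) ∧
      ∀ z ∈ (Vpi fun k => (C k).V).D0 K Ω,
        (∀ i, Finsupp.mapDomain ((pr i).f Ω) z ∈ (C i).V.ratEq K Ω) →
        ∃ e ∈ E, ∃ z' ∈ (Vpi fun k => (C k).V).D0 K Ω,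
          (∀ i, Finsupp.mapDomain ((pr i).f Ω) z' ∈ (C i).V.ratEq K Ω) ∧
          z - e - n • z' ∈ (Vpi fun k => (C k).V).ratEq K Ω := by
  classical
  have hr : ∀ (J : Finset ι) (g : ((Vpi fun k : J => (C k).V).pt Ω →₀ ℤ) ⧸
      (Vpi fun k : J => (C k).V).ratEq K Ω), ∃ z : (Vpi fun k => (C k).V).pt Ω →₀ ℤ,
      2 ≤ J.card → g ∈ (smN (K := K) (Ω := Ω) fun k : J => C k).T →
        z ∈ (Vpi fun k => (C k).V).D0 K Ω ∧
        (∀ i, Finsupp.mapDomain ((pr i).f Ω) z = (0 : (C i).V.pt Ω →₀ ℤ)) ∧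
        ejh K Ω C J g = QuotientAddGroup.mk z := by
    intro J g
    by_cases hJ : 2 ≤ J.card ∧ g ∈ (smN (K := K) (Ω := Ω) fun k : J => C k).T
    · obtain ⟨z, h1, h2, h3⟩ := rep_J hJ.1 hJ.2
      exact ⟨z, fun _ _ => ⟨h1, h2, h3⟩⟩
    · exact ⟨0, fun a b => absurd ⟨a, b⟩ hJ⟩
  choose r hr using hr
  have hE : ∀ J : Finset ι, ∃ E : Set (((Vpi fun k : J => (C k).V).pt Ω →₀ ℤ) ⧸
      (Vpi fun k : J => (C k).V).ratEq K Ω), E.Finite ∧
      (2 ≤ J.card → (∀ x ∈ E, x ∈ (smN (K := K) (Ω := Ω) fun k : J => C k).T) ∧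
        ∀ g ∈ (smN (K := K) (Ω := Ω) fun k : J => C k).T, ∃ x ∈ E,
          ∃ t ∈ (smN (K := K) (Ω := Ω) fun k : J => C k).T, g - x = n • t) ∧
      (¬ 2 ≤ J.card → 0 ∈ E) := by
    intro J
    by_cases hJ : 2 ≤ J.card
    · obtain ⟨E, h1, h2, h3⟩ := h J hJ
      exact ⟨E, h1, fun _ => ⟨h2, h3⟩, fun hc => absurd hJ hc⟩
    · exact ⟨{0}, Set.finite_singleton 0, fun hc => absurd hc hJ, fun _ => Set.mem_singleton 0⟩
  choose E hEf hE1 hE2 using hE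
  have hsum : ∀ w : ∀ J : Finset ι, ((Vpi fun k : J => (C k).V).pt Ω →₀ ℤ) ⧸
      (Vpi fun k : J => (C k).V).ratEq K Ω,
      (∀ J : Finset ι, 2 ≤ J.card → w J ∈ (smN (K := K) (Ω := Ω) fun k : J => C k).T) →
      (∑ J ∈ Finset.univ.filter (fun J : Finset ι => 2 ≤ J.card), r J (w J)) ∈
        (Vpi fun k => (C k).V).D0 K Ω ∧
      ∀ i, Finsupp.mapDomain ((pr i).f Ω)
        (∑ J ∈ Finset.univ.filter (fun J : Finset ι => 2 ≤ J.card), r J (w J)) ∈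
          (C i).V.ratEq K Ω := by
    intro w hw
    refine ⟨AddSubgroup.sum_mem _ fun J hJ => ?_, fun i => ?_⟩
    · have hJ2 := (Finset.mem_filter.1 hJ).2
      exact (hr J (w J) hJ2 (hw J hJ2)).1
    · rw [Finsupp.mapDomain_finsetSum, Finset.sum_eq_zero]
      · exact zero_mem _
      · intro J hJ
        have hJ2 := (Finset.mem_filter.1 hJ).2
        exact (hr J (w J) hJ2 (hw J hJ2)).2.1 i
  refine ⟨(fun x => ∑ J ∈ Finset.univ.filter (fun J : Finset ι => 2 ≤ J.card), r J (x J)) ''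
    (Set.univ.pi E), (Set.Finite.pi hEf).image _, ?_, ?_⟩
  · rintro e ⟨x, hx, rfl⟩
    exact hsum x fun J hJ => (hE1 J hJ).1 _ (hx J (Set.mem_univ J))
  · intro z hz hzi
    obtain ⟨g, hg, hzg⟩ := dec_T hz hzi
    have hx : ∀ J : Finset ι, ∃ x : ((Vpi fun k : J => (C k).V).pt Ω →₀ ℤ) ⧸
        (Vpi fun k : J => (C k).V).ratEq K Ω, x ∈ E J ∧
        ∃ t : ((Vpi fun k : J => (C k).V).pt Ω →₀ ℤ) ⧸ (Vpi fun k : J => (C k).V).ratEq K Ω,
          2 ≤ J.card → t ∈ (smN (K := K) (Ω := Ω) fun k : J => C k).T ∧ g J - x = n • t := by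
      intro J
      by_cases hJ : 2 ≤ J.card
      · obtain ⟨x, h1, t, h2, h3⟩ := (hE1 J hJ).2 (g J) (hg J hJ)
        exact ⟨x, h1, t, fun _ => ⟨h2, h3⟩⟩
      · exact ⟨0, hE2 J hJ, 0, fun hc => absurd hc hJ⟩
    choose x hxE t ht using hx
    have hs := hsum t fun J hJ => (ht J hJ).1
    refine ⟨_, ⟨x, fun J _ => hxE J, rfl⟩,
      ∑ J ∈ Finset.univ.filter (fun J : Finset ι => 2 ≤ J.card), r J (t J), hs.1, hs.2, ?_⟩
    rw [← QuotientAddGroup.eq_zero_iff]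
    change QuotientAddGroup.mk' ((Vpi fun k => (C k).V).ratEq K Ω) _ = 0
    rw [map_sub, map_sub, map_nsmul, map_sum, map_sum, Finset.smul_sum]
    have hz' : QuotientAddGroup.mk' ((Vpi fun k => (C k).V).ratEq K Ω) z =
        ∑ J ∈ Finset.univ.filter (fun J : Finset ι => 2 ≤ J.card), ejh K Ω C J (g J) := hzg
    rw [hz', ← Finset.sum_sub_distrib, ← Finset.sum_sub_distrib]
    refine Finset.sum_eq_zero fun J hJ => ?_
    have hJ2 := (Finset.mem_filter.1 hJ).2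
    have e1 : ejh K Ω C J (x J) = QuotientAddGroup.mk' ((Vpi fun k => (C k).V).ratEq K Ω)
        (r J (x J)) := (hr J (x J) hJ2 ((hE1 J hJ2).1 _ (hxE J))).2.2
    have e2 : ejh K Ω C J (t J) = QuotientAddGroup.mk' ((Vpi fun k => (C k).V).ratEq K Ω)
        (r J (t J)) := (hr J (t J) hJ2 (ht J hJ2).1).2.2
    rw [← e1, ← e2, ← map_nsmul, ← (ht J hJ2).2, map_sub, sub_self]

end CV
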