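import Pool.Agent.Lib.MP_f80667_ag.Ctf.TD4
import Pool.Agent.Lib.MP_f80667_ag.Ctf.TE5
import Pool.Agent.Lib.MP_f80667_ag.Cv.GlbD
import Pool.Agent.Lib.MP_f80667_ag.Ct.NB

/-!
# The local theorem: the Albanese kernel modulo `p` is finite

`rm_N`: the relations hold. `fin_N`: finiteness for the symbols of a product of curves. `lcF`: the local theorem.
-/

set_option autoImplicit false

open ZC BE PE Polynomial IntermediateField Function

namespace CV

variable {F : Type} [Field F] {K Ω : Type} [Field K] [CharZero K] [Field Ω] [Algebra K Ω]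
  [Algebra F K] [Algebra F Ω] [IsScalarTower F K Ω] [IsAlgClosure K Ω] {L : Ld K Ω}

/-- **The local theorem**, any ramification index. Proof: `fnG_of` and `fin_N` for the subproducts, `exists_pe`. -/
theorem lcF {ι : Type} [Finite ι] (C : ι → Crv F) : LcF C := by
  classical
  have _ : Fintype ι := Fintype.ofFinite ι
  intro K Ω _ _ _ _ _ _ _ _ L hm
  have m : ∀ i, Mod (C i) (Ok L) K := fun i => (hm i).some
  obtain ⟨π, e, he0, h0, h1, hπ, he⟩ := exists_pe L
  refine fnG_of fun J hJ => ?_
  have : Nontrivial J := Fintype.one_lt_card_iff_nontrivial.1 (by rw [Fintype.card_coe]; omega)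
  exact fin_N (fun k : J => m k) (uf_of h0 h1 hπ) he

end CV
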