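import Pool.Agent.Lib.MP_f80667_ag.Cv.EtA

/-! # A common unramified extension -/

set_option autoImplicit false

open ZC BE PE Polynomial IntermediateField Function

namespace CV

variable {F : Type} [Field F] {K Ω : Type} [Field K] [CharZero K] [Field Ω] [Algebra K Ω]
  [Algebra F K] [Algebra F Ω] [IsScalarTower F K Ω] [IsAlgClosure K Ω] {L : Ld K Ω}

/-- Every unramified field and `K₁ = L.Ur ⊥ n` have a common unramified extension. Proof: `M' = L.Ur M n`, `M ≤ L.Ur ⊥ N`: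
`M' ≤ L.Ur ⊥ (N * n) ≤ L.Ur K₁ (N * n)` (`ur_ur`, `ur_mono`, `ur_dvd` of `Pe/Bs.lean`, `Cv/EtA.lean`). -/
theorem dir_L {n : ℕ} (hn : n ≠ 0) (M : IntermediateField K Ω) (hM : Um L M) :
    ∃ M', Em L M M' ∧ Em L (L.Ur ⊥ n) M' := by
  obtain ⟨N, hN, hM⟩ := hM
  refine ⟨L.Ur M n, ⟨Ld.ur_le, n, hn, le_rfl⟩, Ld.ur_mono bot_le n, N * n,
    Nat.mul_ne_zero hN hn, ?_⟩
  refine le_trans ?_ (Ld.ur_mono bot_le (N * n))
  rw [← Ld.ur_ur ⊥ (Nat.dvd_mul_right N n)]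
  exact (Ld.ur_mono hM n).trans (Ld.ur_dvd _ (Nat.dvd_mul_left n N))

end CV
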