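import Pool.Agent.Lib.MP_f80667_ag.Ctf.B
import Pool.Agent.Lib.MP_f80667_ag.Cv.EtA
import Pool.Agent.Lib.MP_f80667_ag.Cv.EtV

/-! # The residue field of an unramified field is finite -/

set_option autoImplicit false

open ZC BE PE Polynomial IntermediateField Function

namespace CV

variable {F : Type} [Field F] {K Ω : Type} [Field K] [CharZero K] [Field Ω] [Algebra K Ω]
  [Algebra F K] [Algebra F Ω] [IsScalarTower F K Ω] [IsAlgClosure K Ω] {L : Ld K Ω}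

omit [Field F] [Algebra F K] [Algebra F Ω] [IsScalarTower F K Ω] in
private theorem res_Om {π : K} (hπ : Uf L π) {n : ℕ} (hn : n ≠ 0) :
    ∃ R : Finset (Om L (L.Ur ⊥ n)), ∀ x : Om L (L.Ur ⊥ n), ∃ r ∈ R,
      L.nm ((x - r : Om L (L.Ur ⊥ n)) : Ω) ≤ L.nm (algebraMap K Ω π) ^ 1 := by
  classical
  have hfd : FiniteDimensional K (L.Ur (⊥ : IntermediateField K Ω) n) := Ld.ur_fin ⊥ n hn
  have hU : Um L (L.Ur ⊥ n) := ⟨n, hn, le_rfl⟩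
  obtain ⟨S, hS, h⟩ := L.fin _ hfd
  refine ⟨S.attach.image fun s : {s // s ∈ S} =>
    (⟨(s : Ω), mem_Om.2 (hS s s.2)⟩ : Om L (L.Ur ⊥ n)), fun x => ?_⟩
  obtain ⟨s, hs, hxs⟩ := h (x : Ω) (mem_Om.1 x.2).1 (mem_Om.1 x.2).2
  refine ⟨⟨s, mem_Om.2 (hS s hs)⟩, Finset.mem_image.2 ⟨⟨s, hs⟩, Finset.mem_attach _ _, rfl⟩, ?_⟩
  refine hU.lt hπ (i := 0) ((L.Ur ⊥ n).sub_mem (mem_Om.1 x.2).1 (hS s hs).1) ?_
  rw [pow_zero]
  exact hxs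

/-- The residue field of an unramified field is finite. Proof: `te_res`, `te_pol` of `Ctf/B.lean` for `L.Ur ⊥ n`, or
`finOM`; `twL_dvd`. -/
theorem res_L {π : K} (hπ : Uf L π) {n : ℕ} (hn : n ≠ 0) :
    ∃ R : Finset ((twL L π hπ).O (L.Ur ⊥ n)), ∀ x, ∃ r ∈ R, (twL L π hπ).π (L.Ur ⊥ n) ∣ x - r := by
  obtain ⟨R, hR⟩ := res_Om hπ hn
  refine ⟨R, fun x => ?_⟩
  obtain ⟨r, hr, h⟩ := hR x
  refine ⟨r, hr, ?_⟩
  have h1 := (twL_dvd hπ _ 1).2 h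
  rw [pow_one] at h1
  exact h1

end CV
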