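import Pool.Agent.Lib.MP_f80667_ag.Ctf.FD
import Pool.Agent.Lib.MP_f80667_ag.Ctf.SC
import Pool.Agent.Lib.MP_f80667_ag.Ctf.TB4
import Pool.Agent.Lib.MP_f80667_ag.Ctf.TC6
import Pool.Agent.Lib.MP_f80667_ag.Ctf.TC7

/-! # The relations -/

set_option autoImplicit false

open ZC BE PE Polynomial IntermediateField Function

namespace CV

variable {F : Type} [Field F] {K Ω : Type} [Field K] [CharZero K] [Field Ω] [Algebra K Ω]
  [Algebra F K] [Algebra F Ω] [IsScalarTower F K Ω] [IsAlgClosure K Ω]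
  {ι : Type} [Fintype ι] [DecidableEq ι] {C : ι → Crv F} {L : Ld K Ω}

/-- The relations. Proof: `prime`: `L.pp`; `nul`: `smN_nul`, `exPr`; `top`: `top_N`; `ln`: `ln_N` (`cx2` for the pair, as in
`ct₂` of `Ct/NB.lean`; `twL_dvd`); `tr`: `Em.trans`. -/
theorem rm_N (m : ∀ k, Mod (C k) (Ok L) K) {π : K} (hπ : Uf L π) {e : ℕ}
    (he : L.nm (L.p : Ω) = L.nm (algebraMap K Ω π) ^ e) :
    Rm (fun k => lpE (m k) π hπ e he) (smN (K := K) (Ω := Ω) C) where
  prime := L.pp
  nul := by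
    intro M a i x hM ha hx
    have := Um.fd hM
    exact smN_nul (fun i => exPr (C i)) ha hx
  top := top_N m
  ln := by
    rintro M i j c _ _ x y w w' N hij hM ⟨T₁, rfl⟩ ⟨T₂, rfl⟩ hN hc hw hw' hww
    have hcx : ExC2 (m i) (m j) := cx2 (mod₂ (m i) (m j)) false true
      (fun k => by cases k <;> simp) (by simp) (exCx _)
    have hlt : ∀ z : (twL L π hπ).O M, (twL L π hπ).π M ∣ z →
        L.nm ((show Om L M from z) : Ω) < 1 := by
      intro z hz
      have h1 := (twL_dvd hπ (show Om L M from z) 1).1 (by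
        rw [pow_one]
        exact hz)
      rw [pow_one] at h1
      exact h1.trans_lt hπ.lt
    refine ln_N hcx hπ hM hij (fun k => ?_) T₁ T₂ x y w w' hN (hlt w hw) (hlt w' hw')
      ((twL_dvd hπ _ N).1 hww)
    obtain ⟨γ, ⟨T, rfl⟩, z, hz, h⟩ := hc k
    exact ⟨T, z, hlt z hz, h⟩
  tr := fun h h' => h.trans h'

end CV
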