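import Pool.Agent.Lib.MP_f80667_ag.Ctf.TD1
import Pool.Agent.Lib.MP_f80667_ag.Ctf.TD2
import Pool.Agent.Lib.MP_f80667_ag.Ctf.TD3
import Pool.Agent.Lib.MP_f80667_ag.Ctf.F
import Pool.Agent.Lib.MP_f80667_ag.Ctf.SE

/-! # The symbols of a product of curves modulo p -/

set_option autoImplicit false

open ZC BE PE Polynomial IntermediateField Function

namespace CV

variable {F : Type} [Field F] {K Ω : Type} [Field K] [CharZero K] [Field Ω] [Algebra K Ω]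
  [Algebra F K] [Algebra F Ω] [IsScalarTower F K Ω] [IsAlgClosure K Ω]
  {ι : Type} [Fintype ι] [DecidableEq ι] {C : ι → Crv F} {L : Ld K Ω}

/-- The symbols of a product of curves modulo `p`. Proof: `exists_fg` for every curve, `N` the product of the numbers,
`K₁ = L.Ur ⊥ N`; `dir_L`, `res_L`; `fm_fin` for `n = 1`. -/
theorem fin_N [Nontrivial ι] (m : ∀ k, Mod (C k) (Ok L) K) {π : K} (hπ : Uf L π) {e : ℕ}
    (he : L.nm (L.p : Ω) = L.nm (algebraMap K Ω π) ^ e) :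
    ∃ E : Set (((Vpi fun k => (C k).V).pt Ω →₀ ℤ) ⧸ (Vpi fun k => (C k).V).ratEq K Ω),
      E.Finite ∧ (∀ x ∈ E, x ∈ (smN (K := K) (Ω := Ω) C).T) ∧
      ∀ g ∈ (smN (K := K) (Ω := Ω) C).T, ∃ x ∈ E,
        ∃ t ∈ (smN (K := K) (Ω := Ω) C).T, g - x = L.p • t := by
  choose n hn hg using fun k => exists_fg (m k) hπ he
  obtain ⟨N, hN⟩ : ∃ N, N = ∏ k, n k := ⟨_, rfl⟩
  have hN0 : N ≠ 0 := by
    rw [hN]
    exact Finset.prod_ne_zero_iff.2 fun k _ => hn k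
  have hU : Um L (L.Ur ⊥ N) := ⟨N, hN0, le_rfl⟩
  have h1 : ∀ k, ∃ κ, Nonempty (Fg (lpE (m k) π hπ e he) (L.Ur ⊥ N) κ) := fun k =>
    hg k _ (Ld.ur_dvd _ (hN ▸ Finset.dvd_prod_of_mem n (Finset.mem_univ k))) hU
  choose κ hκ using h1
  obtain ⟨E, hE, hT, hf⟩ := fm_fin (rm_N m hπ he) 1 hU Em.refl (fun M hM => dir_L hN0 M hM)
    (fun k => (hκ k).some) (res_L hπ hN0)
  refine ⟨E, hE, hT, fun g hg' => ?_⟩
  obtain ⟨x, hx, t, ht, h2⟩ := hf g hg'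
  refine ⟨x, hx, t, ht, ?_⟩
  rw [← h2, pow_one]
  rfl

end CV
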