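import Pool.Agent.Lib.MP_f80667_ag.Ctf.TB

/-!
# The Albanese kernel of a product of curves is the sum of the symbols of the subproducts

`ej J`: the inclusion of the product of the curves in `J`, `ejh J` the map of classes.
-/

set_option autoImplicit false

open ZC BE PE Polynomial IntermediateField Function

namespace CV

variable {F : Type} [Field F] {K Ω : Type} [Field K] [CharZero K] [Field Ω] [Algebra K Ω]
  [Algebra F K] [Algebra F Ω] [IsScalarTower F K Ω] [IsAlgClosure K Ω]
  {ι : Type} [Fintype ι] [DecidableEq ι] (C : ι → Crv F)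

/-- The inclusion of a subproduct. -/
def ej (J : Finset ι) : Mo (Vpi fun k : J => (C k).V) (Vpi fun k => (C k).V) where
  f L _ _ y i := if h : i ∈ J then y ⟨i, h⟩ else (C i).bp.o L
  nat L M _ _ _ _ σ y := funext fun i => by
    change (C i).V.map σ (if h : i ∈ J then y ⟨i, h⟩ else (C i).bp.o L) =
      if h : i ∈ J then (C i).V.map σ (y ⟨i, h⟩) else (C i).bp.o M
    split_ifs
    · rfl
    · exact (C i).bp.nat L M σ
  red K L Ω _ _ _ _ _ _ _ w x y h i := by
    change (C i).V.red w (if h : i ∈ J then x ⟨i, h⟩ else (C i).bp.o L)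
      (if h : i ∈ J then y ⟨i, h⟩ else (C i).bp.o Ω)
    split_ifs with hi
    · exact h ⟨i, hi⟩
    · exact (C i).bp.red K L Ω w

variable (K Ω) in
/-- The map of classes. -/
noncomputable def ejh (J : Finset ι) :
    (((Vpi fun k : J => (C k).V).pt Ω →₀ ℤ) ⧸ (Vpi fun k : J => (C k).V).ratEq K Ω) →+
      (((Vpi fun k => (C k).V).pt Ω →₀ ℤ) ⧸ (Vpi fun k => (C k).V).ratEq K Ω) :=
  QuotientAddGroup.map _ _ (Finsupp.mapDomain.addMonoidHom ((ej C J).f Ω))
    fun _ hz => (ej C J).ratEq K Ω hz

end CV
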