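import Pool.Agent.Lib.MP_f80667_ag.Ctf.TE

/-! # A point is the sum of its symbols -/

set_option autoImplicit false

open ZC BE PE Polynomial IntermediateField Function

namespace CV

variable {F : Type} [Field F] {K Ω : Type} [Field K] [CharZero K] [Field Ω] [Algebra K Ω]
  [Algebra F K] [Algebra F Ω] [IsScalarTower F K Ω] [IsAlgClosure K Ω]
  {ι : Type} [Fintype ι] [DecidableEq ι] (C : ι → Crv F)

omit [Field K] [CharZero K] [Algebra K Ω] [Algebra F K] [IsScalarTower F K Ω]
  [IsAlgClosure K Ω] in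
/-- A point is the sum of its symbols over the subsets. Proof: `[y i] = rd [y i] + [∞]`, multilinear expansion over the
subsets `J` (after `ext`: `Finset.prod_add`), `bxn_apply`, the push-forward by `ej C J`. -/
theorem pt_sum (y : (Vpi fun k => (C k).V).pt Ω) :
    (Finsupp.single y 1 : (Vpi fun k => (C k).V).pt Ω →₀ ℤ) =
      ∑ J : Finset ι, Finsupp.mapDomain ((ej C J).f Ω)
        (bxc (fun k : J => C k) fun k => Finsupp.single (y k) 1) := by
  classical
  have e1 : ∀ i, (Finsupp.single (y i) 1 : (C i).V.pt Ω →₀ ℤ) =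
      rd (C i).bp (Finsupp.single (y i) 1) + Finsupp.single ((C i).bp.o Ω) 1 := by
    intro i
    have h1 : (C i).V.deg Ω (Finsupp.single (y i) 1) = 1 := by simp [Vr.deg]
    rw [rd_apply, h1, sub_add_cancel]
  have hinj : ∀ J : Finset ι, Function.Injective ((ej C J).f Ω) := by
    intro J u u' h
    funext k
    have h1 := congrFun h k.1
    change (if h : k.1 ∈ J then u ⟨k.1, h⟩ else (C k.1).bp.o Ω) =
      (if h : k.1 ∈ J then u' ⟨k.1, h⟩ else (C k.1).bp.o Ω) at h1
    rw [dif_pos k.2, dif_pos k.2] at h1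
    exact h1
  refine Finsupp.ext fun z => ?_
  rw [Finsupp.finsetSum_apply]
  have h0 : (Finsupp.single y 1 : (Vpi fun k => (C k).V).pt Ω →₀ ℤ) z =
      ∏ i, ((rd (C i).bp (Finsupp.single (y i) 1)) (z i) +
        (Finsupp.single ((C i).bp.o Ω) 1 : (C i).V.pt Ω →₀ ℤ) (z i)) := by
    have h1 : (Finsupp.single y 1 : (Vpi fun k => (C k).V).pt Ω →₀ ℤ) z =
        (bxn fun i => (Finsupp.single (y i) 1 : (C i).V.pt Ω →₀ ℤ)) z := by
      rw [bxn_single]
      rfl
    rw [h1, bxn_apply]
    refine Finset.prod_congr rfl fun i _ => ?_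
    rw [← Finsupp.add_apply, ← e1 i]
  rw [h0, Finset.prod_add, Finset.powerset_univ]
  refine Finset.sum_congr rfl fun J _ => ?_
  by_cases hz : ∀ i, i ∉ J → z i = (C i).bp.o Ω
  · have hz' : (ej C J).f Ω (fun k : J => z k) = z := by
      funext i
      change (if h : i ∈ J then z i else (C i).bp.o Ω) = z i
      split_ifs with h
      · rfl
      · exact (hz i h).symm
    have h3 := (congrArg (Finsupp.mapDomain ((ej C J).f Ω)
      (bxc (fun k : J => C k) fun k => Finsupp.single (y k) 1)) hz').symm.trans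
        (Finsupp.mapDomain_apply (hinj J) _ _)
    rw [h3]
    have h4 : (bxc (fun k : J => C k) fun k => Finsupp.single (y k) 1) (fun k : J => z k) =
        ∏ k : J, (rd (C k).bp (Finsupp.single (y k) 1)) (z k) := rfl
    rw [h4, Finset.prod_coe_sort J fun i => (rd (C i).bp (Finsupp.single (y i) 1)) (z i),
      Finset.prod_eq_one (s := Finset.univ \ J), mul_one]
    intro i hi
    rw [hz i (Finset.mem_sdiff.1 hi).2, Finsupp.single_eq_same]
  · obtain ⟨i, hi, hne⟩ : ∃ i, i ∉ J ∧ z i ≠ (C i).bp.o Ω := by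
      by_contra h
      apply hz
      intro i hi
      by_contra h1
      exact h ⟨i, hi, h1⟩
    have h5 : (Finsupp.single ((C i).bp.o Ω) 1 : (C i).V.pt Ω →₀ ℤ) (z i) = 0 :=
      Finsupp.single_eq_of_ne hne
    have h6 : ∏ k ∈ Finset.univ \ J,
        (Finsupp.single ((C k).bp.o Ω) 1 : (C k).V.pt Ω →₀ ℤ) (z k) = 0 :=
      Finset.prod_eq_zero (Finset.mem_sdiff.2 ⟨Finset.mem_univ i, hi⟩) h5
    rw [Finsupp.mapDomain_of_notMem_range, h6, mul_zero]
    rintro ⟨u, rfl⟩
    apply hne
    change (if h : i ∈ J then u ⟨i, h⟩ else (C i).bp.o Ω) = (C i).bp.o Ω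
    rw [dif_neg hi]

end CV
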