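import Pool.Agent.Lib.MP_f80667_ag.Ctf.TE1

/-! # The component in the Albanese kernel of a point -/

set_option autoImplicit false

open ZC BE PE Polynomial IntermediateField Function

namespace CV

variable {F : Type} [Field F] {K Ω : Type} [Field K] [CharZero K] [Field Ω] [Algebra K Ω]
  [Algebra F K] [Algebra F Ω] [IsScalarTower F K Ω] [IsAlgClosure K Ω]
  {ι : Type} [Fintype ι] [DecidableEq ι] (C : ι → Crv F)

section te2

omit [Field K] [CharZero K] [Algebra K Ω] [Algebra F K] [IsScalarTower F K Ω]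
  [IsAlgClosure K Ω] in
private theorem te2_rd {ι : Type} (C : ι → Crv F) (i : ι) (p : (C i).V.pt Ω) :
    rd (C i).bp (Finsupp.single p 1) = Finsupp.single p 1 - Finsupp.single ((C i).bp.o Ω) 1 := by
  rw [rd_apply]
  congr 2
  simp [Vr.deg]

omit [Field K] [CharZero K] [Algebra K Ω] [Algebra F K] [IsScalarTower F K Ω]
  [IsAlgClosure K Ω] [Fintype ι] in
/-- The empty subset. -/
private theorem te2_empty (y : (Vpi fun k => (C k).V).pt Ω) :
    Finsupp.mapDomain ((ej C ∅).f Ω)
      (bxc (fun k : (∅ : Finset ι) => C k) fun k => Finsupp.single (y k) 1) =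
      Finsupp.single (o' C) 1 := by
  obtain ⟨w, hw⟩ : ∃ w : (Vpi fun k : (∅ : Finset ι) => (C k).V).pt Ω, ∀ k, w k = y k :=
    ⟨fun k => y k, fun k => rfl⟩
  have h1 : (fun k : (∅ : Finset ι) => rd (C k).bp (Finsupp.single (y k) (1 : ℤ))) =
      fun k : (∅ : Finset ι) => Finsupp.single (w k) (1 : ℤ) := by
    funext k
    exact absurd k.2 (Finset.notMem_empty _)
  have h2 : bxc (fun k : (∅ : Finset ι) => C k) (fun k => Finsupp.single (y k) (1 : ℤ)) =
      Finsupp.single w 1 := by
    unfold bxc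
    rw [h1]
    exact bxn_single w
  have h3 : (ej C ∅).f Ω w = o' C := by
    funext i
    change (if h : i ∈ (∅ : Finset ι) then w ⟨i, h⟩ else (C i).bp.o Ω) = _
    rw [dif_neg (Finset.notMem_empty i)]
    rfl
  rw [h2, Finsupp.mapDomain_single, h3]

/-- The exterior product of one entry. -/
private theorem te2_one {J : Type} [Fintype J] {Y : J → Type} (k₀ : J) (hk : ∀ k, k = k₀)
    (a : ∀ k, Y k →₀ ℤ) (w w' : ∀ k, Y k)
    (ha : a k₀ = Finsupp.single (w k₀) 1 - Finsupp.single (w' k₀) 1) :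
    bxn a = Finsupp.single w 1 - Finsupp.single w' 1 := by
  classical
  refine Finsupp.ext fun z => ?_
  rw [bxn_apply, Fintype.prod_eq_single k₀ fun k hk' => absurd (hk k) hk', ha,
    Finsupp.sub_apply, Finsupp.sub_apply,
    Finsupp.single_apply, Finsupp.single_apply, Finsupp.single_apply, Finsupp.single_apply]
  have h2 : ∀ w : ∀ k, Y k, w k₀ = z k₀ ↔ w = z := by
    intro w
    constructor
    · intro h
      funext k
      rw [hk k]
      exact h
    · rintro rfl
      rfl
  have h3 := h2 w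
  have h4 := h2 w'
  simp only [h3, h4]

omit [Field K] [CharZero K] [Algebra K Ω] [Algebra F K] [IsScalarTower F K Ω]
  [IsAlgClosure K Ω] [Fintype ι] in
/-- The subsets with one element. -/
private theorem te2_single (y : (Vpi fun k => (C k).V).pt Ω) (i : ι) :
    Finsupp.mapDomain ((ej C {i}).f Ω)
      (bxc (fun k : ({i} : Finset ι) => C k) fun k => Finsupp.single (y k) 1) =
      Finsupp.single (u₁ (o' C) i (y i)) 1 - Finsupp.single (o' C) 1 := by
  obtain ⟨w, hw⟩ : ∃ w : (Vpi fun k : ({i} : Finset ι) => (C k).V).pt Ω, ∀ k, w k = y k :=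
    ⟨fun k => y k, fun k => rfl⟩
  obtain ⟨w', hw'⟩ : ∃ w : (Vpi fun k : ({i} : Finset ι) => (C k).V).pt Ω,
      ∀ k, w k = (C k).bp.o Ω := ⟨fun k => (C k).bp.o Ω, fun k => rfl⟩
  have h1 : bxc (fun k : ({i} : Finset ι) => C k) (fun k => Finsupp.single (y k) (1 : ℤ)) =
      Finsupp.single w 1 - Finsupp.single w' 1 := by
    unfold bxc
    refine te2_one (⟨i, Finset.mem_singleton_self i⟩ : ({i} : Finset ι))
      (fun k => Subtype.ext (Finset.mem_singleton.1 k.2)) _ w w' ?_
    rw [hw, hw']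
    exact te2_rd C i (y i)
  have h5 : ∀ z z' : (Vpi fun k : ({i} : Finset ι) => (C k).V).pt Ω →₀ ℤ,
      Finsupp.mapDomain ((ej C {i}).f Ω) (z - z') =
        Finsupp.mapDomain ((ej C {i}).f Ω) z - Finsupp.mapDomain ((ej C {i}).f Ω) z' := fun z z' =>
    (Finsupp.mapDomain.addMonoidHom ((ej C {i}).f Ω)).map_sub z z'
  have e1 : (ej C {i}).f Ω w = u₁ (o' C) i (y i) := by
    funext j
    have h6 : (ej C {i}).f Ω w j =
      if h : j ∈ ({i} : Finset ι) then w ⟨j, h⟩ else (C j).bp.o Ω := rfl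
    rw [h6]
    rcases eq_or_ne j i with rfl | hj
    · rw [dif_pos (Finset.mem_singleton_self j), hw]
      exact (@Function.update_self ι (fun i => (C i).V.pt Ω)
        (fun a b => Classical.propDecidable (a = b)) j (y j) (o' C)).symm
    · rw [dif_neg (fun h => hj (Finset.mem_singleton.1 h))]
      exact (@Function.update_of_ne ι (fun i => (C i).V.pt Ω)
        (fun a b => Classical.propDecidable (a = b)) j i hj (y i) (o' C)).symm
  have e2 : (ej C {i}).f Ω w' = o' C := by
    funext j
    change (if h : j ∈ ({i} : Finset ι) then w' ⟨j, h⟩ else (C j).bp.o Ω) = (C j).bp.o Ω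
    split_ifs with h
    · exact hw' _
    · rfl
  rw [h1, h5, Finsupp.mapDomain_single, Finsupp.mapDomain_single, e1, e2]

end te2

omit [Field K] [CharZero K] [Algebra K Ω] [Algebra F K] [IsScalarTower F K Ω]
  [IsAlgClosure K Ω] in
/-- Proof: `pt_sum`; the terms with `J = ∅`, `J = {i}` are `[∞]`, `[y i at i, ∞ elsewhere] - [∞]`, `th`. -/
theorem th_sum (y : (Vpi fun k => (C k).V).pt Ω) :
    th Ω C (Finsupp.single y 1) =
      ∑ J ∈ Finset.univ.filter (fun J : Finset ι => 2 ≤ J.card),
        Finsupp.mapDomain ((ej C J).f Ω)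
          (bxc (fun k : J => C k) fun k => Finsupp.single (y k) 1) := by
  have h1 := pt_sum C y
  obtain ⟨f, hf⟩ : ∃ f : Finset ι → ((Vpi fun k => (C k).V).pt Ω →₀ ℤ),
      ∀ J, f J = Finsupp.mapDomain ((ej C J).f Ω)
        (bxc (fun k : J => C k) fun k => Finsupp.single (y k) 1) := ⟨_, fun J => rfl⟩
  have hf0 : f ∅ = Finsupp.single (o' C) 1 := by
    rw [hf]
    exact te2_empty C y
  have hf1 : ∀ i, f {i} = Finsupp.single (u₁ (o' C) i (y i)) 1 - Finsupp.single (o' C) 1 := by
    intro i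
    rw [hf]
    exact te2_single C y i
  simp only [← hf] at h1 ⊢
  have h2 : Finset.univ.filter (fun J : Finset ι => ¬ 2 ≤ J.card) =
      insert ∅ (Finset.univ.map ⟨fun i : ι => ({i} : Finset ι), Finset.singleton_injective⟩) := by
    ext J
    rw [Finset.mem_filter, Finset.mem_insert, Finset.mem_map]
    constructor
    · rintro ⟨-, h⟩
      rcases Nat.lt_or_ge J.card 1 with h3 | h3
      · exact Or.inl (Finset.card_eq_zero.1 (by omega))
      · obtain ⟨i, rfl⟩ := Finset.card_eq_one.1 (show J.card = 1 by omega)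
        exact Or.inr ⟨i, Finset.mem_univ i, rfl⟩
    · rintro (rfl | ⟨i, -, rfl⟩)
      · exact ⟨Finset.mem_univ _, by simp⟩
      · refine ⟨Finset.mem_univ _, ?_⟩
        change ¬ 2 ≤ ({i} : Finset ι).card
        rw [Finset.card_singleton]
        omega
  have h3 : ∅ ∉ Finset.univ.map ⟨fun i : ι => ({i} : Finset ι), Finset.singleton_injective⟩ := by
    rw [Finset.mem_map]
    rintro ⟨i, -, h⟩
    exact Finset.singleton_ne_empty i h
  have h4 : ∑ J ∈ Finset.univ.filter (fun J : Finset ι => ¬ 2 ≤ J.card), f J =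
      Finsupp.single (o' C) 1 + ∑ i, (Finsupp.single (u₁ (o' C) i (y i)) 1 -
        Finsupp.single (o' C) 1) := by
    rw [h2, Finset.sum_insert h3, Finset.sum_map, hf0]
    congr 1
    exact Finset.sum_congr rfl fun i _ => hf1 i
  have h5 := Finset.sum_filter_add_sum_filter_not Finset.univ
    (fun J : Finset ι => 2 ≤ J.card) f
  rw [← h1, h4, Finset.sum_sub_distrib, Finset.sum_const, Finset.card_univ] at h5
  have h6 : th Ω C (Finsupp.single y 1) = Finsupp.single y 1 -
      ∑ i, Finsupp.single (u₁ (o' C) i (y i)) 1 +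
        ((Fintype.card ι : ℤ) - 1) • Finsupp.single (o' C) 1 := by
    unfold th
    rw [AddMonoidHom.add_apply, AddMonoidHom.sub_apply, AddMonoidHom.finsetSum_apply,
      AddMonoidHom.smul_apply]
    simp only [Finsupp.mapDomain.addMonoidHom_apply, Finsupp.mapDomain_single,
      AddMonoidHom.id_apply]
  rw [h6, sub_smul, one_smul, ← h5, natCast_zsmul]
  abel

end CV
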