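import Pool.Agent.Lib.MP_f80667_ag.Ctf.TE2

/-! # The Albanese kernel is the sum of the symbols -/

set_option autoImplicit false

open ZC BE PE Polynomial IntermediateField Function

namespace CV

variable {F : Type} [Field F] {K Ω : Type} [Field K] [CharZero K] [Field Ω] [Algebra K Ω]
  [Algebra F K] [Algebra F Ω] [IsScalarTower F K Ω] [IsAlgClosure K Ω]
  {ι : Type} [Fintype ι] [DecidableEq ι] {C : ι → Crv F}

omit [CharZero K] [IsAlgClosure K Ω] in
private theorem te3_smul {V W : Vr F} [Hf V] [Hf W] (φ : Mo V W) (γ : Ω ≃ₐ[K] Ω)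
    (z : V.pt Ω →₀ ℤ) :
    Finsupp.mapDomain (φ.f Ω) (γ • z) = γ • Finsupp.mapDomain (φ.f Ω) z := by
  rw [smul_def, smul_def, ← Finsupp.mapDomain_comp, ← Finsupp.mapDomain_comp]
  exact congrArg (fun g => Finsupp.mapDomain g z) (funext fun x => (φ.act γ x).symm)

omit [Fintype ι] [DecidableEq ι] in
private theorem te3_fp [Finite ι] (x : (Vpi fun i => (C i).V).pt Ω) :
    ∃ M : IntermediateField K Ω, FiniteDimensional K M ∧ Fp (Vpi fun i => (C i).V) M x := by
  choose M hM hfp using fun i => exists_fp (K := K) (C i) (x i)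
  refine ⟨⨆ i, M i, ?_, ?_⟩
  · have : ∀ i, FiniteDimensional K (M i) := hM
    exact IntermediateField.finiteDimensional_iSup_of_finite
  · intro γ hγ
    exact funext fun i => hfp i γ (fix_le (le_iSup M i) hγ)

/-- The cycles whose component in the Albanese kernel is a sum of symbols. -/
private def te3_P (C : ι → Crv F) (K Ω : Type) [Field K] [CharZero K] [Field Ω] [Algebra K Ω]
    [Algebra F K] [Algebra F Ω] [IsScalarTower F K Ω] [IsAlgClosure K Ω] :
    AddSubgroup ((Vpi fun k => (C k).V).pt Ω →₀ ℤ) where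
  carrier := {z | ∃ g : ∀ J : Finset ι, (((Vpi fun k : J => (C k).V).pt Ω →₀ ℤ) ⧸
      (Vpi fun k : J => (C k).V).ratEq K Ω),
      (∀ J, 2 ≤ J.card → g J ∈ (smN (K := K) (Ω := Ω) fun k : J => C k).T) ∧
      (QuotientAddGroup.mk (th Ω C z) : ((Vpi fun k => (C k).V).pt Ω →₀ ℤ) ⧸
        (Vpi fun k => (C k).V).ratEq K Ω) =
        ∑ J ∈ Finset.univ.filter (fun J : Finset ι => 2 ≤ J.card), ejh K Ω C J (g J)}
  zero_mem' := by
    refine ⟨fun J => 0, fun J _ => zero_mem _, ?_⟩
    rw [map_zero, QuotientAddGroup.mk_zero]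
    exact (Finset.sum_eq_zero fun J _ => map_zero _).symm
  add_mem' := by
    rintro a b ⟨g, h1, h2⟩ ⟨g', h1', h2'⟩
    refine ⟨fun J => g J + g' J, fun J hJ => add_mem (h1 J hJ) (h1' J hJ), ?_⟩
    rw [map_add, QuotientAddGroup.mk_add, h2, h2', ← Finset.sum_add_distrib]
    exact Finset.sum_congr rfl fun J _ => (map_add _ _ _).symm
  neg_mem' := by
    rintro a ⟨g, h1, h2⟩
    refine ⟨fun J => -g J, fun J hJ => neg_mem (h1 J hJ), ?_⟩
    rw [map_neg, QuotientAddGroup.mk_neg, h2, ← Finset.sum_neg_distrib]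
    exact Finset.sum_congr rfl fun J _ => (map_neg _ _).symm

/-- The Albanese kernel. Proof: as `t_mem`: `th_id`, `fx_gen` over `⊥` (`exists_fp` for the coordinates), `hom_nm` for `th` and
for the push-forwards by `ej C J`, `th_sum`, `smN_sy`. -/
theorem dec_T {z : (Vpi fun k => (C k).V).pt Ω →₀ ℤ} (hz : z ∈ (Vpi fun k => (C k).V).D0 K Ω)
    (h : ∀ i, Finsupp.mapDomain ((pr i).f Ω) z ∈ (C i).V.ratEq K Ω) :
    ∃ g : ∀ J : Finset ι, (((Vpi fun k : J => (C k).V).pt Ω →₀ ℤ) ⧸
      (Vpi fun k : J => (C k).V).ratEq K Ω),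
      (∀ J, 2 ≤ J.card → g J ∈ (smN (K := K) (Ω := Ω) fun k : J => C k).T) ∧
      (QuotientAddGroup.mk z : ((Vpi fun k => (C k).V).pt Ω →₀ ℤ) ⧸
        (Vpi fun k => (C k).V).ratEq K Ω) =
        ∑ J ∈ Finset.univ.filter (fun J : Finset ι => 2 ≤ J.card), ejh K Ω C J (g J) := by
  have hfx : Fx (⊥ : IntermediateField K Ω) z := fun γ _ => hz.1 γ
  have hcl := fx_gen (V := Vpi fun k => (C k).V) te3_fp hfx
  have hle : AddSubgroup.closure {z | ∃ (M' : IntermediateField K Ω)
      (x : (Vpi fun i => (C i).V).pt Ω), (⊥ : IntermediateField K Ω) ≤ M' ∧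
      FiniteDimensional K M' ∧ Fp (Vpi fun i => (C i).V) M' x ∧
      z = Nm (⊥ : IntermediateField K Ω) M' (Finsupp.single x 1)} ≤ te3_P C K Ω := by
    refine (AddSubgroup.closure_le _).2 ?_
    rintro _ ⟨M', x, -, hf, hx, rfl⟩
    refine ⟨fun J => (smN (K := K) (Ω := Ω) fun k : J => C k).sy M'
      fun k => Finsupp.single (x k) 1, fun J _ => ?_, ?_⟩
    · refine Sm.memT fun k => ?_
      exact fx_single (V := (C k).V) (x := x k) (fun γ hγ => congrFun (hx γ hγ) k) 1
    · rw [hom_nm (th Ω C) bot_le (fun γ _ a => (th_smul C γ a).symm), th_sum]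
      obtain ⟨s, -, -, -, hs⟩ := nm_rep (M := (⊥ : IntermediateField K Ω)) (N := M') bot_le
      have h1 : Nm (⊥ : IntermediateField K Ω) M' (∑ J ∈ Finset.univ.filter
          (fun J : Finset ι => 2 ≤ J.card), Finsupp.mapDomain ((ej C J).f Ω)
          (bxc (fun k : J => C k) fun k => Finsupp.single (x k) 1)) =
          ∑ J ∈ Finset.univ.filter (fun J : Finset ι => 2 ≤ J.card),
            Finsupp.mapDomain ((ej C J).f Ω) (Nm (⊥ : IntermediateField K Ω) M'
              (bxc (fun k : J => C k) fun k => Finsupp.single (x k) 1)) := by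
        rw [hs]
        simp only [Finset.smul_sum]
        rw [Finset.sum_comm]
        refine Finset.sum_congr rfl fun J _ => ?_
        have h2 := hom_nm (M := (⊥ : IntermediateField K Ω)) (N := M')
          (Finsupp.mapDomain.addMonoidHom ((ej C J).f Ω)) bot_le
          (fun γ _ a => te3_smul (ej C J) γ a)
          (bxc (fun k : J => C k) fun k => Finsupp.single (x k) 1)
        rw [← hs]
        exact h2.symm
      rw [h1]
      have h3 : ∀ (t : Finset (Finset ι)) (f : Finset ι → (Vpi fun k => (C k).V).pt Ω →₀ ℤ),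
          (QuotientAddGroup.mk (∑ J ∈ t, f J) : ((Vpi fun k => (C k).V).pt Ω →₀ ℤ) ⧸
            (Vpi fun k => (C k).V).ratEq K Ω) = ∑ J ∈ t, QuotientAddGroup.mk (f J) := by
        intro t f
        exact map_sum (QuotientAddGroup.mk' ((Vpi fun k => (C k).V).ratEq K Ω)) f t
      rw [h3]
      exact Finset.sum_congr rfl fun J _ => rfl
  obtain ⟨g, h1, h2⟩ := hle hcl
  refine ⟨g, h1, ?_⟩
  rw [← h2, QuotientAddGroup.eq]
  have h4 := th_id C hz h
  rwa [sub_eq_neg_add] at h4

end CV
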